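import Pool.Agent.Run7.h128.PI.Third

set_option autoImplicit false
set_option linter.unusedSectionVars false

/-!
# The factor of the third derivative vanishes for forests and can be made nonzero otherwise
-/

namespace Run7.h128.PI

open Finset MvPolynomial Run7.h128.SI

section general

variable {V ι : Type} [Fintype V] [DecidableEq V] [Fintype ι] [DecidableEq ι] {s q n : ℕ}

theorem kap_map {A B : Type*} [CommRing A] [CommRing B] (ψ : A →+* B) (E : ι → Fin s × V × V)
    (κ : Fin 3 → Fin s × Fin q × Fin q) (o : Fin 3 → Bool) (c d : Fin s × Fin q × Fin q → A) :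
    ψ (kap n E κ o c d) = kap n E κ o (fun t => ψ (c t)) (fun t => ψ (d t)) := by
  classical
  unfold kap
  simp only [map_sum, apply_ite ψ, map_mul, map_prod, map_natCast, map_zero]

/-- the exponents -/
noncomputable def expo (E : ι → Fin s × V × V) (χ : V → Fin q) (S T : Finset ι) :
    ((Fin s × Fin q × Fin q) ⊕ (Fin s × Fin q × Fin q)) →₀ ℕ :=
  ∑ w ∈ S, Finsupp.single (Sum.inl (col E χ w)) 1 +
    ∑ w ∈ T \ S, Finsupp.single (Sum.inr (col E χ w)) 1

open Classical in
/-- the coefficient as a natural number -/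
noncomputable def knat (n : ℕ) (E : ι → Fin s × V × V)
    (κ : Fin 3 → Fin s × Fin q × Fin q) (o : Fin 3 → Bool)
    (M : ((Fin s × Fin q × Fin q) ⊕ (Fin s × Fin q × Fin q)) →₀ ℕ) : ℕ :=
  ∑ χ : V → Fin q, ∑ x, ∑ y ∈ univ.erase x, ∑ z ∈ (univ.erase x).erase y,
    ∑ S ∈ (((univ.erase x).erase y).erase z).powerset,
      if (col E χ x = κ 0 ∧ col E χ y = κ 1 ∧ col E χ z = κ 2) ∧
        expo E χ S (((univ.erase x).erase y).erase z) = M then wgt n (pos E o x y z S) else 0

theorem coeff_kap {K : Type} [Field K] (E : ι → Fin s × V × V)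
    (κ : Fin 3 → Fin s × Fin q × Fin q) (o : Fin 3 → Bool)
    (M : ((Fin s × Fin q × Fin q) ⊕ (Fin s × Fin q × Fin q)) →₀ ℕ) :
    coeff M (kap n E κ o (fun t => (X (Sum.inl t) : MvPolynomial _ K)) (fun t => X (Sum.inr t))) =
      (knat n E κ o M : K) := by
  classical
  unfold kap knat
  simp only [coeff_sum, Nat.cast_sum]
  refine sum_congr rfl fun χ _ => sum_congr rfl fun x _ => sum_congr rfl fun y _ =>
    sum_congr rfl fun z _ => sum_congr rfl fun S _ => ?_
  have h1 : (∏ w ∈ S, (X (Sum.inl (col E χ w)) : MvPolynomial _ K)) *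
      ∏ w ∈ (((univ.erase x).erase y).erase z) \ S, X (Sum.inr (col E χ w)) =
      monomial (expo E χ S (((univ.erase x).erase y).erase z)) 1 := by
    have h2 : ∀ (R : Finset ι) (p : ι → (Fin s × Fin q × Fin q) ⊕ (Fin s × Fin q × Fin q)),
        ∏ w ∈ R, (X (p w) : MvPolynomial _ K) = monomial (∑ w ∈ R, Finsupp.single (p w) 1) 1 := by
      intro R p
      rw [MvPolynomial.monomial_sum_one]
      rfl
    rw [h2, h2, monomial_mul, one_mul]
    rfl
  by_cases hc : col E χ x = κ 0 ∧ col E χ y = κ 1 ∧ col E χ z = κ 2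
  · rw [if_pos hc, h1, ← map_natCast C, coeff_C_mul, coeff_monomial]
    by_cases he : expo E χ S (((univ.erase x).erase y).erase z) = M
    · rw [if_pos he, if_pos ⟨hc, he⟩, mul_one]
    · rw [if_neg he, if_neg (fun h => he h.2), mul_zero, Nat.cast_zero]
  · rw [if_neg hc, if_neg (fun h => hc h.1), coeff_zero, Nat.cast_zero]

theorem knat_ne_zero {E : ι → Fin s × V × V} {κ : Fin 3 → Fin s × Fin q × Fin q}
    {o : Fin 3 → Bool} {M : ((Fin s × Fin q × Fin q) ⊕ (Fin s × Fin q × Fin q)) →₀ ℕ}
    (χ : V → Fin q) (x y z : ι) (hy : y ∈ univ.erase x) (hz : z ∈ (univ.erase x).erase y)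
    (S : Finset ι) (hS : S ⊆ ((univ.erase x).erase y).erase z)
    (hc : col E χ x = κ 0 ∧ col E χ y = κ 1 ∧ col E χ z = κ 2)
    (hM : expo E χ S (((univ.erase x).erase y).erase z) = M)
    (hg : GoodPos (pos E o x y z S)) : knat n E κ o M ≠ 0 := by
  classical
  intro h0
  unfold knat at h0
  have h1 := (Finset.sum_eq_zero_iff.1 h0) χ (mem_univ _)
  have h2 := (Finset.sum_eq_zero_iff.1 h1) x (mem_univ _)
  have h3 := (Finset.sum_eq_zero_iff.1 h2) y hy
  have h4 := (Finset.sum_eq_zero_iff.1 h3) z hz
  have h5 := (Finset.sum_eq_zero_iff.1 h4) S (mem_powerset.2 hS)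
  rw [if_pos ⟨hc, hM⟩] at h5
  exact (wgt_pos hg).ne' h5

theorem exists_of_knat {E : ι → Fin s × V × V} {κ : Fin 3 → Fin s × Fin q × Fin q}
    {o : Fin 3 → Bool} {M : ((Fin s × Fin q × Fin q) ⊕ (Fin s × Fin q × Fin q)) →₀ ℕ}
    (h : knat n E κ o M ≠ 0) : ∃ (χ : V → Fin q) (x y z : ι) (S : Finset ι),
      y ∈ univ.erase x ∧ z ∈ (univ.erase x).erase y ∧ S ⊆ ((univ.erase x).erase y).erase z ∧
      (col E χ x = κ 0 ∧ col E χ y = κ 1 ∧ col E χ z = κ 2) ∧
      expo E χ S (((univ.erase x).erase y).erase z) = M := by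
  classical
  unfold knat at h
  obtain ⟨χ, _, h1⟩ := Finset.exists_ne_zero_of_sum_ne_zero h
  obtain ⟨x, _, h2⟩ := Finset.exists_ne_zero_of_sum_ne_zero h1
  obtain ⟨y, hy, h3⟩ := Finset.exists_ne_zero_of_sum_ne_zero h2
  obtain ⟨z, hz, h4⟩ := Finset.exists_ne_zero_of_sum_ne_zero h3
  obtain ⟨S, hS, h5⟩ := Finset.exists_ne_zero_of_sum_ne_zero h4
  by_cases hc : (col E χ x = κ 0 ∧ col E χ y = κ 1 ∧ col E χ z = κ 2) ∧
        expo E χ S (((univ.erase x).erase y).erase z) = M
  · exact ⟨χ, x, y, z, S, hy, hz, mem_powerset.1 hS, hc.1, hc.2⟩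
  · rw [if_neg hc] at h5
    exact absurd rfl h5

/-! ### Forests -/

/-- the three colours lie over different edges -/
def Distinct3 (κ : Fin 3 → Fin s × Fin q × Fin q) : Prop :=
  s((κ 1).2.1, (κ 1).2.2) ≠ s((κ 0).2.1, (κ 0).2.2) ∧
    s((κ 2).2.1, (κ 2).2.2) ≠ s((κ 0).2.1, (κ 0).2.2)

theorem ends_adj (E : ι → Fin s × V × V) (o : Bool) (w : ι)
    (h : fstEnd E o w ≠ sndEnd E o w) : (und E).Adj (fstEnd E o w) (sndEnd E o w) := by
  unfold und
  rw [SimpleGraph.fromRel_adj]
  refine ⟨h, ?_⟩
  unfold fstEnd sndEnd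
  cases o
  · exact Or.inl ⟨w, rfl⟩
  · exact Or.inr ⟨w, rfl⟩

theorem ends_sym2 (E : ι → Fin s × V × V) (χ : V → Fin q) (o : Bool) (w : ι) :
    Sym2.map χ s(fstEnd E o w, sndEnd E o w) = s((col E χ w).2.1, (col E χ w).2.2) := by
  unfold fstEnd sndEnd col
  cases o
  · rfl
  · simp only [if_true, Sym2.map_mk]
    exact Sym2.eq_swap

theorem forest_not_good {E : ι → Fin s × V × V} (hE : IsForest E)
    {κ : Fin 3 → Fin s × Fin q × Fin q} (hκ : Distinct3 κ) (o : Fin 3 → Bool) (χ : V → Fin q)
    (x y z : ι) (hc : col E χ x = κ 0 ∧ col E χ y = κ 1 ∧ col E χ z = κ 2) (S : Finset ι) :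
    ¬ GoodPos (pos E o x y z S) := by
  rintro ⟨h05, h12, h34, h01, h13, h03⟩
  set x0 := fstEnd E (o 0) x with hx0
  set x1 := sndEnd E (o 0) x with hx1
  set y0 := fstEnd E (o 1) y with hy0
  set y1 := sndEnd E (o 1) y with hy1
  set z0 := fstEnd E (o 2) z with hz0
  set z1 := sndEnd E (o 2) z with hz1
  have p0 : pos E o x y z S 0 = Quot.mk _ x0 := rfl
  have p1 : pos E o x y z S 1 = Quot.mk _ x1 := rfl
  have p2 : pos E o x y z S 2 = Quot.mk _ y0 := rfl
  have p3 : pos E o x y z S 3 = Quot.mk _ y1 := rfl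
  have p4 : pos E o x y z S 4 = Quot.mk _ z0 := rfl
  have p5 : pos E o x y z S 5 = Quot.mk _ z1 := rfl
  rw [p0, p5] at h05
  rw [p1, p2] at h12
  rw [p3, p4] at h34
  rw [p0, p1] at h01
  rw [p1, p3] at h13
  rw [p0, p3] at h03
  have hxne : x0 ≠ x1 := fun h => h01 (by rw [h])
  have hadj := ends_adj E (o 0) x hxne
  have hbr := (SimpleGraph.isAcyclic_iff_forall_adj_isBridge.1 hE) hadj
  rw [SimpleGraph.isBridge_iff] at hbr
  set G' := (und E).deleteEdges {s(x0, x1)} with hG'
  have hrel : ∀ v v', rel E S v v' → G'.connectedComponentMk v = G'.connectedComponentMk v' := by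
    rintro v v' ⟨w, hw, hvv⟩
    by_cases hne : v = v'
    · rw [hne]
    · rw [SimpleGraph.ConnectedComponent.eq]
      apply SimpleGraph.Adj.reachable
      rw [hG', SimpleGraph.deleteEdges_adj]
      refine ⟨?_, ?_⟩
      · unfold und
        rw [SimpleGraph.fromRel_adj]
        exact ⟨hne, Or.inl ⟨w, hvv⟩⟩
      · intro h1
        rw [Set.mem_singleton_iff] at h1
        have h2 : (Quot.mk (rel E S) v) = Quot.mk (rel E S) v' := Quot.sound ⟨w, hw, hvv⟩
        rcases Sym2.eq_iff.1 h1 with ⟨h3, h4⟩ | ⟨h3, h4⟩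
        · rw [h3, h4] at h2
          exact h01 h2
        · rw [h3, h4] at h2
          exact h01 h2.symm
  let F : Quot (rel E S) → G'.ConnectedComponent := Quot.lift G'.connectedComponentMk hrel
  have hF : ∀ v, F (Quot.mk _ v) = G'.connectedComponentMk v := fun v => rfl
  have k1 : G'.connectedComponentMk x1 = G'.connectedComponentMk y0 := by
    rw [← hF, ← hF, h12]
  have k2 : G'.connectedComponentMk y1 = G'.connectedComponentMk z0 := by
    rw [← hF, ← hF, h34]
  have k3 : G'.connectedComponentMk x0 = G'.connectedComponentMk z1 := by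
    rw [← hF, ← hF, h05]
  have hyne : y0 ≠ y1 := fun h => h13 (by rw [h12, h])
  have hzne : z0 ≠ z1 := fun h => h03 (by rw [h05, h34, h])
  have step : ∀ (o' : Bool) (w : ι), fstEnd E o' w ≠ sndEnd E o' w →
      s((col E χ w).2.1, (col E χ w).2.2) ≠ s((κ 0).2.1, (κ 0).2.2) →
      G'.connectedComponentMk (fstEnd E o' w) = G'.connectedComponentMk (sndEnd E o' w) := by
    intro o' w h1 h2
    rw [SimpleGraph.ConnectedComponent.eq]
    apply SimpleGraph.Adj.reachable
    rw [hG', SimpleGraph.deleteEdges_adj]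
    refine ⟨ends_adj E o' w h1, ?_⟩
    intro h3
    rw [Set.mem_singleton_iff] at h3
    apply h2
    rw [← ends_sym2 E χ o' w, h3, ← hc.1, ← ends_sym2 E χ (o 0) x]
  have k4 := step (o 1) y hyne (by rw [hc.2.1]; exact hκ.1)
  have k5 := step (o 2) z hzne (by rw [hc.2.2]; exact hκ.2)
  apply hbr
  rw [← SimpleGraph.ConnectedComponent.eq, k3, ← k5, ← k2, ← k4, ← k1]

theorem kap_forest {A : Type*} [CommRing A] {E : ι → Fin s × V × V} (hE : IsForest E)
    {κ : Fin 3 → Fin s × Fin q × Fin q} (hκ : Distinct3 κ) (o : Fin 3 → Bool)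
    (c d : Fin s × Fin q × Fin q → A) : kap n E κ o c d = 0 := by
  classical
  unfold kap
  refine Finset.sum_eq_zero fun χ _ => Finset.sum_eq_zero fun x _ => Finset.sum_eq_zero fun y _ =>
    Finset.sum_eq_zero fun z _ => Finset.sum_eq_zero fun S _ => ?_
  by_cases hc : col E χ x = κ 0 ∧ col E χ y = κ 1 ∧ col E χ z = κ 2
  · rw [if_pos hc]
    have h1 : wgt n (pos E o x y z S) = 0 := by
      unfold wgt
      rw [if_neg (forest_not_good hE hκ o χ x y z hc S)]
    rw [h1, Nat.cast_zero, zero_mul]
  · rw [if_neg hc]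

end general

/-! ### A multigraph with a cycle -/

section cycle

variable {s k e : ℕ}

theorem exists_arc {E : Fin e → Fin s × Fin k × Fin k} {u v : Fin k} (h : (und E).Adj u v) :
    ∃ (w : Fin e) (o : Bool), fstEnd E o w = u ∧ sndEnd E o w = v := by
  unfold und at h
  rw [SimpleGraph.fromRel_adj] at h
  rcases h.2 with ⟨w, hw⟩ | ⟨w, hw⟩
  · refine ⟨w, false, ?_, ?_⟩
    · simp [fstEnd, hw]
    · simp [sndEnd, hw]
  · refine ⟨w, true, ?_, ?_⟩
    · simp [fstEnd, hw]
    · simp [sndEnd, hw]

theorem ends_subset (E : Fin e → Fin s × Fin k × Fin k) (w : Fin e) (o o' : Bool) :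
    s(fstEnd E o w, sndEnd E o w) = s(fstEnd E o' w, sndEnd E o' w) := by
  unfold fstEnd sndEnd
  cases o <;> cases o' <;> simp [Sym2.eq_swap]

/-- the data of a cycle: three arcs and a set of further arcs -/
theorem exists_cycle {E : Fin e → Fin s × Fin k × Fin k} (hE : ¬ IsForest E) :
    ∃ (x y z : Fin e) (o : Fin 3 → Bool) (S : Finset (Fin e)), y ∈ univ.erase x ∧
      z ∈ (univ.erase x).erase y ∧ S ⊆ ((univ.erase x).erase y).erase z ∧
      GoodPos (pos E o x y z S) ∧ Distinct3 ![col E id x, col E id y, col E id z] := by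
  classical
  unfold IsForest at hE
  rw [SimpleGraph.isAcyclic_iff_forall_adj_isBridge] at hE
  push Not at hE
  obtain ⟨a, b, hab, hbr⟩ := hE
  rw [SimpleGraph.isBridge_iff, not_not] at hbr
  set G' := (und E).deleteEdges {s(a, b)} with hG'
  obtain ⟨p, hp⟩ := hbr.symm.exists_isPath
  have hne : a ≠ b := hab.ne
  cases p with
  | nil => exact absurd rfl hne
  | @cons _ w2 _ h1 p1 =>
    cases p1 with
    | nil =>
      -- the edge `b a` was removed
      exfalso
      rw [hG', SimpleGraph.deleteEdges_adj] at h1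
      apply h1.2
      rw [Set.mem_singleton_iff]
      exact Sym2.eq_swap
    | @cons _ w3 _ h2 p2 =>
      rw [SimpleGraph.Walk.cons_isPath_iff] at hp
      obtain ⟨hp1, hb⟩ := hp
      rw [SimpleGraph.Walk.cons_isPath_iff] at hp1
      obtain ⟨hp2, hw2⟩ := hp1
      have hle : ∀ {u v : Fin k}, G'.Adj u v → (und E).Adj u v := by
        intro u v h
        rw [hG', SimpleGraph.deleteEdges_adj] at h
        exact h.1
      have hb2 : b ∉ p2.support := fun h => hb (by
        rw [SimpleGraph.Walk.support_cons]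
        exact List.mem_cons_of_mem _ h)
      have haT : a ∈ p2.support := p2.end_mem_support
      have hw3T : w3 ∈ p2.support := p2.start_mem_support
      have hbw2 : b ≠ w2 := h1.ne
      have haw2 : a ≠ w2 := fun h => hw2 (h ▸ haT)
      have hbw3 : b ≠ w3 := fun h => hb2 (h ▸ hw3T)
      have hw23 : w2 ≠ w3 := h2.ne
      obtain ⟨x, ox, hx0, hx1⟩ := exists_arc hab
      obtain ⟨y, oy, hy0, hy1⟩ := exists_arc (hle h1)
      obtain ⟨z, oz, hz0, hz1⟩ := exists_arc (hle h2)
      have hxy : y ≠ x := by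
        rintro rfl
        have h := ends_subset E y ox oy
        rw [hx0, hx1, hy0, hy1] at h
        rcases Sym2.eq_iff.1 h with ⟨h3, _⟩ | ⟨h3, _⟩
        · exact hne h3
        · exact haw2 h3
      have hzx : z ≠ x := by
        rintro rfl
        have h := ends_subset E z ox oz
        rw [hx0, hx1, hz0, hz1] at h
        rcases Sym2.eq_iff.1 h with ⟨h3, _⟩ | ⟨h3, h4⟩
        · exact haw2 h3
        · exact hbw2 h4
      have hzy : z ≠ y := by
        rintro rfl
        have h := ends_subset E z oy oz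
        rw [hy0, hy1, hz0, hz1] at h
        rcases Sym2.eq_iff.1 h with ⟨h3, _⟩ | ⟨h3, _⟩
        · exact hbw2 h3
        · exact hbw3 h3
      set S : Finset (Fin e) := (((univ.erase x).erase y).erase z).filter
        fun w => (E w).2.1 ∈ p2.support ∧ (E w).2.2 ∈ p2.support with hS
      refine ⟨x, y, z, ![ox, oy, oz], S, mem_erase.2 ⟨hxy, mem_univ y⟩,
        mem_erase.2 ⟨hzy, mem_erase.2 ⟨hzx, mem_univ z⟩⟩, filter_subset _ _, ?_, ?_⟩
      · -- the classes
        have e0 : pos E ![ox, oy, oz] x y z S 0 = Quot.mk _ a := congrArg _ hx0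
        have e1 : pos E ![ox, oy, oz] x y z S 1 = Quot.mk _ b := congrArg _ hx1
        have e2 : pos E ![ox, oy, oz] x y z S 2 = Quot.mk _ b := congrArg _ hy0
        have e3 : pos E ![ox, oy, oz] x y z S 3 = Quot.mk _ w2 := congrArg _ hy1
        have e4 : pos E ![ox, oy, oz] x y z S 4 = Quot.mk _ w2 := congrArg _ hz0
        have e5 : pos E ![ox, oy, oz] x y z S 5 = Quot.mk _ w3 := congrArg _ hz1
        have hconn : ∀ {u v : Fin k} (r : G'.Walk u v), (∀ t ∈ r.support, t ∈ p2.support) →
            (Quot.mk (rel E S) u) = Quot.mk (rel E S) v := by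
          intro u v r
          induction r with
          | nil => intro _; rfl
          | @cons u' v' _ hadj r ih =>
            intro hsup
            rw [SimpleGraph.Walk.support_cons] at hsup
            have hu : u' ∈ p2.support := hsup u' List.mem_cons_self
            have hv : v' ∈ p2.support :=
              hsup v' (List.mem_cons_of_mem _ r.start_mem_support)
            rw [← ih fun t ht => hsup t (List.mem_cons_of_mem _ ht)]
            obtain ⟨w, ow, hw0, hw1⟩ := exists_arc (hle hadj)
            have hwS : w ∈ S := by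
              rw [hS, mem_filter]
              refine ⟨mem_erase.2 ⟨?_, mem_erase.2 ⟨?_, mem_erase.2 ⟨?_, mem_univ w⟩⟩⟩, ?_⟩
              · rintro rfl
                have h := ends_subset E w ow oz
                rw [hw0, hw1, hz0, hz1] at h
                rcases Sym2.eq_iff.1 h with ⟨h3, _⟩ | ⟨_, h3⟩
                · exact hw2 (h3 ▸ hu)
                · exact hw2 (h3 ▸ hv)
              · rintro rfl
                have h := ends_subset E w ow oy
                rw [hw0, hw1, hy0, hy1] at h
                rcases Sym2.eq_iff.1 h with ⟨h3, _⟩ | ⟨_, h3⟩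
                · exact hb2 (h3 ▸ hu)
                · exact hb2 (h3 ▸ hv)
              · rintro rfl
                have h := ends_subset E w ow ox
                rw [hw0, hw1, hx0, hx1] at h
                rcases Sym2.eq_iff.1 h with ⟨_, h3⟩ | ⟨h3, _⟩
                · exact hb2 (h3 ▸ hv)
                · exact hb2 (h3 ▸ hu)
              · unfold fstEnd at hw0
                unfold sndEnd at hw1
                cases ow
                · simp only [Bool.false_eq_true, if_false] at hw0 hw1
                  rw [hw0, hw1]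
                  exact ⟨hu, hv⟩
                · simp only [if_true] at hw0 hw1
                  rw [hw0, hw1]
                  exact ⟨hv, hu⟩
            unfold fstEnd at hw0
            unfold sndEnd at hw1
            cases ow
            · simp only [Bool.false_eq_true, if_false] at hw0 hw1
              exact Quot.sound ⟨w, hwS, Prod.ext hw0 hw1⟩
            · simp only [if_true] at hw0 hw1
              exact (Quot.sound ⟨w, hwS, Prod.ext hw1 hw0⟩).symm
        let F : Quot (rel E S) → Option (Fin k) := Quot.lift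
          (fun v => if v ∈ p2.support then none else some v) (by
            rintro v v' ⟨w, hw, hvv⟩
            rw [hS, mem_filter] at hw
            rw [hvv] at hw
            rw [if_pos hw.2.1, if_pos hw.2.2])
        have Fa : F (Quot.mk _ a) = none := if_pos haT
        have Fb : F (Quot.mk _ b) = some b := if_neg hb2
        have Fw : F (Quot.mk _ w2) = some w2 := if_neg hw2
        refine ⟨?_, ?_, ?_, ?_, ?_, ?_⟩
        · rw [e0, e5]
          exact (hconn p2 fun t ht => ht).symm
        · rw [e1, e2]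
        · rw [e3, e4]
        · rw [e0, e1]
          intro h
          have := congrArg F h
          rw [Fa, Fb] at this
          simp at this
        · rw [e1, e3]
          intro h
          have := congrArg F h
          rw [Fb, Fw] at this
          exact hbw2 (Option.some.inj this)
        · rw [e0, e3]
          intro h
          have := congrArg F h
          rw [Fa, Fw] at this
          simp at this
      · -- different edges
        have c1 : ∀ (o : Bool) (w : Fin e), s((col E id w).2.1, (col E id w).2.2) =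
            s(fstEnd E o w, sndEnd E o w) := by
          intro o w
          rw [← ends_sym2 E id o w, Sym2.map_id, id]
        refine ⟨?_, ?_⟩
        · simp only [Matrix.cons_val_zero, Matrix.cons_val_one]
          rw [c1 oy y, c1 ox x, hx0, hx1, hy0, hy1]
          intro h
          rcases Sym2.eq_iff.1 h with ⟨h3, _⟩ | ⟨_, h3⟩
          · exact hne h3.symm
          · exact haw2 h3.symm
        · simp only [Matrix.cons_val_zero, Matrix.cons_val]
          rw [c1 oz z, c1 ox x, hx0, hx1, hz0, hz1]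
          intro h
          rcases Sym2.eq_iff.1 h with ⟨h3, _⟩ | ⟨h3, _⟩
          · exact haw2 h3.symm
          · exact hbw2 h3.symm

end cycle

end Run7.h128.PI
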