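import Pool.Agent.Run7.h128.PI.Hom
import Pool.Agent.W956.KF.Cost
import Mathlib.Combinatorics.SimpleGraph.Acyclic

set_option autoImplicit false
set_option linter.unusedSectionVars false

/-!
# Circuits of quadratic size for the homomorphism polynomials of forests
-/

namespace Run7.h128.PI

open Finset Pool.Agent.H522R2 Pool.Agent.H522R2.Circuit Pool.Agent.W956.KF

/-! ### A vertex with at most one neighbour -/

theorem exists_leaf {V : Type} [Fintype V] [DecidableEq V] [Nonempty V] {G : SimpleGraph V}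
    (hG : G.IsAcyclic) : ∃ v, ∀ u u', G.Adj v u → G.Adj v u' → u = u' := by
  classical
  let P : ℕ → Prop := fun n => ∃ (v w : V) (p : G.Walk v w), p.IsPath ∧ p.length = n
  obtain ⟨v₀⟩ := ‹Nonempty V›
  have h0 : P 0 := ⟨v₀, v₀, SimpleGraph.Walk.nil, SimpleGraph.Walk.IsPath.nil, rfl⟩
  have hP : P (Nat.findGreatest P (Fintype.card V)) :=
    Nat.findGreatest_spec (P := P) (Nat.zero_le _) h0
  obtain ⟨v, w, p, hp, hlen⟩ := hP
  have key : ∀ u, G.Adj v u → u = p.snd := by
    intro u hu
    apply hG.eq_snd_of_adj_start hp hu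
    by_contra hcon
    have h1 : (SimpleGraph.Walk.cons hu.symm p).IsPath := by
      rw [SimpleGraph.Walk.cons_isPath_iff]
      exact ⟨hp, hcon⟩
    have h2 : P (p.length + 1) := ⟨u, w, _, h1, SimpleGraph.Walk.length_cons _ _⟩
    have h3 : p.length + 1 ≤ Fintype.card V := by
      have := h1.length_lt
      rw [SimpleGraph.Walk.length_cons] at this
      exact this.le
    have h4 := Nat.le_findGreatest h3 h2
    omega
  exact ⟨v, fun u u' h h' => (key u h).trans (key u' h').symm⟩

section sums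

variable {R : Type} [CommRing R]

theorem Cost.prod' {T : Set R} (h1 : (1 : R) ∈ T) {ι : Type} (S : Finset ι) (x : ι → R)
    (hx : ∀ i ∈ S, x i ∈ T) : Cost T {∏ i ∈ S, x i} S.card := by
  classical
  induction S using Finset.induction_on with
  | empty => exact Cost.of_subset (by simpa using h1) _
  | insert a S ha ih =>
    rw [Finset.prod_insert ha, Finset.card_insert_of_notMem ha]
    have h1 := ih fun i hi => hx i (Finset.mem_insert_of_mem hi)
    have h2 : Cost (T ∪ {∏ i ∈ S, x i}) {x a * ∏ i ∈ S, x i} 1 :=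
      Cost.mul (Or.inl (hx a (Finset.mem_insert_self _ _))) (Or.inr rfl)
    exact (h1.comp h2).mono subset_rfl Set.subset_union_right le_rfl

/-- sums of products -/
theorem Cost.sum_prod {T : Set R} (h0 : (0 : R) ∈ T) (h1 : (1 : R) ∈ T) {ι : Type} [Fintype ι]
    {m : ℕ} (w : Fin m → ι → R) (hw : ∀ j x, w j x ∈ T) :
    Cost T {∑ j, ∏ x, w j x} (m * (Fintype.card ι + 1)) := by
  have h2 : Cost T (Set.range fun j => ∏ x, w j x) (Fintype.card (Fin m) * Fintype.card ι) := by
    refine Cost.range fun j => ?_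
    rw [← Finset.card_univ (α := ι)]
    exact Cost.prod' h1 univ _ fun x _ => hw j x
  have h3 : Cost (T ∪ Set.range fun j => ∏ x, w j x) {∑ j, ∏ x, w j x}
      (univ : Finset (Fin m)).card := by
    refine Cost.sum (Set.mem_union_left _ h0) univ (fun j => ∏ x, w j x) fun j _ => ?_
    exact Or.inr ⟨j, rfl⟩
  refine (h2.comp h3).mono subset_rfl Set.subset_union_right (le_of_eq ?_)
  rw [Finset.card_univ, Fintype.card_fin]
  ring

/-- the graph of a family of pairs -/
def gr {V ι : Type} (E : ι → V × V) : SimpleGraph V :=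
  SimpleGraph.fromRel fun u v => ∃ x, E x = (u, v)

/-- a sum over all maps of products of the entries of tables -/
def Zf {V ι : Type} [Fintype V] [DecidableEq V] [Fintype ι] {m : ℕ} (E : ι → V × V)
    (w : ι → Fin m → Fin m → R) : R :=
  ∑ φ : V → Fin m, ∏ x, w x (φ (E x).1) (φ (E x).2)

/-- the new family of pairs after the removal of `v` -/
def Enew {V ι : Type} (E : ι → V × V) (v u : V) (hu : u ≠ v) :
    Option {x // ¬ ((E x).1 = v ∨ (E x).2 = v)} → {t // t ≠ v} × {t // t ≠ v}
  | none => (⟨u, hu⟩, ⟨u, hu⟩)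
  | some x => (⟨(E x.1).1, fun h => x.2 (Or.inl h)⟩, ⟨(E x.1).2, fun h => x.2 (Or.inr h)⟩)

/-- the new tables -/
def wnew {V ι : Type} [DecidableEq V] [Fintype ι] {m : ℕ} (E : ι → V × V)
    (w : ι → Fin m → Fin m → R) (v : V) :
    Option {x // ¬ ((E x).1 = v ∨ (E x).2 = v)} → Fin m → Fin m → R
  | none => fun i _ => ∑ j, ∏ x : {x // (E x).1 = v ∨ (E x).2 = v},
      w x.1 (if (E x.1).1 = v then j else i) (if (E x.1).2 = v then j else i)
  | some x => w x.1

theorem gr_new {V ι : Type} {E : ι → V × V} (hE : (gr E).IsAcyclic) {v u : V} (hu : u ≠ v) :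
    (gr (Enew E v u hu)).IsAcyclic := by
  refine SimpleGraph.IsAcyclic.comap (G' := gr E) ⟨Subtype.val, ?_⟩ Subtype.val_injective hE
  intro a b hab
  unfold gr at hab ⊢
  rw [SimpleGraph.fromRel_adj] at hab ⊢
  refine ⟨fun e => hab.1 (Subtype.ext e), ?_⟩
  have key : ∀ a b : {t // t ≠ v}, a ≠ b → (∃ x, Enew E v u hu x = (a, b)) →
      ∃ x, E x = (a.1, b.1) := by
    rintro a b hne ⟨x, hx⟩
    cases x with
    | none =>
      exfalso
      unfold Enew at hx
      rw [Prod.mk.injEq] at hx
      exact hne (hx.1.symm.trans hx.2)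
    | some x =>
      refine ⟨x.1, ?_⟩
      unfold Enew at hx
      rw [Prod.mk.injEq] at hx
      rw [← hx.1, ← hx.2]
  rcases hab.2 with h | h
  · exact Or.inl (key a b hab.1 h)
  · exact Or.inr (key b a (Ne.symm hab.1) h)

theorem Zf_new {V ι : Type} [Fintype V] [DecidableEq V] [Fintype ι] {m : ℕ} {E : ι → V × V}
    (w : ι → Fin m → Fin m → R) {v u : V} (hu : u ≠ v) (h : ∀ t, (gr E).Adj v t → t = u) :
    Zf E w = Zf (Enew E v u hu) (wnew E w v) := by
  unfold Zf
  rw [← Equiv.sum_comp (Equiv.funSplitAt v (Fin m)).symm, Fintype.sum_prod_type, sum_comm]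
  refine sum_congr rfl fun ψ _ => ?_
  rw [Fintype.prod_option]
  have e1 : wnew E w v none (ψ (Enew E v u hu none).1) (ψ (Enew E v u hu none).2) =
      ∑ j, ∏ x : {x // (E x).1 = v ∨ (E x).2 = v},
      w x.1 (if (E x.1).1 = v then j else ψ ⟨u, hu⟩) (if (E x.1).2 = v then j else ψ ⟨u, hu⟩) := rfl
  rw [e1, sum_mul]
  refine sum_congr rfl fun j _ => ?_
  rw [← Fintype.prod_subtype_mul_prod_subtype (fun x => (E x).1 = v ∨ (E x).2 = v)]
  have hv : (Equiv.funSplitAt v (Fin m)).symm (j, ψ) v = j := by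
    simp [Equiv.funSplitAt]
  have ht : ∀ (t : V) (htv : t ≠ v), (Equiv.funSplitAt v (Fin m)).symm (j, ψ) t =
      ψ ⟨t, htv⟩ := by
    intro t htv
    simp [Equiv.funSplitAt, htv]
  congr 1
  · refine prod_congr rfl fun x _ => ?_
    obtain ⟨x, hx⟩ := x
    have h1 : (E x).1 ≠ v → (E x).1 = u := by
      intro hne
      have h2 : (E x).2 = v := hx.resolve_left hne
      apply h
      unfold gr
      rw [SimpleGraph.fromRel_adj]
      exact ⟨hne.symm, Or.inr ⟨x, Prod.ext rfl h2⟩⟩
    have h2 : (E x).2 ≠ v → (E x).2 = u := by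
      intro hne
      have h2 : (E x).1 = v := hx.resolve_right hne
      apply h
      unfold gr
      rw [SimpleGraph.fromRel_adj]
      exact ⟨hne.symm, Or.inl ⟨x, Prod.ext h2 rfl⟩⟩
    have e2 : (Equiv.funSplitAt v (Fin m)).symm (j, ψ) (E x).1 =
        if (E x).1 = v then j else ψ ⟨u, hu⟩ := by
      by_cases hc : (E x).1 = v
      · rw [if_pos hc, hc, hv]
      · rw [if_neg hc, ht _ hc]
        congr 1
        exact Subtype.ext (h1 hc)
    have e3 : (Equiv.funSplitAt v (Fin m)).symm (j, ψ) (E x).2 =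
        if (E x).2 = v then j else ψ ⟨u, hu⟩ := by
      by_cases hc : (E x).2 = v
      · rw [if_pos hc, hc, hv]
      · rw [if_neg hc, ht _ hc]
        congr 1
        exact Subtype.ext (h2 hc)
    show w x _ _ = _
    rw [e2, e3]
  · refine prod_congr rfl fun x _ => ?_
    obtain ⟨x, hx⟩ := x
    push Not at hx
    show w x _ _ = _
    rw [ht _ hx.1, ht _ hx.2]
    rfl

theorem cost_Zf {m : ℕ} (hm : 1 ≤ m) (N : ℕ) : ∀ (V ι : Type) [Fintype V] [DecidableEq V]
    [Fintype ι] (E : ι → V × V) (w : ι → Fin m → Fin m → R) (T : Set R), Fintype.card V = N →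
      (gr E).IsAcyclic → (0 : R) ∈ T → (1 : R) ∈ T → (∀ x i j, w x i j ∈ T) →
      Cost T {Zf E w} (N * (Fintype.card ι + N + 1) * m ^ 2) := by
  classical
  induction N with
  | zero =>
    intro V ι _ _ _ E w T hN _ h0 h1 _
    have hV : IsEmpty V := Fintype.card_eq_zero_iff.1 hN
    have hι : IsEmpty ι := ⟨fun x => hV.elim (E x).1⟩
    refine Cost.of_subset ?_ _
    rintro _ rfl
    unfold Zf
    rw [Fintype.sum_unique, Fintype.prod_empty]
    exact h1
  | succ N ih =>
    intro V ι _ _ _ E w T hN hE h0 h1 hw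
    have : Nonempty V := Fintype.card_pos_iff.1 (by omega)
    obtain ⟨v, hv⟩ := exists_leaf hE
    rcases Nat.eq_zero_or_pos N with h | h
    · -- one vertex
      subst h
      have hsub : Subsingleton V := Fintype.card_le_one_iff_subsingleton.1 (by omega)
      have hall : ∀ t : V, t = v := fun t => Subsingleton.elim _ _
      have : Unique V := ⟨⟨v⟩, hall⟩
      have e1 : Zf E w = ∑ j, ∏ x, w x j j := by
        unfold Zf
        rw [← Equiv.sum_comp (Equiv.funUnique V (Fin m)).symm]
        rfl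
      rw [e1]
      refine (Cost.sum_prod h0 h1 (fun j x => w x j j) fun j x => hw x j j).mono subset_rfl
        subset_rfl ?_
      have : m ≤ m ^ 2 := by nlinarith
      calc m * (Fintype.card ι + 1) ≤ m ^ 2 * (Fintype.card ι + 1) := Nat.mul_le_mul_right _ this
        _ ≤ (0 + 1) * (Fintype.card ι + (0 + 1) + 1) * m ^ 2 := by
          rw [mul_comm]
          exact Nat.mul_le_mul_right _ (by omega)
    · -- choose the other vertex
      obtain ⟨u, hu, hadj⟩ : ∃ u, u ≠ v ∧ ∀ t, (gr E).Adj v t → t = u := by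
        by_cases hex : ∃ u, (gr E).Adj v u
        · obtain ⟨u, hu⟩ := hex
          exact ⟨u, hu.ne.symm, fun t ht => hv t u ht hu⟩
        · have h2 : 1 < Fintype.card V := by omega
          obtain ⟨u, hu⟩ := Fintype.exists_ne_of_one_lt_card h2 v
          exact ⟨u, hu, fun t ht => absurd ⟨t, ht⟩ hex⟩
      rw [Zf_new w hu hadj]
      have hcardV : Fintype.card {t // t ≠ v} = N := by
        rw [Fintype.card_subtype_compl, Fintype.card_subtype_eq, hN]
        rfl
      have hι1 : Fintype.card {x // (E x).1 = v ∨ (E x).2 = v} ≤ Fintype.card ι :=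
        Fintype.card_subtype_le _
      have hι2 : Fintype.card {x // ¬ ((E x).1 = v ∨ (E x).2 = v)} ≤ Fintype.card ι :=
        Fintype.card_subtype_le _
      set W : Fin m → R := fun i => ∑ j, ∏ x : {x // (E x).1 = v ∨ (E x).2 = v},
        w x.1 (if (E x.1).1 = v then j else i) (if (E x.1).2 = v then j else i) with hW
      have hcost : Cost T (Set.range W)
          (Fintype.card (Fin m) * (m * (Fintype.card ι + 1))) := by
        refine Cost.range fun i => ?_
        refine (Cost.sum_prod h0 h1 (fun j (x : {x // (E x).1 = v ∨ (E x).2 = v}) =>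
          w x.1 (if (E x.1).1 = v then j else i) (if (E x.1).2 = v then j else i))
          fun j x => hw _ _ _).mono subset_rfl subset_rfl ?_
        exact Nat.mul_le_mul_left _ (by omega)
      have h2 := ih {t // t ≠ v} (Option {x // ¬ ((E x).1 = v ∨ (E x).2 = v)})
        (Enew E v u hu) (wnew E w v) (T ∪ Set.range W) hcardV (gr_new hE hu)
        (Or.inl h0) (Or.inl h1) (by
          intro x i j
          cases x with
          | none => exact Or.inr ⟨i, rfl⟩
          | some x => exact Or.inl (hw _ _ _))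
      refine (hcost.comp h2).mono subset_rfl Set.subset_union_right ?_
      rw [Fintype.card_option, Fintype.card_fin]
      have h3 : N * (Fintype.card {x // ¬ ((E x).1 = v ∨ (E x).2 = v)} + 1 + N + 1) * m ^ 2 ≤
          N * (Fintype.card ι + N + 2) * m ^ 2 :=
        Nat.mul_le_mul_right _ (Nat.mul_le_mul_left _ (by omega))
      calc m * (m * (Fintype.card ι + 1)) +
            N * (Fintype.card {x // ¬ ((E x).1 = v ∨ (E x).2 = v)} + 1 + N + 1) * m ^ 2
          ≤ m * (m * (Fintype.card ι + 1)) + N * (Fintype.card ι + N + 2) * m ^ 2 :=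
            Nat.add_le_add_left h3 _
        _ = ((Fintype.card ι + 1) + N * (Fintype.card ι + N + 2)) * m ^ 2 := by ring
        _ ≤ (N + 1) * (Fintype.card ι + (N + 1) + 1) * m ^ 2 := by
            apply Nat.mul_le_mul_right
            nlinarith

end sums

section upper

variable {K : Type} [Field K] {s : ℕ}

theorem cost_homPoly {k e m : ℕ} (hm : 1 ≤ m) {E : Fin e → Fin s × Fin k × Fin k}
    (hE : IsForest E) : Cost (inputs K (Fin s × Fin m × Fin m)) {homPoly K m E}
      (k * (e + k + 1) * m ^ 2) := by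
  have h := cost_Zf (R := MvPolynomial (Fin s × Fin m × Fin m) K) hm k (Fin k) (Fin e)
    (fun x => (E x).2) (fun x i j => MvPolynomial.X ((E x).1, i, j))
    (inputs K (Fin s × Fin m × Fin m)) (Fintype.card_fin k) hE
    (Or.inr ⟨0, by simp⟩) (Or.inr ⟨1, by simp⟩) (fun x i j => Or.inl ⟨_, rfl⟩)
  rw [Fintype.card_fin] at h
  exact h

/-- the multigraphs with at most `d` arcs and `2 d` vertices -/
abbrev Idx (s d : ℕ) : Type :=
  Σ (k : Fin (2 * d + 1)) (e : Fin (d + 1)), (Fin (e : ℕ) → Fin s × Fin (k : ℕ) × Fin (k : ℕ))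

theorem vertices_le' {k e : ℕ} {E : Fin e → Fin s × Fin k × Fin k} (hE : NoIso E) :
    k ≤ 2 * e := by
  have h : Function.Surjective (fun p : Fin e × Bool => if p.2 then (E p.1).2.1 else
      (E p.1).2.2) := by
    intro v
    obtain ⟨x, hx⟩ := hE v
    rcases hx with hx | hx
    · exact ⟨(x, true), by simpa using hx⟩
    · exact ⟨(x, false), by simpa using hx⟩
  have := Fintype.card_le_of_surjective _ h
  rw [Fintype.card_prod, Fintype.card_fin, Fintype.card_fin, Fintype.card_bool] at this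
  omega

open Classical in
/-- **The upper bound.** -/
theorem forest_upper (s d : ℕ) : ∃ c : ℕ, ∀ (m : ℕ) (f : MvPolynomial (Fin s × Fin m × Fin m) K),
    f ∈ ForestSpan K s d m → ∃ (C : Circuit K (Fin s × Fin m × Fin m)) (v : Fin C.nodes),
      C.poly v = f ∧ C.size ≤ c * m ^ 2 := by
  let Γ := {γ : Idx s d // IsForest γ.2.2}
  refine ⟨Fintype.card Γ * (2 * d * (d + 2 * d + 1)) + 2 * Fintype.card Γ, fun m f hf => ?_⟩
  have hcost : Cost (inputs K (Fin s × Fin m × Fin m)) {f}
      ((Fintype.card Γ * (2 * d * (d + 2 * d + 1)) + 2 * Fintype.card Γ) * m ^ 2) := by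
    rcases Nat.eq_zero_or_pos m with hm | hm
    · subst hm
      refine Cost.of_subset ?_ _
      rintro _ rfl
      exact Or.inr ⟨_, (MvPolynomial.eq_C_of_isEmpty _).symm⟩
    · have h1 : f ∈ Submodule.span K (Set.range fun γ : Γ => homPoly K m γ.1.2.2) := by
        refine (Submodule.span_mono ?_) hf
        rintro p ⟨k, e, E, he, hno, hfor, rfl⟩
        have hk := vertices_le' hno
        exact ⟨⟨⟨⟨k, by omega⟩, ⟨e, by omega⟩, E⟩, hfor⟩, rfl⟩
      rw [Submodule.mem_span_range_iff_exists_fun] at h1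
      obtain ⟨c, hc⟩ := h1
      have h2 : Cost (inputs K (Fin s × Fin m × Fin m))
          (Set.range fun γ : Γ => homPoly K m γ.1.2.2)
          (Fintype.card Γ * (2 * d * (d + 2 * d + 1) * m ^ 2)) := by
        refine Cost.range fun γ => ?_
        refine (cost_homPoly hm γ.2).mono subset_rfl subset_rfl ?_
        apply Nat.mul_le_mul_right
        have hk : (γ.1.1 : ℕ) ≤ 2 * d := by have := γ.1.1.2; omega
        have he : (γ.1.2.1 : ℕ) ≤ d := by have := γ.1.2.1.2; omega
        exact Nat.mul_le_mul hk (by omega)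
      have h3 : Cost (inputs K (Fin s × Fin m × Fin m) ∪
          Set.range fun γ : Γ => homPoly K m γ.1.2.2)
          {∑ γ : Γ, MvPolynomial.C (c γ) * homPoly K m γ.1.2.2} (2 * Fintype.card Γ) := by
        have h0 : (0 : MvPolynomial (Fin s × Fin m × Fin m) K) ∈
            inputs K (Fin s × Fin m × Fin m) ∪
              Set.range (fun γ : Γ => homPoly K m γ.1.2.2) := Or.inl (Or.inr ⟨0, by simp⟩)
        exact Cost.sum_mul h0 (fun γ : Γ => MvPolynomial.C (c γ))
          (fun γ : Γ => homPoly K m γ.1.2.2) (fun γ => Or.inl (Or.inr ⟨_, rfl⟩))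
          fun γ => Or.inr ⟨γ, rfl⟩
      refine (h2.comp h3).mono subset_rfl ?_ ?_
      · rintro _ rfl
        right
        rw [Set.mem_singleton_iff, ← hc]
        exact sum_congr rfl fun γ _ => MvPolynomial.smul_eq_C_mul _ _
      · have h4 : 1 ≤ m ^ 2 := Nat.one_le_pow _ _ hm
        have h5 : 2 * Fintype.card Γ ≤ 2 * Fintype.card Γ * m ^ 2 := Nat.le_mul_of_pos_right _ h4
        calc Fintype.card Γ * (2 * d * (d + 2 * d + 1) * m ^ 2) + 2 * Fintype.card Γ
            ≤ Fintype.card Γ * (2 * d * (d + 2 * d + 1) * m ^ 2) +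
              2 * Fintype.card Γ * m ^ 2 := Nat.add_le_add_left h5 _
          _ = _ := by ring
  obtain ⟨C, h1, h2⟩ := exists_circuit_of_cost (Set.finite_singleton _) hcost
  obtain ⟨v, hv⟩ := h2 _ rfl
  exact ⟨C, v, hv, h1⟩

end upper

end Run7.h128.PI
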