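import Pool.Agent.W956.KF.Cost
import Mathlib.Algebra.MvPolynomial.PDeriv

set_option autoImplicit false
set_option linter.unusedSectionVars false

/-!
# All first derivatives of a polynomial computed by a circuit
-/

namespace Run7.h128.PI

open Finset MvPolynomial Pool.Agent.H522R2 Pool.Agent.H522R2.Circuit Pool.Agent.W956.KF

section

variable {K V : Type} [Field K] [Fintype V] [DecidableEq V]

/-- the slot of a node -/
def key (C : Circuit K V) (i : Fin C.nodes) : Fin C.nodes ⊕ V :=
  match C.gate i with
  | .var w => Sum.inr w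
  | _ => Sum.inl i

/-- the value of a derivation, given by the slots `< t` -/
noncomputable def pair (C : Circuit K V) (t : ℕ) (b : Fin C.nodes ⊕ V → MvPolynomial V K)
    (D : Derivation K (MvPolynomial V K) (MvPolynomial V K)) : MvPolynomial V K :=
  (∑ i : Fin C.nodes, if (i : ℕ) < t then b (Sum.inl i) * D (C.poly i) else 0) +
    ∑ w, b (Sum.inr w) * D (X w)

theorem pair_add (C : Circuit K V) (t : ℕ) (b b' : Fin C.nodes ⊕ V → MvPolynomial V K)
    (D : Derivation K (MvPolynomial V K) (MvPolynomial V K)) :
    pair C t (b + b') D = pair C t b D + pair C t b' D := by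
  unfold pair
  have h1 : ∀ i : Fin C.nodes, (if (i : ℕ) < t then (b + b') (Sum.inl i) * D (C.poly i) else 0) =
      (if (i : ℕ) < t then b (Sum.inl i) * D (C.poly i) else 0) +
        (if (i : ℕ) < t then b' (Sum.inl i) * D (C.poly i) else 0) := by
    intro i
    split_ifs
    · rw [Pi.add_apply, add_mul]
    · rw [add_zero]
  have h2 : ∀ w : V, (b + b') (Sum.inr w) * D (X w) =
      b (Sum.inr w) * D (X w) + b' (Sum.inr w) * D (X w) := by
    intro w
    rw [Pi.add_apply, add_mul]
  rw [sum_congr rfl fun i _ => h1 i, sum_congr rfl fun w _ => h2 w, sum_add_distrib,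
    sum_add_distrib]
  ring

theorem pair_single (C : Circuit K V) (t : ℕ) (i : Fin C.nodes) (hi : (i : ℕ) < t)
    (c : MvPolynomial V K) (D : Derivation K (MvPolynomial V K) (MvPolynomial V K)) :
    pair C t (Pi.single (key C i) c) D = c * D (C.poly i) := by
  unfold pair
  have hgen : ∀ j : Fin C.nodes, (j : ℕ) < t → ∑ i : Fin C.nodes,
      (if (i : ℕ) < t then (Pi.single (Sum.inl j) c : Fin C.nodes ⊕ V → MvPolynomial V K)
        (Sum.inl i) * D (C.poly i) else 0) = c * D (C.poly j) := by
    intro j hj
    rw [Finset.sum_eq_single j]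
    · rw [if_pos hj, Pi.single_eq_same]
    · intro i' _ hne
      rw [Pi.single_eq_of_ne (fun h => hne (Sum.inl.inj h)), zero_mul]
      split_ifs <;> rfl
    · intro h
      exact absurd (mem_univ _) h
  have hnon : ∀ j : Fin C.nodes, ∑ w, (Pi.single (Sum.inl j) c : Fin C.nodes ⊕ V →
      MvPolynomial V K) (Sum.inr w) * D (X w) = 0 := by
    intro j
    refine sum_eq_zero fun w _ => ?_
    rw [Pi.single_eq_of_ne (by simp), zero_mul]
  cases hg : C.gate i with
  | var w =>
    have hk : key C i = Sum.inr w := by
      unfold key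
      rw [hg]
    have hp : C.poly i = X w := by
      rw [Circuit.poly, hg]
    rw [hk, hp]
    have h1 : ∑ i : Fin C.nodes, (if (i : ℕ) < t then
        (Pi.single (Sum.inr w) c : Fin C.nodes ⊕ V → MvPolynomial V K) (Sum.inl i) *
          D (C.poly i) else 0) = 0 := by
      refine sum_eq_zero fun i' _ => ?_
      rw [Pi.single_eq_of_ne (by simp), zero_mul]
      split_ifs <;> rfl
    rw [h1, zero_add, Finset.sum_eq_single w]
    · rw [Pi.single_eq_same]
    · intro w' _ hne
      rw [Pi.single_eq_of_ne (fun h => hne (Sum.inr.inj h)), zero_mul]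
    · intro h
      exact absurd (mem_univ _) h
  | const a =>
    have hk : key C i = Sum.inl i := by
      unfold key
      rw [hg]
    rw [hk, hgen i hi, hnon, add_zero]
  | add a b =>
    have hk : key C i = Sum.inl i := by
      unfold key
      rw [hg]
    rw [hk, hgen i hi, hnon, add_zero]
  | mul a b =>
    have hk : key C i = Sum.inl i := by
      unfold key
      rw [hg]
    rw [hk, hgen i hi, hnon, add_zero]

/-- removal of the last node -/
theorem pair_succ (C : Circuit K V) (k : Fin C.nodes) (b : Fin C.nodes ⊕ V → MvPolynomial V K)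
    (D : Derivation K (MvPolynomial V K) (MvPolynomial V K)) :
    pair C (k + 1) b D = pair C k b D + b (Sum.inl k) * D (C.poly k) := by
  unfold pair
  have h1 : ∑ i : Fin C.nodes, (if (i : ℕ) < k + 1 then b (Sum.inl i) * D (C.poly i) else 0) =
      (∑ i : Fin C.nodes, (if (i : ℕ) < k then b (Sum.inl i) * D (C.poly i) else 0)) +
        b (Sum.inl k) * D (C.poly k) := by
    rw [← Finset.add_sum_erase univ _ (mem_univ k), ← Finset.add_sum_erase univ
      (fun i : Fin C.nodes => if (i : ℕ) < k then b (Sum.inl i) * D (C.poly i) else 0)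
      (mem_univ k), if_pos (Nat.lt_succ_self _), if_neg (lt_irrefl _), zero_add, add_comm]
    congr 1
    refine sum_congr rfl fun i hi => ?_
    have hne : (i : ℕ) ≠ k := fun h => (mem_erase.1 hi).1 (Fin.ext h)
    by_cases h : (i : ℕ) < k
    · rw [if_pos h, if_pos (by omega)]
    · rw [if_neg h, if_neg (by omega)]
  rw [h1]
  ring

/-- the number of operations at the nodes `≥ t` -/
noncomputable def ops (C : Circuit K V) (t : ℕ) : ℕ :=
  Nat.card {k : Fin C.nodes // t ≤ (k : ℕ) ∧
    ((∃ i j, C.gate k = Gate.add i j) ∨ ∃ i j, C.gate k = Gate.mul i j)}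

theorem ops_zero (C : Circuit K V) : ops C 0 = C.size := by
  unfold ops Circuit.size
  refine Nat.card_congr (Equiv.subtypeEquivRight fun k => ?_)
  simp

theorem ops_succ (C : Circuit K V) (k : Fin C.nodes)
    (hk : (∃ i j, C.gate k = Gate.add i j) ∨ ∃ i j, C.gate k = Gate.mul i j) :
    ops C k = ops C (k + 1) + 1 := by
  classical
  unfold ops
  rw [Nat.card_eq_fintype_card, Nat.card_eq_fintype_card, Fintype.card_subtype,
    Fintype.card_subtype]
  have h : (univ.filter fun x : Fin C.nodes => (k : ℕ) ≤ x ∧
      ((∃ i j, C.gate x = Gate.add i j) ∨ ∃ i j, C.gate x = Gate.mul i j)) =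
      insert k (univ.filter fun x : Fin C.nodes => (k : ℕ) + 1 ≤ x ∧
      ((∃ i j, C.gate x = Gate.add i j) ∨ ∃ i j, C.gate x = Gate.mul i j)) := by
    ext x
    simp only [mem_filter, mem_univ, true_and, mem_insert]
    constructor
    · rintro ⟨h1, h2⟩
      rcases Nat.eq_or_lt_of_le h1 with h3 | h3
      · exact Or.inl (Fin.ext h3.symm)
      · exact Or.inr ⟨h3, h2⟩
    · rintro (rfl | ⟨h1, h2⟩)
      · exact ⟨le_rfl, hk⟩
      · exact ⟨by omega, h2⟩
  rw [h, card_insert_of_notMem]
  simp

theorem ops_mono (C : Circuit K V) (t : ℕ) : ops C (t + 1) ≤ ops C t := by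
  unfold ops
  have : Finite {k : Fin C.nodes // t ≤ (k : ℕ) ∧
    ((∃ i j, C.gate k = Gate.add i j) ∨ ∃ i j, C.gate k = Gate.mul i j)} := inferInstance
  exact Nat.card_le_card_of_injective (fun x => ⟨x.1, by have := x.2.1; omega, x.2.2⟩)
    fun x y h => Subtype.ext (congrArg (fun t => t.1) h)

/-- one update of the coefficients -/
theorem cost_update {T : Set (MvPolynomial V K)} {I : Type} [DecidableEq I]
    {b : I → MvPolynomial V K} {n : ℕ} (hb : Cost T (Set.range b) n) (i : I)
    (c : MvPolynomial V K) (hc : c ∈ Set.range b) :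
    Cost T (Set.range (b + Pi.single i c)) (n + 1) := by
  have h1 : Cost (T ∪ Set.range b) {b i + c} 1 := Cost.add (Or.inr ⟨i, rfl⟩) (Or.inr hc)
  refine (hb.comp h1).mono subset_rfl ?_ le_rfl
  rintro _ ⟨j, rfl⟩
  by_cases h : j = i
  · subst h
    right
    rw [Pi.add_apply, Pi.single_eq_same]
    rfl
  · left
    rw [Pi.add_apply, Pi.single_eq_of_ne h, add_zero]
    exact ⟨j, rfl⟩

/-- one update of the coefficients by a product -/
theorem cost_update_mul {T : Set (MvPolynomial V K)} {I : Type} [DecidableEq I]
    {b : I → MvPolynomial V K} {n : ℕ} (hb : Cost T (Set.range b) n) (i j : I)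
    (p : MvPolynomial V K) (hp : p ∈ T) :
    Cost T (Set.range (b + Pi.single i (b j * p))) (n + 2) := by
  have h1 : Cost (T ∪ Set.range b) {b j * p} 1 := Cost.mul (Or.inr ⟨j, rfl⟩) (Or.inl hp)
  have h2 : Cost ((T ∪ Set.range b) ∪ {b j * p}) {b i + b j * p} 1 :=
    Cost.add (Or.inl (Or.inr ⟨i, rfl⟩)) (Or.inr rfl)
  have h3 := h1.comp h2
  refine (hb.comp h3).mono subset_rfl ?_ (by omega)
  rintro _ ⟨j', rfl⟩
  by_cases h : j' = i
  · subst h
    right
    right
    rw [Pi.add_apply, Pi.single_eq_same]
    rfl
  · left
    rw [Pi.add_apply, Pi.single_eq_of_ne h, add_zero]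
    exact ⟨j', rfl⟩

theorem zero_mem_inputs : (0 : MvPolynomial V K) ∈ inputs K V := Or.inr ⟨0, by simp⟩

theorem one_mem_inputs : (1 : MvPolynomial V K) ∈ inputs K V := Or.inr ⟨1, by simp⟩

/-- the coefficients of a derivation -/
theorem exists_coeffs (C : Circuit K V) (v : Fin C.nodes) (n : ℕ) : ∀ t, t + n = C.nodes →
    ∃ b : Fin C.nodes ⊕ V → MvPolynomial V K,
      (∀ D : Derivation K (MvPolynomial V K) (MvPolynomial V K),
        D (C.poly v) = pair C t b D) ∧
      (∀ k : Fin C.nodes, (∃ w, C.gate k = Gate.var w) → b (Sum.inl k) = 0) ∧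
      Cost (inputs K V ∪ Set.range C.poly) (Set.range b) (4 * ops C t) := by
  induction n with
  | zero =>
    intro t ht
    refine ⟨Pi.single (key C v) 1, fun D => ?_, ?_, ?_⟩
    · have := v.2
      rw [pair_single C t v (by omega), one_mul]
    · rintro k ⟨w, hw⟩
      apply Pi.single_eq_of_ne
      intro h
      unfold key at h
      cases hg : C.gate v with
      | var w' =>
        rw [hg] at h
        simp at h
      | const a =>
        rw [hg] at h
        simp only [Sum.inl.injEq] at h
        subst h
        rw [hg] at hw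
        cases hw
      | add a b =>
        rw [hg] at h
        simp only [Sum.inl.injEq] at h
        subst h
        rw [hg] at hw
        cases hw
      | mul a b =>
        rw [hg] at h
        simp only [Sum.inl.injEq] at h
        subst h
        rw [hg] at hw
        cases hw
    · refine Cost.of_subset ?_ _
      rintro _ ⟨x, rfl⟩
      left
      by_cases h : x = key C v
      · subst h
        rw [Pi.single_eq_same]
        exact one_mem_inputs
      · rw [Pi.single_eq_of_ne h]
        exact zero_mem_inputs
  | succ n ih =>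
    intro t ht
    obtain ⟨b, h1, h2, h3⟩ := ih (t + 1) (by omega)
    have htn : t < C.nodes := by omega
    set k : Fin C.nodes := ⟨t, htn⟩ with hk
    have hsucc : ∀ D : Derivation K (MvPolynomial V K) (MvPolynomial V K),
        D (C.poly v) = pair C t b D + b (Sum.inl k) * D (C.poly k) := by
      intro D
      rw [h1 D]
      exact pair_succ C k b D
    have hkey : ∀ (i k' : Fin C.nodes), (∃ w, C.gate k' = Gate.var w) →
        (Sum.inl k' : Fin C.nodes ⊕ V) ≠ key C i := by
      rintro i k' ⟨w, hw⟩ h
      unfold key at h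
      cases hg : C.gate i with
      | var w' =>
        rw [hg] at h
        simp at h
      | const a =>
        rw [hg] at h
        simp only [Sum.inl.injEq] at h
        subst h
        rw [hg] at hw
        cases hw
      | add a b =>
        rw [hg] at h
        simp only [Sum.inl.injEq] at h
        subst h
        rw [hg] at hw
        cases hw
      | mul a b =>
        rw [hg] at h
        simp only [Sum.inl.injEq] at h
        subst h
        rw [hg] at hw
        cases hw
    cases hg : C.gate k with
    | var w =>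
      refine ⟨b, fun D => ?_, h2, h3.mono subset_rfl subset_rfl
        (Nat.mul_le_mul_left _ (ops_mono C t))⟩
      rw [hsucc D, h2 k ⟨w, hg⟩, zero_mul, add_zero]
    | const a =>
      refine ⟨b, fun D => ?_, h2, h3.mono subset_rfl subset_rfl
        (Nat.mul_le_mul_left _ (ops_mono C t))⟩
      have hp : C.poly k = MvPolynomial.C a := by
        rw [Circuit.poly, hg]
      rw [hsucc D, hp, ← algebraMap_eq, Derivation.map_algebraMap, mul_zero, add_zero]
    | add i j =>
      have hp : C.poly k = C.poly (C.up k i) + C.poly (C.up k j) := by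
        rw [Circuit.poly, hg]
      have hops := ops_succ C k (Or.inl ⟨i, j, hg⟩)
      have hops' : ops C t = ops C (t + 1) + 1 := hops
      refine ⟨b + Pi.single (key C (C.up k i)) (b (Sum.inl k)) +
        Pi.single (key C (C.up k j)) (b (Sum.inl k)), fun D => ?_, ?_, ?_⟩
      · rw [hsucc D, pair_add, pair_add, pair_single C t _ i.2, pair_single C t _ j.2, hp, map_add]
        ring
      · intro k' hk'
        rw [Pi.add_apply, Pi.add_apply, Pi.single_eq_of_ne (hkey _ _ hk'),
          Pi.single_eq_of_ne (hkey _ _ hk'), h2 k' hk', add_zero, add_zero]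
      · by_cases hvar : False
        · exact hvar.elim
        · have hT : Cost ((inputs K V ∪ Set.range C.poly)) (Set.range b ∪ {b (Sum.inl k)})
              (4 * ops C (t + 1)) :=
            h3.mono subset_rfl (by
              rintro x (hx | hx)
              · exact hx
              · rw [Set.mem_singleton_iff] at hx
                exact ⟨_, hx.symm⟩) le_rfl
          have e1 : Cost (Set.range b ∪ {b (Sum.inl k)})
              (Set.range (b + Pi.single (key C (C.up k i)) (b (Sum.inl k)))) 1 := by
            have h0 : Cost (Set.range b ∪ {b (Sum.inl k)}) (Set.range b) 0 :=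
              Cost.of_subset Set.subset_union_left _
            exact cost_update h0 _ _ ⟨_, rfl⟩
          have e2 : Cost ((Set.range b ∪ {b (Sum.inl k)}) ∪
              (Set.range (b + Pi.single (key C (C.up k i)) (b (Sum.inl k)))))
              (Set.range (b + Pi.single (key C (C.up k i)) (b (Sum.inl k)) +
                Pi.single (key C (C.up k j)) (b (Sum.inl k)))) 1 := by
            set b₁ := b + Pi.single (key C (C.up k i)) (b (Sum.inl k)) with hb₁
            have h4 : Cost ((Set.range b ∪ {b (Sum.inl k)}) ∪ Set.range b₁)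
                {b₁ (key C (C.up k j)) + b (Sum.inl k)} 1 :=
              Cost.add (Or.inr ⟨_, rfl⟩) (Or.inl (Or.inr rfl))
            have h5 : Cost ((Set.range b ∪ {b (Sum.inl k)}) ∪ Set.range b₁) (Set.range b₁) 0 :=
              Cost.of_subset Set.subset_union_right _
            refine (h5.union h4).mono subset_rfl ?_ (by omega)
            rintro _ ⟨x, rfl⟩
            by_cases h : x = key C (C.up k j)
            · subst h
              right
              rw [Pi.add_apply, Pi.single_eq_same]
              rfl
            · left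
              rw [Pi.add_apply, Pi.single_eq_of_ne h, add_zero]
              exact ⟨x, rfl⟩
          have e3 := e1.comp e2
          refine ((hT.comp (e3.mono (T1 := (inputs K V ∪ Set.range C.poly) ∪
            (Set.range b ∪ {b (Sum.inl k)})) Set.subset_union_right subset_rfl le_rfl))).mono
            subset_rfl ?_ ?_
          · intro x hx
            exact Or.inr (Or.inr hx)
          · rw [hops']
            omega
    | mul i j =>
      have hp : C.poly k = C.poly (C.up k i) * C.poly (C.up k j) := by
        rw [Circuit.poly, hg]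
      have hops := ops_succ C k (Or.inr ⟨i, j, hg⟩)
      have hops' : ops C t = ops C (t + 1) + 1 := hops
      refine ⟨b + Pi.single (key C (C.up k i)) (b (Sum.inl k) * C.poly (C.up k j)) +
        Pi.single (key C (C.up k j)) (b (Sum.inl k) * C.poly (C.up k i)), fun D => ?_, ?_, ?_⟩
      · rw [hsucc D, pair_add, pair_add, pair_single C t _ i.2, pair_single C t _ j.2, hp,
          Derivation.leibniz, smul_eq_mul, smul_eq_mul]
        ring
      · intro k' hk'
        rw [Pi.add_apply, Pi.add_apply, Pi.single_eq_of_ne (hkey _ _ hk'),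
          Pi.single_eq_of_ne (hkey _ _ hk'), h2 k' hk', add_zero, add_zero]
      · set T := inputs K V ∪ Set.range C.poly with hTdef
        set p₁ := b (Sum.inl k) * C.poly (C.up k j) with hp₁
        set p₂ := b (Sum.inl k) * C.poly (C.up k i) with hp₂
        -- the two products
        have g0 : b (Sum.inl k) ∈ T ∪ Set.range b := Or.inr ⟨_, rfl⟩
        have g1 : C.poly (C.up k i) ∈ T ∪ Set.range b := Or.inl (Or.inr ⟨_, rfl⟩)
        have g2 : C.poly (C.up k j) ∈ T ∪ Set.range b := Or.inl (Or.inr ⟨_, rfl⟩)
        have f1 : Cost (T ∪ Set.range b) ({p₁} ∪ {p₂}) 2 :=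
          (Cost.mul g0 g2).union (Cost.mul g0 g1)
        have f2 : Cost T (Set.range b ∪ ({p₁} ∪ {p₂})) (4 * ops C (t + 1) + 2) := h3.comp f1
        have e1 : Cost (Set.range b ∪ ({p₁} ∪ {p₂}))
            (Set.range (b + Pi.single (key C (C.up k i)) p₁)) 1 := by
          have h4 : Cost (Set.range b ∪ ({p₁} ∪ {p₂})) {b (key C (C.up k i)) + p₁} 1 :=
            Cost.add (Or.inl ⟨_, rfl⟩) (Or.inr (Or.inl rfl))
          have h5 : Cost (Set.range b ∪ ({p₁} ∪ {p₂})) (Set.range b) 0 :=
            Cost.of_subset Set.subset_union_left _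
          refine (h5.union h4).mono subset_rfl ?_ (by omega)
          rintro _ ⟨x, rfl⟩
          by_cases h : x = key C (C.up k i)
          · subst h
            right
            rw [Pi.add_apply, Pi.single_eq_same]
            rfl
          · left
            rw [Pi.add_apply, Pi.single_eq_of_ne h, add_zero]
            exact ⟨x, rfl⟩
        have e2 : Cost ((Set.range b ∪ ({p₁} ∪ {p₂})) ∪
            (Set.range (b + Pi.single (key C (C.up k i)) p₁)))
            (Set.range (b + Pi.single (key C (C.up k i)) p₁ +
              Pi.single (key C (C.up k j)) p₂)) 1 := by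
          set b₁ := b + Pi.single (key C (C.up k i)) p₁ with hb₁
          have h4 : Cost ((Set.range b ∪ ({p₁} ∪ {p₂})) ∪ Set.range b₁)
              {b₁ (key C (C.up k j)) + p₂} 1 :=
            Cost.add (Or.inr ⟨_, rfl⟩) (Or.inl (Or.inr (Or.inr rfl)))
          have h5 : Cost ((Set.range b ∪ ({p₁} ∪ {p₂})) ∪ Set.range b₁) (Set.range b₁) 0 :=
            Cost.of_subset Set.subset_union_right _
          refine (h5.union h4).mono subset_rfl ?_ (by omega)
          rintro _ ⟨x, rfl⟩
          by_cases h : x = key C (C.up k j)
          · subst h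
            right
            rw [Pi.add_apply, Pi.single_eq_same]
            rfl
          · left
            rw [Pi.add_apply, Pi.single_eq_of_ne h, add_zero]
            exact ⟨x, rfl⟩
        have e3 := e1.comp e2
        refine ((f2.comp (e3.mono (T1 := T ∪ (Set.range b ∪ ({p₁} ∪ {p₂})))
          Set.subset_union_right subset_rfl le_rfl))).mono subset_rfl ?_ ?_
        · intro x hx
          exact Or.inr (Or.inr hx)
        · rw [hops']
          omega

/-- **All first derivatives.** -/
theorem cost_pderiv (C : Circuit K V) (v : Fin C.nodes) :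
    Cost (inputs K V) (Set.range fun w => pderiv w (C.poly v)) (5 * C.size) := by
  obtain ⟨b, h1, -, h3⟩ := exists_coeffs C v C.nodes 0 (Nat.zero_add _)
  rw [ops_zero] at h3
  have h4 : ∀ w, pderiv w (C.poly v) = b (Sum.inr w) := by
    intro w
    rw [h1 (pderiv w)]
    unfold pair
    have e1 : ∑ i : Fin C.nodes, (if (i : ℕ) < 0 then b (Sum.inl i) *
        pderiv w (C.poly i) else 0) = 0 :=
      sum_eq_zero fun i _ => if_neg (Nat.not_lt_zero _)
    rw [e1, zero_add, Finset.sum_eq_single w]
    · rw [pderiv_X_self, mul_one]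
    · intro w' _ hne
      rw [pderiv_X_of_ne hne, mul_zero]
    · intro h
      exact absurd (mem_univ _) h
  refine ((cost_of_circuit C).comp h3).mono subset_rfl ?_ (by omega)
  rintro _ ⟨w, rfl⟩
  right
  exact ⟨_, (h4 w).symm⟩

end

end Run7.h128.PI
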