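import Pool.Agent.Run7.h128.SI.Jet

set_option autoImplicit false
set_option linter.unusedSectionVars false

/-!
# Homomorphism polynomials and permutation-invariant polynomials
-/

namespace Run7.h128.PI

open Finset MvPolynomial

section defs

variable {V ι L M : Type*}

/-- every vertex is an endpoint of an arc -/
def NoIso (E : ι → L × V × V) : Prop := ∀ v, ∃ x, (E x).2.1 = v ∨ (E x).2.2 = v

/-- The simple graph which underlies a directed multigraph. -/
def und (E : ι → L × V × V) : SimpleGraph V :=
  SimpleGraph.fromRel fun u v => ∃ x, (E x).2 = (u, v)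

/-- the underlying simple graph has no cycle -/
def IsForest (E : ι → L × V × V) : Prop := (und E).IsAcyclic

/-- homomorphism polynomials, for arbitrary finite types -/
noncomputable def homG (K : Type*) [Field K] [Fintype V] [DecidableEq V] [Fintype ι] [Fintype M]
    (E : ι → L × V × V) : MvPolynomial (L × M × M) K :=
  ∑ φ : V → M, ∏ x, X ((E x).1, φ (E x).2.1, φ (E x).2.2)

theorem homG_equiv {V' ι' : Type*} (K : Type*) [Field K] [Fintype V] [DecidableEq V] [Fintype ι]
    [Fintype M] [Fintype V'] [DecidableEq V'] [Fintype ι'] (E : ι → L × V × V)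
    (E' : ι' → L × V' × V') (χ : V ≃ V') (β : ι ≃ ι')
    (h : ∀ x, E' (β x) = ((E x).1, χ (E x).2.1, χ (E x).2.2)) :
    (homG K E : MvPolynomial (L × M × M) K) = homG K E' := by
  unfold homG
  rw [← Equiv.sum_comp (Equiv.arrowCongr χ (Equiv.refl M))]
  refine sum_congr rfl fun φ _ => ?_
  rw [← Equiv.prod_comp β]
  refine prod_congr rfl fun x _ => ?_
  rw [h]
  simp [Equiv.arrowCongr]

theorem IsForest.of_equiv {V' ι' : Type*} {E : ι → L × V × V} {E' : ι' → L × V' × V'}
    (χ : V ≃ V') (β : ι ≃ ι') (h : ∀ x, E' (β x) = ((E x).1, χ (E x).2.1, χ (E x).2.2))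
    (hE : IsForest E) : IsForest E' := by
  unfold IsForest at hE ⊢
  refine SimpleGraph.IsAcyclic.comap (G' := und E) ⟨χ.symm, ?_⟩ χ.symm.injective hE
  intro a b hab
  unfold und at hab ⊢
  rw [SimpleGraph.fromRel_adj] at hab ⊢
  refine ⟨fun e => hab.1 (χ.symm.injective e), ?_⟩
  rcases hab.2 with ⟨x, hx⟩ | ⟨x, hx⟩
  · left
    refine ⟨β.symm x, ?_⟩
    have h1 := h (β.symm x)
    rw [Equiv.apply_symm_apply] at h1
    rw [h1] at hx
    simp only [Prod.mk.injEq] at hx
    rw [← hx.1, ← hx.2, Equiv.symm_apply_apply, Equiv.symm_apply_apply]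
  · right
    refine ⟨β.symm x, ?_⟩
    have h1 := h (β.symm x)
    rw [Equiv.apply_symm_apply] at h1
    rw [h1] at hx
    simp only [Prod.mk.injEq] at hx
    rw [← hx.1, ← hx.2, Equiv.symm_apply_apply, Equiv.symm_apply_apply]

theorem NoIso.of_equiv {V' ι' : Type*} {E : ι → L × V × V} {E' : ι' → L × V' × V'}
    (χ : V ≃ V') (β : ι ≃ ι') (h : ∀ x, E' (β x) = ((E x).1, χ (E x).2.1, χ (E x).2.2))
    (hE : NoIso E) : NoIso E' := by
  intro v
  obtain ⟨x, hx⟩ := hE (χ.symm v)
  refine ⟨β x, ?_⟩
  rw [h]
  rcases hx with hx | hx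
  · left
    simp only [hx, Equiv.apply_symm_apply]
  · right
    simp only [hx, Equiv.apply_symm_apply]

end defs

variable (K : Type) [Field K]

/-- The homomorphism polynomial of a directed multigraph with the vertices `Fin k` whose arcs are
labelled by `Fin s`: the sum over all maps `φ` of the vertices to `Fin m` of the products of the
variables `x_{l, φ u, φ v}` over all arcs `u → v`, where `l` is the label of the arc. -/
noncomputable def homPoly {s k e : ℕ} (m : ℕ) (E : Fin e → Fin s × Fin k × Fin k) :
    MvPolynomial (Fin s × Fin m × Fin m) K :=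
  ∑ φ : Fin k → Fin m, ∏ x, MvPolynomial.X ((E x).1, φ (E x).2.1, φ (E x).2.2)

/-- The linear combinations of the homomorphism polynomials of the multigraphs with at most `d` arcs
and without isolated vertices. -/
noncomputable def GraphSpan (s d m : ℕ) : Submodule K (MvPolynomial (Fin s × Fin m × Fin m) K) :=
  Submodule.span K {p | ∃ (k e : ℕ) (E : Fin e → Fin s × Fin k × Fin k), e ≤ d ∧ NoIso E ∧
    p = homPoly K m E}

/-- The linear combinations of the homomorphism polynomials of the multigraphs with at most `d` arcs,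
without isolated vertices, for which the underlying simple graph is a forest. -/
noncomputable def ForestSpan (s d m : ℕ) : Submodule K (MvPolynomial (Fin s × Fin m × Fin m) K) :=
  Submodule.span K {p | ∃ (k e : ℕ) (E : Fin e → Fin s × Fin k × Fin k), e ≤ d ∧ NoIso E ∧
    IsForest E ∧ p = homPoly K m E}

variable {K}

/-- invariance under simultaneous permutations of rows and columns -/
def PermInv {s m : ℕ} (f : MvPolynomial (Fin s × Fin m × Fin m) K) : Prop :=
  ∀ σ : Equiv.Perm (Fin m), MvPolynomial.rename (fun p => (p.1, σ p.2.1, σ p.2.2)) f = f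

theorem homG_mem {V ι : Type} [Fintype V] [DecidableEq V] [Fintype ι] {s d m : ℕ}
    (E : ι → Fin s × V × V) (hE : NoIso E) (hd : Fintype.card ι ≤ d) :
    (homG K E : MvPolynomial (Fin s × Fin m × Fin m) K) ∈ GraphSpan K s d m := by
  let χ := Fintype.equivFin V
  let β := Fintype.equivFin ι
  let E' : Fin (Fintype.card ι) → Fin s × Fin (Fintype.card V) × Fin (Fintype.card V) :=
    fun x => ((E (β.symm x)).1, χ (E (β.symm x)).2.1, χ (E (β.symm x)).2.2)
  have h : ∀ x, E' (β x) = ((E x).1, χ (E x).2.1, χ (E x).2.2) := by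
    intro x
    simp only [E', Equiv.symm_apply_apply]
  refine Submodule.subset_span ⟨_, _, E', hd, hE.of_equiv χ β h, ?_⟩
  rw [homG_equiv K E E' χ β h]
  rfl

/-- the product at a map -/
noncomputable def gm {V L M : Type*} (K : Type) [Field K] {e : ℕ} (E : Fin e → L × V × V)
    (φ : V → M) : MvPolynomial (L × M × M) K :=
  ∏ x, X ((E x).1, φ (E x).2.1, φ (E x).2.2)

theorem orbit_mem [CharZero K] {s d m e : ℕ} (he : e ≤ d) (N : ℕ) :
    ∀ (V : Type) [Fintype V] [DecidableEq V] (E : Fin e → Fin s × V × V), Fintype.card V = N →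
      NoIso E → ∀ φ : V → Fin m,
        ∑ σ : Equiv.Perm (Fin m), gm K E (σ ∘ φ) ∈ GraphSpan K s d m := by
  classical
  induction N using Nat.strong_induction_on with
  | _ N ih =>
    intro V _ _ E hN hE φ
    -- the case of a map which is not injective
    have hnon : ∀ ψ : V → Fin m, ¬ Function.Injective ψ →
        ∑ σ : Equiv.Perm (Fin m), gm K E (σ ∘ ψ) ∈ GraphSpan K s d m := by
      intro ψ hψ
      let E' : Fin e → Fin s × (Set.range ψ) × (Set.range ψ) := fun x =>
        ((E x).1, Set.rangeFactorization ψ (E x).2.1, Set.rangeFactorization ψ (E x).2.2)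
      have hcard : Fintype.card (Set.range ψ) < N := by
        rw [← hN]
        refine lt_of_le_of_ne (Fintype.card_le_of_surjective _ Set.rangeFactorization_surjective)
          fun h => hψ ?_
        have h1 := (Fintype.bijective_iff_surjective_and_card (Set.rangeFactorization ψ)).2
          ⟨Set.rangeFactorization_surjective, h.symm⟩
        intro a b hab
        exact h1.1 (Subtype.ext hab)
      have h1 := ih _ hcard (Set.range ψ) E' rfl (by
        rintro ⟨_, v, rfl⟩
        obtain ⟨x, hx⟩ := hE v
        refine ⟨x, ?_⟩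
        rcases hx with hx | hx
        · left
          simp only [E', hx]
          rfl
        · right
          simp only [E', hx]
          rfl) (fun v => (v : Fin m))
      exact h1
    by_cases hφ : Function.Injective φ
    · -- compare with the homomorphism polynomial
      have h1 : ∑ ψ : V → Fin m, ∑ σ : Equiv.Perm (Fin m), gm K E (σ ∘ ψ) ∈
          GraphSpan K s d m := by
        rw [sum_comm]
        have h2 : ∀ σ : Equiv.Perm (Fin m), ∑ ψ : V → Fin m, gm K E (σ ∘ ψ) = homG K E := by
          intro σ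
          unfold homG gm
          exact Equiv.sum_comp (Equiv.arrowCongr (Equiv.refl V) σ)
            fun φ : V → Fin m => ∏ x, (X ((E x).1, φ (E x).2.1, φ (E x).2.2) :
              MvPolynomial (Fin s × Fin m × Fin m) K)
        simp only [h2, sum_const]
        exact Submodule.smul_of_tower_mem _ _ (homG_mem E hE (by simpa using he))
      have h3 : ∀ ψ : V → Fin m, Function.Injective ψ →
          ∑ σ : Equiv.Perm (Fin m), gm K E (σ ∘ ψ) = ∑ σ : Equiv.Perm (Fin m), gm K E (σ ∘ φ) := by
        intro ψ hψ
        -- `ψ = τ ∘ φ`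
        let E₀ : Set.range φ ≃ Set.range ψ :=
          (Equiv.ofInjective φ hφ).symm.trans (Equiv.ofInjective ψ hψ)
        let τ : Equiv.Perm (Fin m) := E₀.extendSubtype
        have hτ : ψ = τ ∘ φ := by
          funext v
          have h4 := E₀.extendSubtype_apply_of_mem (φ v) ⟨v, rfl⟩
          rw [Function.comp_apply, h4]
          have h5 : (⟨φ v, ⟨v, rfl⟩⟩ : Set.range φ) = Equiv.ofInjective φ hφ v := rfl
          simp only [E₀, Equiv.trans_apply]
          rw [h5, Equiv.symm_apply_apply]
          rfl
        rw [hτ]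
        exact Equiv.sum_comp (Equiv.mulRight τ) fun σ : Equiv.Perm (Fin m) => gm K E (σ ∘ φ)
      have h4 : ∑ ψ : V → Fin m, ∑ σ : Equiv.Perm (Fin m), gm K E (σ ∘ ψ) =
          (∑ ψ ∈ univ.filter fun ψ : V → Fin m => ¬ Function.Injective ψ,
            ∑ σ : Equiv.Perm (Fin m), gm K E (σ ∘ ψ)) +
          (univ.filter fun ψ : V → Fin m => Function.Injective ψ).card •
            ∑ σ : Equiv.Perm (Fin m), gm K E (σ ∘ φ) := by
        rw [← Finset.sum_filter_add_sum_filter_not univ
          (fun ψ : V → Fin m => Function.Injective ψ), add_comm]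
        congr 1
        rw [← sum_const]
        exact sum_congr rfl fun ψ hψ => h3 ψ (mem_filter.1 hψ).2
      rw [h4] at h1
      have h5 : (∑ ψ ∈ univ.filter fun ψ : V → Fin m => ¬ Function.Injective ψ,
            ∑ σ : Equiv.Perm (Fin m), gm K E (σ ∘ ψ)) ∈ GraphSpan K s d m :=
        Submodule.sum_mem _ fun ψ hψ => hnon ψ (mem_filter.1 hψ).2
      have h6 := (Submodule.add_mem_iff_right _ h5).1 h1
      set c := (univ.filter fun ψ : V → Fin m => Function.Injective ψ).card with hc
      have hc0 : c ≠ 0 := by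
        rw [hc]
        exact Finset.card_ne_zero_of_mem (mem_filter.2 ⟨mem_univ φ, hφ⟩)
      have hcK : (c : K) ≠ 0 := by exact_mod_cast hc0
      rw [← Nat.cast_smul_eq_nsmul K] at h6
      exact (Submodule.smul_mem_iff _ hcK).1 h6
    · exact hnon φ hφ

/-- a monomial as a product over a finite type -/
theorem exists_prod {σ : Type*} (t : σ →₀ ℕ) : ∃ p : Fin t.degree → σ,
    (monomial t (1 : K)) = ∏ x, X (p x) := by
  classical
  obtain ⟨l, hl⟩ := Quot.exists_rep (Finsupp.toMultiset t)
  have hl' : (l : Multiset σ) = Finsupp.toMultiset t := hl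
  have hlen : l.length = t.degree := by
    have h1 : (l : Multiset σ).card = l.length := rfl
    rw [← h1, hl', Finsupp.card_toMultiset]
    rfl
  have hprod : (l.map (fun a => (X a : MvPolynomial σ K))).prod = monomial t (1 : K) := by
    have h1 : ((l : Multiset σ).map (fun a => (X a : MvPolynomial σ K))).prod =
        (l.map (fun a => (X a : MvPolynomial σ K))).prod := rfl
    rw [← h1, hl', monomial_eq, C_1, one_mul, Finsupp.toMultiset_map, Finsupp.prod_toMultiset,
      Finsupp.prod_mapDomain_index (by simp) (by simp [pow_add])]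
  refine ⟨fun x => l.get (Fin.cast hlen.symm x), ?_⟩
  rw [← hprod]
  have e1 : ∏ x : Fin t.degree, (X (l.get (Fin.cast hlen.symm x)) : MvPolynomial σ K) =
      ∏ y : Fin l.length, X (l.get y) :=
    Fintype.prod_equiv (finCongr hlen.symm) _ _ fun x => rfl
  rw [e1]
  exact (Fin.prod_univ_fun_getElem l fun a => (X a : MvPolynomial σ K)).symm

/-- **Permutation-invariant polynomials are linear combinations of homomorphism polynomials.** -/
theorem PermInv.mem_span [CharZero K] {s d m : ℕ} {f : MvPolynomial (Fin s × Fin m × Fin m) K}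
    (hf : PermInv f) (hd : f.totalDegree ≤ d) : f ∈ GraphSpan K s d m := by
  classical
  have h1 : (Fintype.card (Equiv.Perm (Fin m)) : K) • f =
      ∑ t ∈ f.support, (coeff t f) • ∑ σ : Equiv.Perm (Fin m),
        MvPolynomial.rename (fun p : Fin s × Fin m × Fin m => (p.1, σ p.2.1, σ p.2.2))
          (monomial t (1 : K)) := by
    have h2 : ∑ σ : Equiv.Perm (Fin m), MvPolynomial.rename
        (fun p : Fin s × Fin m × Fin m => (p.1, σ p.2.1, σ p.2.2)) f =
        (Fintype.card (Equiv.Perm (Fin m)) : K) • f := by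
      rw [sum_congr rfl fun σ _ => hf σ, sum_const, card_univ, Nat.cast_smul_eq_nsmul]
    rw [← h2]
    simp only [smul_sum]
    rw [sum_comm]
    refine sum_congr rfl fun σ _ => ?_
    conv_lhs => rw [f.as_sum, map_sum]
    refine sum_congr rfl fun t _ => ?_
    rw [← map_smul, smul_monomial, smul_eq_mul, mul_one]
  have h2 : (Fintype.card (Equiv.Perm (Fin m)) : K) ≠ 0 := by
    exact_mod_cast Fintype.card_ne_zero
  rw [← Submodule.smul_mem_iff _ h2, h1]
  refine Submodule.sum_mem _ fun t ht => Submodule.smul_mem _ _ ?_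
  obtain ⟨p, hp⟩ := exists_prod (K := K) t
  have htd : t.degree ≤ d := le_trans (by
    exact MvPolynomial.le_totalDegree ht) hd
  -- the indices which occur
  let U : Finset (Fin m) := (univ.image fun x => (p x).2.1) ∪ univ.image fun x => (p x).2.2
  have hU1 : ∀ x, (p x).2.1 ∈ U := fun x =>
    mem_union_left _ (mem_image_of_mem _ (mem_univ x))
  have hU2 : ∀ x, (p x).2.2 ∈ U := fun x =>
    mem_union_right _ (mem_image_of_mem _ (mem_univ x))
  let E : Fin t.degree → Fin s × U × U := fun x => ((p x).1, ⟨_, hU1 x⟩, ⟨_, hU2 x⟩)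
  have hE : NoIso E := by
    rintro ⟨v, hv⟩
    rcases mem_union.1 hv with h | h
    · obtain ⟨x, _, hx⟩ := mem_image.1 h
      exact ⟨x, Or.inl (Subtype.ext hx)⟩
    · obtain ⟨x, _, hx⟩ := mem_image.1 h
      exact ⟨x, Or.inr (Subtype.ext hx)⟩
  have h3 := orbit_mem (K := K) (s := s) (m := m) htd _ U E rfl hE (fun v => (v : Fin m))
  convert h3 using 2
  rename_i σ _
  rw [hp, map_prod]
  unfold gm
  refine prod_congr rfl fun x _ => ?_
  rw [rename_X]
  rfl

end Run7.h128.PI
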