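import Pool.Agent.Run7.h128.PI.Hom

set_option autoImplicit false
set_option linter.unusedSectionVars false

/-!
# Sums over maps which are constant on the classes of an equivalence relation
-/

namespace Run7.h128.PI

open Finset

/-- sums over the maps which respect a relation -/
theorem sum_respect {V L K : Type*} [Fintype V] [DecidableEq V] [Fintype L] [DecidableEq L]
    [AddCommMonoid K] (r : V → V → Prop) [Fintype (Quot r)] [DecidableEq (Quot r)]
    [DecidablePred fun l : V → L => ∀ v v', r v v' → l v = l v'] (G : (V → L) → K) :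
    (∑ l : V → L, if ∀ v v', r v v' → l v = l v' then G l else 0) =
      ∑ ψ : Quot r → L, G (fun v => ψ (Quot.mk r v)) := by
  classical
  rw [← sum_filter]
  refine Finset.sum_bij' (i := fun l hl => fun w => Quot.lift l (mem_filter.1 hl).2 w)
    (j := fun ψ _ => fun v => ψ (Quot.mk r v)) ?_ ?_ ?_ ?_ ?_
  · intro l hl
    exact mem_univ _
  · intro ψ _
    exact mem_filter.2 ⟨mem_univ _, fun v v' h => congrArg ψ (Quot.sound h)⟩
  · intro l hl
    rfl
  · intro ψ hψ
    funext w
    obtain ⟨v, rfl⟩ := Quot.exists_rep w
    rfl
  · intro l hl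
    rfl

/-- factorization over the classes -/
theorem sum_classes {W L K : Type*} [Fintype W] [DecidableEq W] [Fintype L] [CommRing K]
    {a : ℕ} (g : Fin a → L → K) (pos : Fin a → W) :
    ∑ ψ : W → L, ∏ t, g t (ψ (pos t)) =
      ∏ w, ∑ l, ∏ t ∈ univ.filter (fun t => pos t = w), g t l := by
  classical
  rw [Finset.prod_univ_sum, Fintype.piFinset_univ]
  refine sum_congr rfl fun ψ _ => ?_
  rw [← Finset.prod_fiberwise univ pos (fun t => g t (ψ (pos t)))]
  refine prod_congr rfl fun w _ => prod_congr rfl fun t ht => ?_
  rw [(mem_filter.1 ht).2]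

section vectors

variable {K : Type*} [Field K] [CharZero K] {n : ℕ}

/-- vectors with sum zero -/
noncomputable def uu (i : Fin n) (l : Fin (n + 1)) : K :=
  (if l = i.castSucc then 1 else 0) - 1 / ((n : K) + 1)

/-- a dual family of vectors with sum zero -/
def vv (i : Fin n) (l : Fin (n + 1)) : K :=
  (if l = i.castSucc then 1 else 0) - (if l = Fin.last n then 1 else 0)

theorem sum_uu (i : Fin n) : ∑ l, (uu i l : K) = 0 := by
  unfold uu
  rw [sum_sub_distrib, Finset.sum_ite_eq' univ i.castSucc, if_pos (mem_univ _), sum_const,
    card_univ, Fintype.card_fin, nsmul_eq_mul]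
  have : ((n : K) + 1) ≠ 0 := by exact_mod_cast Nat.succ_ne_zero n
  push_cast
  field_simp
  ring

theorem sum_vv (i : Fin n) : ∑ l, (vv i l : K) = 0 := by
  unfold vv
  rw [sum_sub_distrib, Finset.sum_ite_eq' univ i.castSucc, if_pos (mem_univ _),
    Finset.sum_ite_eq' univ (Fin.last n), if_pos (mem_univ _), sub_self]

theorem sum_uu_vv (i j : Fin n) : ∑ l, (uu i l : K) * vv j l = if i = j then 1 else 0 := by
  have h1 : ∀ l : Fin (n + 1), (uu i l : K) * vv j l =
      (if l = j.castSucc then uu i l else 0) - (if l = Fin.last n then uu i l else 0) := by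
    intro l
    unfold vv
    rw [mul_sub, mul_ite, mul_one, mul_zero, mul_ite, mul_one, mul_zero]
  simp only [h1]
  rw [sum_sub_distrib, Finset.sum_ite_eq' univ j.castSucc, if_pos (mem_univ _),
    Finset.sum_ite_eq' univ (Fin.last n), if_pos (mem_univ _)]
  unfold uu
  have h2 : Fin.last n ≠ i.castSucc := (Fin.castSucc_lt_last i).ne'
  rw [if_neg h2]
  by_cases h : i = j
  · subst h
    rw [if_pos rfl, if_pos rfl]
    ring
  · rw [if_neg h, if_neg (fun e => h (Fin.castSucc_injective n e).symm)]
    ring

/-- a vector placed in one of three blocks -/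
def lift (a : Fin 3) (u : Fin (n + 1) → K) (l : Fin 3 × Fin (n + 1)) : K :=
  if l.1 = a then u l.2 else 0

theorem sum_lift (a : Fin 3) (u : Fin (n + 1) → K) : ∑ l, lift a u l = ∑ l, u l := by
  unfold lift
  rw [Fintype.sum_prod_type]
  rw [Finset.sum_eq_single a]
  · simp
  · intro b _ hb
    simp [hb]
  · intro h
    exact absurd (mem_univ a) h

theorem lift_mul (a : Fin 3) (u v : Fin (n + 1) → K) (l : Fin 3 × Fin (n + 1)) :
    lift a u l * lift a v l = lift a (fun t => u t * v t) l := by
  unfold lift
  by_cases h : l.1 = a <;> simp [h]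

theorem lift_mul_ne {a b : Fin 3} (hab : a ≠ b) (u v : Fin (n + 1) → K)
    (l : Fin 3 × Fin (n + 1)) : lift a u l * lift b v l = 0 := by
  unfold lift
  by_cases h : l.1 = a
  · rw [if_neg (fun h' => hab (h.symm.trans h')), mul_zero]
  · rw [if_neg h, zero_mul]

/-- the blocks of the six ends of the three arcs -/
def ty : Fin 6 → Fin 3 := ![0, 1, 1, 2, 2, 0]

/-- the vectors at the six ends of the three arcs -/
noncomputable def vec (i i' j j' k k' : Fin n) : Fin 6 → Fin (n + 1) → K :=
  ![uu i, uu j, vv j', uu k, vv k', vv i']

/-- the same, in their blocks -/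
noncomputable def gg (i i' j j' k k' : Fin n) (t : Fin 6) : Fin 3 × Fin (n + 1) → K :=
  lift (ty t) (vec i i' j j' k k' t)

theorem sum_vec (i i' j j' k k' : Fin n) (t : Fin 6) : ∑ l, (vec i i' j j' k k' t l : K) = 0 := by
  fin_cases t
  · exact sum_uu i
  · exact sum_uu j
  · exact sum_vv j'
  · exact sum_uu k
  · exact sum_vv k'
  · exact sum_vv i'

/-- the six positions are those of a triangle -/
def GoodPos {W : Type*} (pos : Fin 6 → W) : Prop :=
  pos 0 = pos 5 ∧ pos 1 = pos 2 ∧ pos 3 = pos 4 ∧ pos 0 ≠ pos 1 ∧ pos 1 ≠ pos 3 ∧ pos 0 ≠ pos 3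

open Classical in
/-- number of ways to choose the indices of the classes without an end -/
noncomputable def wgt (n : ℕ) {W : Type*} [Fintype W] (pos : Fin 6 → W) : ℕ :=
  if GoodPos pos then
    (Fintype.card (Fin 3 × Fin (n + 1))) ^
      (univ.filter fun w : W => w ≠ pos 0 ∧ w ≠ pos 1 ∧ w ≠ pos 3).card
  else 0

theorem wgt_pos {n : ℕ} {W : Type*} [Fintype W] {pos : Fin 6 → W} (h : GoodPos pos) :
    0 < wgt n pos := by
  unfold wgt
  rw [if_pos h]
  apply pow_pos
  rw [Fintype.card_pos_iff]
  exact ⟨(0, 0)⟩

theorem good_of_wgt {n : ℕ} {W : Type*} [Fintype W] {pos : Fin 6 → W} (h : wgt n pos ≠ 0) :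
    GoodPos pos := by
  unfold wgt at h
  by_contra hcon
  rw [if_neg hcon] at h
  exact h rfl

theorem class_sum_zero_of_ty (i i' j j' k k' : Fin n) (A : Finset (Fin 6)) {a b : Fin 6}
    (ha : a ∈ A) (hb : b ∈ A) (hab : ty a ≠ ty b) :
    ∑ l, ∏ t ∈ A, (gg i i' j j' k k' t l : K) = 0 := by
  refine Finset.sum_eq_zero fun l _ => ?_
  have hne : a ≠ b := fun h => hab (by rw [h])
  have h1 := Finset.mul_prod_erase A (fun t => (gg i i' j j' k k' t l : K)) ha
  have h2 := Finset.mul_prod_erase (A.erase a) (fun t => (gg i i' j j' k k' t l : K))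
    (mem_erase.2 ⟨hne.symm, hb⟩)
  rw [← h1, ← h2, ← mul_assoc]
  have h3 : (gg i i' j j' k k' a l : K) * gg i i' j j' k k' b l = 0 := by
    unfold gg
    exact lift_mul_ne hab _ _ l
  rw [h3, zero_mul]

theorem value (i i' j j' k k' : Fin n) {W : Type*} [Fintype W] [DecidableEq W]
    (pos : Fin 6 → W) :
    ∑ ψ : W → Fin 3 × Fin (n + 1), ∏ t, (gg i i' j j' k k' t (ψ (pos t)) : K) =
      (wgt n pos : K) * if i = i' ∧ j = j' ∧ k = k' then 1 else 0 := by
  classical
  rw [sum_classes]
  by_cases hgood : GoodPos pos
  · obtain ⟨h05, h12, h34, h01, h13, h03⟩ := hgood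
    have hA : univ.filter (fun t => pos t = pos 0) = {0, 5} := by
      ext t
      simp only [mem_filter, mem_univ, true_and, mem_insert, mem_singleton]
      fin_cases t
      · simp
      · simpa using h01.symm
      · simpa [← h12] using h01.symm
      · simpa using h03.symm
      · simpa [← h34] using h03.symm
      · simpa using h05.symm
    have hB : univ.filter (fun t => pos t = pos 1) = {1, 2} := by
      ext t
      simp only [mem_filter, mem_univ, true_and, mem_insert, mem_singleton]
      fin_cases t
      · simpa using h01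
      · simp
      · simpa using h12.symm
      · simpa using h13.symm
      · simpa [← h34] using h13.symm
      · simpa [← h05] using h01
    have hC : univ.filter (fun t => pos t = pos 3) = {3, 4} := by
      ext t
      simp only [mem_filter, mem_univ, true_and, mem_insert, mem_singleton]
      fin_cases t
      · simpa using h03
      · simpa using h13
      · simpa [← h12] using h13
      · simp
      · simpa using h34.symm
      · simpa [← h05] using h03
    have hrest : ∀ w ∈ univ.filter (fun w : W => w ≠ pos 0 ∧ w ≠ pos 1 ∧ w ≠ pos 3),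
        (∑ l, ∏ t ∈ univ.filter (fun t => pos t = w), (gg i i' j j' k k' t l : K)) =
          (Fintype.card (Fin 3 × Fin (n + 1)) : K) := by
      intro w hw
      obtain ⟨h1, h2, h3⟩ := (mem_filter.1 hw).2
      have h4 : univ.filter (fun t => pos t = w) = ∅ := by
        apply Finset.filter_eq_empty_iff.2
        intro t _ ht
        fin_cases t
        · exact h1 ht.symm
        · exact h2 ht.symm
        · exact h2 (ht.symm.trans h12.symm)
        · exact h3 ht.symm
        · exact h3 (ht.symm.trans h34.symm)
        · exact h1 (ht.symm.trans h05.symm)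
      rw [h4]
      simp only [prod_empty, sum_const, card_univ, nsmul_eq_mul, mul_one]
    have hsplit : ∀ F : W → K, ∏ w, F w = F (pos 0) * (F (pos 1) * (F (pos 3) *
        ∏ w ∈ univ.filter (fun w : W => w ≠ pos 0 ∧ w ≠ pos 1 ∧ w ≠ pos 3), F w)) := by
      intro F
      have e1 := Finset.mul_prod_erase univ F (mem_univ (pos 0))
      have e2 := Finset.mul_prod_erase (univ.erase (pos 0)) F
        (mem_erase.2 ⟨h01.symm, mem_univ (pos 1)⟩)
      have e3 := Finset.mul_prod_erase ((univ.erase (pos 0)).erase (pos 1)) F
        (mem_erase.2 ⟨h13.symm, mem_erase.2 ⟨h03.symm, mem_univ (pos 3)⟩⟩)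
      rw [← e1, ← e2, ← e3]
      congr 3
      refine prod_congr ?_ fun _ _ => rfl
      ext w
      simp only [mem_erase, mem_filter, mem_univ, true_and, and_true]
      tauto
    rw [hsplit, prod_congr rfl hrest, prod_const]
    have hwgt : (wgt n pos : K) = (Fintype.card (Fin 3 × Fin (n + 1)) : K) ^
        (univ.filter fun w : W => w ≠ pos 0 ∧ w ≠ pos 1 ∧ w ≠ pos 3).card := by
      unfold wgt
      rw [if_pos ⟨h05, h12, h34, h01, h13, h03⟩]
      push_cast
      congr 3
    rw [hwgt, hA, hB, hC, Finset.sum_congr rfl fun l _ => Finset.prod_pair (by decide),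
      Finset.sum_congr rfl fun l _ => Finset.prod_pair (by decide),
      Finset.sum_congr rfl fun l _ => Finset.prod_pair (by decide)]
    have s1 : ∑ l, (gg i i' j j' k k' 0 l : K) * gg i i' j j' k k' 5 l =
        if i = i' then 1 else 0 := by
      rw [← sum_uu_vv i i', ← sum_lift 0]
      exact sum_congr rfl fun l _ => lift_mul 0 _ _ l
    have s2 : ∑ l, (gg i i' j j' k k' 1 l : K) * gg i i' j j' k k' 2 l =
        if j = j' then 1 else 0 := by
      rw [← sum_uu_vv j j', ← sum_lift 1]
      exact sum_congr rfl fun l _ => lift_mul 1 _ _ l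
    have s3 : ∑ l, (gg i i' j j' k k' 3 l : K) * gg i i' j j' k k' 4 l =
        if k = k' then 1 else 0 := by
      rw [← sum_uu_vv k k', ← sum_lift 2]
      exact sum_congr rfl fun l _ => lift_mul 2 _ _ l
    rw [s1, s2, s3]
    by_cases hi : i = i' <;> by_cases hj : j = j' <;> by_cases hk : k = k' <;>
      simp [hi, hj, hk]
  · have hw0 : wgt n pos = 0 := by
      unfold wgt
      rw [if_neg hgood]
    rw [hw0, Nat.cast_zero, zero_mul]
    by_cases hty : ∃ a b, pos a = pos b ∧ ty a ≠ ty b
    · obtain ⟨a, b, hab, hne⟩ := hty
      refine Finset.prod_eq_zero (mem_univ (pos a)) ?_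
      exact class_sum_zero_of_ty i i' j j' k k' _ (mem_filter.2 ⟨mem_univ a, rfl⟩)
        (mem_filter.2 ⟨mem_univ b, hab.symm⟩) hne
    · push Not at hty
      have hsing : ∀ a : Fin 6, (∀ b, b ≠ a → ty b = ty a → pos b ≠ pos a) →
          ∏ w, ∑ l, ∏ t ∈ univ.filter (fun t => pos t = w), (gg i i' j j' k k' t l : K) = 0 := by
        intro a ha
        refine Finset.prod_eq_zero (mem_univ (pos a)) ?_
        have h1 : univ.filter (fun t => pos t = pos a) = {a} := by
          ext t
          simp only [mem_filter, mem_univ, true_and, mem_singleton]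
          constructor
          · intro h
            by_contra hne
            exact ha t hne (hty t a h) h
          · rintro rfl
            rfl
        rw [h1]
        simp only [prod_singleton]
        unfold gg
        rw [sum_lift]
        exact sum_vec i i' j j' k k' a
      by_cases h05 : pos 0 = pos 5
      · by_cases h12 : pos 1 = pos 2
        · by_cases h34 : pos 3 = pos 4
          · exfalso
            apply hgood
            refine ⟨h05, h12, h34, fun h => ?_, fun h => ?_, fun h => ?_⟩
            · have := hty _ _ h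
              revert this
              decide
            · have := hty _ _ h
              revert this
              decide
            · have := hty _ _ h
              revert this
              decide
          · apply hsing 3
            intro b hb hbt
            have : b = 4 := by
              revert hb hbt
              revert b
              decide
            rw [this]
            exact fun h => h34 h.symm
        · apply hsing 1
          intro b hb hbt
          have : b = 2 := by
            revert hb hbt
            revert b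
            decide
          rw [this]
          exact fun h => h12 h.symm
      · apply hsing 0
        intro b hb hbt
        have : b = 5 := by
          revert hb hbt
          revert b
          decide
        rw [this]
        exact fun h => h05 h.symm

end vectors

end Run7.h128.PI
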