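import Pool.Agent.Run7.h128.PI.Rank

set_option autoImplicit false
set_option linter.unusedSectionVars false

/-!
# The dichotomy for permutation-invariant polynomials: the lower bound
-/

namespace Run7.h128.PI

open Finset MvPolynomial Run7.h128.SI Pool.Agent.H522R2 Pool.Agent.H522R2.Circuit
  Pool.Agent.W956.KF

/-! ### Multigraphs with the same data are isomorphic -/

section iso

variable {V ι : Type} [Fintype V] [DecidableEq V] [Fintype ι] [DecidableEq ι] {s q : ℕ}

theorem expo_inl (E : ι → Fin s × V × V) (χ : V → Fin q) (S T : Finset ι)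
    (c : Fin s × Fin q × Fin q) :
    expo E χ S T (Sum.inl c) = ∑ w ∈ S, if col E χ w = c then 1 else 0 := by
  unfold expo
  rw [Finsupp.add_apply, Finsupp.finsetSum_apply, Finsupp.finsetSum_apply]
  have h : ∑ w ∈ T \ S, (Finsupp.single (Sum.inr (col E χ w) :
      (Fin s × Fin q × Fin q) ⊕ (Fin s × Fin q × Fin q)) 1) (Sum.inl c) = 0 := by
    refine sum_eq_zero fun w _ => ?_
    rw [Finsupp.single_apply, if_neg (by simp)]
  rw [h, add_zero]
  refine sum_congr rfl fun w _ => ?_
  rw [Finsupp.single_apply]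
  simp only [Sum.inl.injEq]

theorem expo_inr (E : ι → Fin s × V × V) (χ : V → Fin q) (S T : Finset ι)
    (c : Fin s × Fin q × Fin q) :
    expo E χ S T (Sum.inr c) = ∑ w ∈ T \ S, if col E χ w = c then 1 else 0 := by
  unfold expo
  rw [Finsupp.add_apply, Finsupp.finsetSum_apply, Finsupp.finsetSum_apply]
  have h : ∑ w ∈ S, (Finsupp.single (Sum.inl (col E χ w) :
      (Fin s × Fin q × Fin q) ⊕ (Fin s × Fin q × Fin q)) 1) (Sum.inr c) = 0 := by
    refine sum_eq_zero fun w _ => ?_
    rw [Finsupp.single_apply, if_neg (by simp)]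
  rw [h, zero_add]
  refine sum_congr rfl fun w _ => ?_
  rw [Finsupp.single_apply]
  simp only [Sum.inr.injEq]

theorem card_col (E : ι → Fin s × V × V) (χ : V → Fin q) (x y z : ι) (hy : y ∈ univ.erase x)
    (hz : z ∈ (univ.erase x).erase y) (S : Finset ι) (hS : S ⊆ ((univ.erase x).erase y).erase z)
    (c : Fin s × Fin q × Fin q) :
    (univ.filter fun w => col E χ w = c).card =
      (if col E χ x = c then 1 else 0) + ((if col E χ y = c then 1 else 0) +
        ((if col E χ z = c then 1 else 0) +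
          (expo E χ S (((univ.erase x).erase y).erase z) (Sum.inr c) +
            expo E χ S (((univ.erase x).erase y).erase z) (Sum.inl c)))) := by
  rw [card_filter, ← Finset.add_sum_erase univ _ (mem_univ x), ← Finset.add_sum_erase _ _ hy,
    ← Finset.add_sum_erase _ _ hz, ← Finset.sum_sdiff hS, expo_inl, expo_inr]

end iso

theorem iso_of_expo {K : Type} [Field K] {s k e k₀ e₀ : ℕ} {E : Fin e → Fin s × Fin k × Fin k}
    {E₀ : Fin e₀ → Fin s × Fin k₀ × Fin k₀} (hE₀ : NoIso E₀) (hk : k ≤ k₀) (χ : Fin k → Fin k₀)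
    (x y z : Fin e) (hy : y ∈ univ.erase x) (hz : z ∈ (univ.erase x).erase y) (S : Finset (Fin e))
    (hS : S ⊆ ((univ.erase x).erase y).erase z)
    (x₀ y₀ z₀ : Fin e₀) (hy₀ : y₀ ∈ univ.erase x₀) (hz₀ : z₀ ∈ (univ.erase x₀).erase y₀)
    (S₀ : Finset (Fin e₀)) (hS₀ : S₀ ⊆ ((univ.erase x₀).erase y₀).erase z₀)
    (hcx : col E χ x = col E₀ id x₀) (hcy : col E χ y = col E₀ id y₀)
    (hcz : col E χ z = col E₀ id z₀)
    (hexp : expo E χ S (((univ.erase x).erase y).erase z) =
      expo E₀ id S₀ (((univ.erase x₀).erase y₀).erase z₀)) (M : Type) [Fintype M] :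
    (homG K E : MvPolynomial (Fin s × M × M) K) = homG K E₀ := by
  have hcard : ∀ c : Fin s × Fin k₀ × Fin k₀,
      Fintype.card {w // col E χ w = c} = Fintype.card {w // col E₀ id w = c} := by
    intro c
    rw [Fintype.card_subtype, Fintype.card_subtype, card_col E χ x y z hy hz S hS,
      card_col E₀ id x₀ y₀ z₀ hy₀ hz₀ S₀ hS₀, hcx, hcy, hcz, hexp]
  let β : Fin e ≃ Fin e₀ := Equiv.ofFiberEquiv (f := col E χ) (g := col E₀ id)
    fun c => Fintype.equivOfCardEq (hcard c)
  have hβ : ∀ w, col E₀ id (β w) = col E χ w := fun w => Equiv.ofFiberEquiv_map _ w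
  have hβ' : ∀ w, E₀ (β w) = ((E w).1, χ (E w).2.1, χ (E w).2.2) := fun w => hβ w
  have hsurj : Function.Surjective χ := by
    intro v
    obtain ⟨x', hx'⟩ := hE₀ v
    obtain ⟨w, rfl⟩ := β.surjective x'
    rw [hβ'] at hx'
    rcases hx' with h | h
    · exact ⟨_, h⟩
    · exact ⟨_, h⟩
  have hbij : Function.Bijective χ := by
    rw [Fintype.bijective_iff_surjective_and_card]
    refine ⟨hsurj, ?_⟩
    have := Fintype.card_le_of_surjective _ hsurj
    rw [Fintype.card_fin, Fintype.card_fin] at this ⊢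
    omega
  exact homG_equiv K E E₀ (Equiv.ofBijective χ hbij) β hβ'

/-! ### A representation -/

theorem exists_rep {K : Type} [Field K] {s d m : ℕ} {f : MvPolynomial (Fin s × Fin m × Fin m) K}
    (hf : f ∈ GraphSpan K s d m) :
    ∃ (c : MvPolynomial (Fin s × Fin m × Fin m) K →₀ K) (g : MvPolynomial (Fin s × Fin m × Fin m) K),
      g ∈ ForestSpan K s d m ∧
      (∀ p ∈ c.support, ∃ γ : (Σ k e : ℕ, (Fin e → Fin s × Fin k × Fin k)),
        γ.2.1 ≤ d ∧ NoIso γ.2.2 ∧ ¬ IsForest γ.2.2 ∧ homPoly K m γ.2.2 = p) ∧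
      f = (∑ p ∈ c.support, c p • p) + g := by
  have h1 : GraphSpan K s d m ≤ Submodule.span K {p | ∃ (k e : ℕ)
      (E : Fin e → Fin s × Fin k × Fin k), e ≤ d ∧ NoIso E ∧ ¬ IsForest E ∧
        p = homPoly K m E} ⊔ ForestSpan K s d m := by
    unfold GraphSpan
    rw [Submodule.span_le]
    rintro p ⟨k, e, E, he, hno, hp⟩
    by_cases hfor : IsForest E
    · exact Submodule.mem_sup_right (Submodule.subset_span ⟨k, e, E, he, hno, hfor, hp⟩)
    · exact Submodule.mem_sup_left (Submodule.subset_span ⟨k, e, E, he, hno, hfor, hp⟩)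
  obtain ⟨a, ha, g, hg, hag⟩ := Submodule.mem_sup.1 (h1 hf)
  rw [Submodule.mem_span_set] at ha
  obtain ⟨c, hc, hca⟩ := ha
  refine ⟨c, g, hg, ?_, ?_⟩
  · intro p hp
    obtain ⟨k, e, E, he, hno, hfor, hpE⟩ := hc hp
    exact ⟨⟨k, e, E⟩, he, hno, hfor, hpE.symm⟩
  · rw [← hag, ← hca]
    rfl

theorem vertices_le {s k e : ℕ} {E : Fin e → Fin s × Fin k × Fin k} (hE : NoIso E) :
    k ≤ 2 * e := by
  have h : Function.Surjective (fun p : Fin e × Bool => if p.2 then (E p.1).2.1 else
      (E p.1).2.2) := by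
    intro v
    obtain ⟨x, hx⟩ := hE v
    rcases hx with hx | hx
    · exact ⟨(x, true), by simpa using hx⟩
    · exact ⟨(x, false), by simpa using hx⟩
  have := Fintype.card_le_of_surjective _ h
  rw [Fintype.card_prod, Fintype.card_fin, Fintype.card_fin, Fintype.card_bool] at this
  omega

/-! ### The lower bound -/

/-- the third derivative as a linear functional -/
noncomputable def d3 {K W : Type} [Field K] [Fintype W] [DecidableEq W] (x₀ a b c : W → K) :
    MvPolynomial W K →ₗ[K] K where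
  toFun p := eval x₀ (dd a (dd b (dd c p)))
  map_add' p q := by rw [map_add, map_add, map_add, map_add]
  map_smul' r p := by
    rw [Derivation.map_smul, Derivation.map_smul, Derivation.map_smul, smul_eval,
      RingHom.id_apply, smul_eq_mul]

theorem span_third {K : Type} [Field K] [CharZero K] {s d m n : ℕ}
    {f : MvPolynomial (Fin s × Fin m × Fin m) K} (hf : f ∈ GraphSpan K s d m)
    (hn : f ∉ ForestSpan K s d m) (hm : 6 * d * (n + 1) ≤ m) :
    ∃ (x₀ : Fin s × Fin m × Fin m → K) (A B D : Fin n → Fin n → Fin s × Fin m × Fin m → K) (r : K),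
      r ≠ 0 ∧ ∀ i i' j j' k k', eval x₀ (dd (D k' i') (dd (B j' k) (dd (A i j) f))) =
        r * if i = i' ∧ j = j' ∧ k = k' then 1 else 0 := by
  classical
  obtain ⟨c, g, hg, hc, hfc⟩ := exists_rep hf
  have hne : c.support.Nonempty := by
    rw [Finset.nonempty_iff_ne_empty]
    intro h
    rw [h, sum_empty, zero_add] at hfc
    exact hn (hfc ▸ hg)
  have : Nonempty (Σ k e : ℕ, (Fin e → Fin s × Fin k × Fin k)) := ⟨⟨0, 0, fun x => x.elim0⟩⟩
  choose! γ h1 h2 h3 h4 using hc
  obtain ⟨p₀, hp₀, hmax⟩ := c.support.exists_max_image (fun p => (γ p).1) hne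
  obtain ⟨x, y, z, o, S, hy, hz, hS, hgood, hdist⟩ := exists_cycle (h3 p₀ hp₀)
  set E₀ := (γ p₀).2.2 with hE₀
  set κ := ![col E₀ id x, col E₀ id y, col E₀ id z] with hκ
  set M := expo E₀ id S (((univ.erase x).erase y).erase z) with hM
  have hother : ∀ p ∈ c.support, p ≠ p₀ → knat n (γ p).2.2 κ o M = 0 := by
    intro p hp hne
    by_contra hk
    obtain ⟨χ, x', y', z', S', hy', hz', hS', hcol, hex⟩ := exists_of_knat hk
    have := iso_of_expo (K := K) (h2 p₀ hp₀) (hmax p hp) χ x' y' z' hy' hz' S' hS' x y z hy hz S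
      hS hcol.1 hcol.2.1 hcol.2.2 (hex.trans hM) (Fin m)
    apply hne
    rw [← h4 p hp, ← h4 p₀ hp₀]
    exact this
  have hself : knat n (γ p₀).2.2 κ o M ≠ 0 :=
    knat_ne_zero id x y z hy hz S hS ⟨rfl, rfl, rfl⟩ rfl hgood
  -- a point at which the factor does not vanish
  let P : MvPolynomial ((Fin s × Fin (γ p₀).1 × Fin (γ p₀).1) ⊕
      (Fin s × Fin (γ p₀).1 × Fin (γ p₀).1)) K :=
    ∑ p ∈ c.support, MvPolynomial.C (c p) * kap n (γ p).2.2 κ o (fun t => X (Sum.inl t))
      (fun t => X (Sum.inr t))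
  have hP : P ≠ 0 := by
    intro h0
    have h5 : coeff M P = c p₀ * (knat n (γ p₀).2.2 κ o M : K) := by
      simp only [P, coeff_sum, coeff_C_mul, coeff_kap]
      rw [Finset.sum_eq_single p₀]
      · intro p hp hne
        rw [hother p hp hne, Nat.cast_zero, mul_zero]
      · intro h
        exact absurd hp₀ h
    rw [h0, coeff_zero] at h5
    have h6 : c p₀ ≠ 0 := Finsupp.mem_support_iff.1 hp₀
    have h7 : (knat n (γ p₀).2.2 κ o M : K) ≠ 0 := by exact_mod_cast hself
    exact mul_ne_zero h6 h7 h5.symm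
  obtain ⟨pt, hpt⟩ : ∃ pt, eval pt P ≠ 0 := by
    by_contra hcon
    push Not at hcon
    exact hP (MvPolynomial.funext fun x => by rw [hcon x, map_zero])
  set c' : Fin s × Fin (γ p₀).1 × Fin (γ p₀).1 → K := fun t => pt (Sum.inl t) with hc'
  set d' : Fin s × Fin (γ p₀).1 × Fin (γ p₀).1 → K := fun t => pt (Sum.inr t) with hd'
  have hr : eval pt P = ∑ p ∈ c.support, c p * kap n (γ p).2.2 κ o c' d' := by
    simp only [P, map_sum, map_mul, eval_C]
    refine sum_congr rfl fun p _ => ?_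
    rw [kap_map (eval pt)]
    simp only [eval_X]
    rfl
  -- the indices
  have hq : Fintype.card (Fin (γ p₀).1 × (Fin 3 × Fin (n + 1))) ≤ Fintype.card (Fin m) := by
    rw [Fintype.card_prod, Fintype.card_prod, Fintype.card_fin, Fintype.card_fin,
      Fintype.card_fin, Fintype.card_fin]
    have h5 := vertices_le (h2 p₀ hp₀)
    have h6 := h1 p₀ hp₀
    calc (γ p₀).1 * (3 * (n + 1)) ≤ (2 * d) * (3 * (n + 1)) := Nat.mul_le_mul_right _ (by omega)
      _ = 6 * d * (n + 1) := by ring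
      _ ≤ m := hm
  obtain ⟨η⟩ := Function.Embedding.nonempty_of_card_le hq
  have hη := η.injective
  refine ⟨ext (th s η) (base n c' d'),
    fun i j => ext (th s η) (dir (κ 0) (o 0) (lift 0 (uu i)) (lift 1 (uu j))),
    fun j k => ext (th s η) (dir (κ 1) (o 1) (lift 1 (vv j)) (lift 2 (uu k))),
    fun k i => ext (th s η) (dir (κ 2) (o 2) (lift 2 (vv k)) (lift 0 (vv i))),
    eval pt P, hpt, ?_⟩
  intro i i' j j' k k'
  rw [eval_ext (th_inj (s := s) hη), kill_dd, kill_dd, kill_dd]
  let L := d3 (base n c' d') (dir (κ 2) (o 2) (gg i i' j j' k k' 4) (gg i i' j j' k k' 5))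
      (dir (κ 1) (o 1) (gg i i' j j' k k' 2) (gg i i' j j' k k' 3))
      (dir (κ 0) (o 0) (gg i i' j j' k k' 0) (gg i i' j j' k k' 1))
  show L (killCompl (th_inj (s := s) hη) f) = _
  have hL : ∀ {k₁ e₁ : ℕ} (E : Fin e₁ → Fin s × Fin k₁ × Fin k₁), L (homG K E) =
      kap n E κ o c' d' * if i = i' ∧ j = j' ∧ k = k' then 1 else 0 := fun E =>
    third_hom E κ o c' d' i i' j j' k k'
  have hLg : L (killCompl (th_inj (s := s) hη) g) = 0 := by
    have h5 : ForestSpan K s d m ≤ LinearMap.ker (L.comp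
        (killCompl (th_inj (s := s) hη)).toLinearMap) := by
      unfold ForestSpan
      rw [Submodule.span_le]
      rintro p ⟨k₁, e₁, E, he, hno, hfor, hp⟩
      rw [SetLike.mem_coe, LinearMap.mem_ker, LinearMap.comp_apply, AlgHom.toLinearMap_apply, hp,
        kill_homPoly hη hno, hL, kap_forest hfor hdist, zero_mul]
    have h6 := h5 hg
    rwa [LinearMap.mem_ker, LinearMap.comp_apply, AlgHom.toLinearMap_apply] at h6
  rw [hfc, map_add, map_add, hLg, add_zero, map_sum, map_sum, hr, sum_mul]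
  refine sum_congr rfl fun p hp => ?_
  have h5 : killCompl (th_inj (s := s) hη) p = homG K (γ p).2.2 := by
    conv_lhs => rw [← h4 p hp]
    exact kill_homPoly hη (h2 p hp)
  rw [map_smul, map_smul, h5, hL, smul_eq_mul, mul_assoc]

theorem span_lower {K : Type} [Field K] [CharZero K] {s d m n : ℕ}
    {f : MvPolynomial (Fin s × Fin m × Fin m) K} (hf : f ∈ GraphSpan K s d m)
    (hn : f ∉ ForestSpan K s d m) (hm : 6 * d * (n + 1) ≤ m)
    (C : Circuit K (Fin s × Fin m × Fin m)) (v : Fin C.nodes) (hv : C.poly v = f) :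
    trank K n n n ≤ 6 * C.nonscalarCount := by
  obtain ⟨x₀, A, B, D, r, hr, h⟩ := span_third hf hn hm
  exact trank_le_of_third C v x₀ A B D r hr (by rw [hv]; exact h)

/-- **The lower bound.** -/
theorem perm_lower {K : Type} [Field K] [CharZero K] {s d m n : ℕ}
    {f : MvPolynomial (Fin s × Fin m × Fin m) K} (hf : PermInv f) (hd : f.totalDegree ≤ d)
    (hn : f ∉ ForestSpan K s d m) (hm : 6 * d * (n + 1) ≤ m)
    (C : Circuit K (Fin s × Fin m × Fin m)) (v : Fin C.nodes) (hv : C.poly v = f) :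
    trank K n n n ≤ 6 * C.nonscalarCount :=
  span_lower (hf.mem_span hd) hn hm C v hv

end Run7.h128.PI
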