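import Pool.Agent.Run7.h128.PI.Main1
import Pool.Agent.Run7.h128.PI.Forest
import Pool.Agent.W956.KF.IntMat

set_option autoImplicit false
set_option linter.unusedSectionVars false

/-!
# Sizes of circuits for permutation-invariant polynomials
-/

namespace Run7.h128.PI

open Finset MvPolynomial Filter Run7.h128.SI Pool.Agent.H522R2 Pool.Agent.H522R2.Circuit
  Pool.Agent.W956.KF Pool.Agent.H826R3.SM Pool.Agent.H88R3.MM

variable {K : Type} [Field K]

/-! ### Homomorphism polynomials of multigraphs with a cycle -/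

theorem homPoly_not_mem [CharZero K] {s d m k e : ℕ} {E : Fin e → Fin s × Fin k × Fin k}
    (hE : NoIso E) (hF : ¬ IsForest E) (hm : 6 * k ≤ m) : homPoly K m E ∉ ForestSpan K s d m := by
  classical
  intro hmem
  obtain ⟨x, y, z, o, S, hy, hz, hS, hgood, hdist⟩ := exists_cycle hF
  set κ := ![col E id x, col E id y, col E id z] with hκ
  set M := expo E id S (((univ.erase x).erase y).erase z) with hM
  have hself : knat 1 E κ o M ≠ 0 :=
    knat_ne_zero id x y z hy hz S hS ⟨rfl, rfl, rfl⟩ rfl hgood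
  let P : MvPolynomial ((Fin s × Fin k × Fin k) ⊕ (Fin s × Fin k × Fin k)) K :=
    kap 1 E κ o (fun t => X (Sum.inl t)) (fun t => X (Sum.inr t))
  have hP : P ≠ 0 := by
    intro h0
    have h5 : coeff M P = (knat 1 E κ o M : K) := coeff_kap E κ o M
    rw [h0, coeff_zero] at h5
    have h7 : (knat 1 E κ o M : K) ≠ 0 := by exact_mod_cast hself
    exact h7 h5.symm
  obtain ⟨pt, hpt⟩ : ∃ pt, eval pt P ≠ 0 := by
    by_contra hcon
    push Not at hcon
    exact hP (MvPolynomial.funext fun x => by rw [hcon x, map_zero])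
  set c' : Fin s × Fin k × Fin k → K := fun t => pt (Sum.inl t) with hc'
  set d' : Fin s × Fin k × Fin k → K := fun t => pt (Sum.inr t) with hd'
  have hr : eval pt P = kap 1 E κ o c' d' := by
    simp only [P]
    rw [kap_map (eval pt)]
    simp only [eval_X]
    rfl
  have hq : Fintype.card (Fin k × (Fin 3 × Fin (1 + 1))) ≤ Fintype.card (Fin m) := by
    rw [Fintype.card_prod, Fintype.card_prod, Fintype.card_fin, Fintype.card_fin,
      Fintype.card_fin, Fintype.card_fin]
    omega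
  obtain ⟨η⟩ := Function.Embedding.nonempty_of_card_le hq
  have hη := η.injective
  let i : Fin 1 := 0
  let L := d3 (base 1 c' d') (dir (κ 2) (o 2) (gg i i i i i i 4) (gg i i i i i i 5))
      (dir (κ 1) (o 1) (gg i i i i i i 2) (gg i i i i i i 3))
      (dir (κ 0) (o 0) (gg i i i i i i 0) (gg i i i i i i 1))
  have hL : ∀ {k₁ e₁ : ℕ} (E : Fin e₁ → Fin s × Fin k₁ × Fin k₁), L (homG K E) =
      kap 1 E κ o c' d' * if i = i ∧ i = i ∧ i = i then 1 else 0 := fun E =>
    third_hom E κ o c' d' i i i i i i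
  have h5 : ForestSpan K s d m ≤ LinearMap.ker (L.comp
      (killCompl (th_inj (s := s) hη)).toLinearMap) := by
    unfold ForestSpan
    rw [Submodule.span_le]
    rintro p ⟨k₁, e₁, E, he, hno, hfor, hp⟩
    rw [SetLike.mem_coe, LinearMap.mem_ker, LinearMap.comp_apply, AlgHom.toLinearMap_apply, hp,
      kill_homPoly hη hno, hL, kap_forest hfor hdist, zero_mul]
  have h6 := h5 hmem
  rw [LinearMap.mem_ker, LinearMap.comp_apply, AlgHom.toLinearMap_apply, kill_homPoly hη hE,
    hL, ← hr, if_pos ⟨rfl, rfl, rfl⟩, mul_one] at h6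
  exact hpt h6

theorem homPoly_permInv {s m k e : ℕ} (E : Fin e → Fin s × Fin k × Fin k) :
    PermInv (homPoly K m E) := by
  intro σ
  unfold homPoly
  rw [map_sum]
  refine Fintype.sum_equiv (Equiv.arrowCongr (Equiv.refl (Fin k)) σ) _ _ fun φ => ?_
  rw [map_prod]
  refine prod_congr rfl fun x _ => ?_
  rw [rename_X]
  rfl

theorem homPoly_degree {s m k e : ℕ} (E : Fin e → Fin s × Fin k × Fin k) :
    (homPoly K m E).totalDegree ≤ e := by
  unfold homPoly
  refine totalDegree_finsetSum_le fun φ _ => ?_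
  refine (totalDegree_finsetProd _ _).trans ?_
  refine (sum_le_sum fun x _ => (totalDegree_X _).le).trans ?_
  simp

/-! ### The triangle -/

/-- the directed triangle with the label `l` -/
def tri {s : ℕ} (l : Fin s) : Fin 3 → Fin s × Fin 3 × Fin 3 :=
  ![(l, 0, 1), (l, 1, 2), (l, 2, 0)]

theorem tri_noIso {s : ℕ} (l : Fin s) : NoIso (tri l) := by
  intro v
  fin_cases v
  · exact ⟨0, Or.inl rfl⟩
  · exact ⟨1, Or.inl rfl⟩
  · exact ⟨2, Or.inl rfl⟩

theorem tri_not_forest {s : ℕ} (l : Fin s) : ¬ IsForest (tri l) := by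
  intro h
  unfold IsForest at h
  refine h.cliqueFree le_rfl {0, 1, 2} ?_
  rw [SimpleGraph.is3Clique_triple_iff]
  unfold und
  refine ⟨?_, ?_, ?_⟩
  · rw [SimpleGraph.fromRel_adj]
    exact ⟨by decide, Or.inl ⟨0, rfl⟩⟩
  · rw [SimpleGraph.fromRel_adj]
    exact ⟨by decide, Or.inr ⟨2, rfl⟩⟩
  · rw [SimpleGraph.fromRel_adj]
    exact ⟨by decide, Or.inl ⟨1, rfl⟩⟩

/-- maps of three points -/
def fun3 (m : ℕ) : (Fin 3 → Fin m) ≃ Fin m × Fin m × Fin m where
  toFun φ := (φ 0, φ 1, φ 2)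
  invFun p := ![p.1, p.2.1, p.2.2]
  left_inv φ := by
    funext i
    fin_cases i <;> rfl
  right_inv p := rfl

theorem tri_eq {s : ℕ} (m : ℕ) (l : Fin s) : homPoly K m (tri l) =
    ∑ a, ∑ b, ∑ c, X (l, a, b) * X (l, b, c) * X (l, c, a) := by
  unfold homPoly
  rw [← Equiv.sum_comp (fun3 m).symm, Fintype.sum_prod_type]
  refine sum_congr rfl fun a _ => ?_
  rw [Fintype.sum_prod_type]
  refine sum_congr rfl fun b _ => sum_congr rfl fun c _ => ?_
  rw [Fin.prod_univ_three]
  rfl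

theorem cost_tri {s : ℕ} (m : ℕ) (l : Fin s) : Cost (inputs K (Fin s × Fin m × Fin m))
    {homPoly K m (tri l)} (sizeMM K m + 2 * m ^ 2) := by
  let φ : MvPolynomial (Vars m) K →+* MvPolynomial (Fin s × Fin m × Fin m) K :=
    MvPolynomial.eval₂Hom MvPolynomial.C (Sum.elim (fun v => MvPolynomial.X (l, v))
      (fun v => MvPolynomial.X (l, v)))
  have h1 : Cost (inputs K (Fin s × Fin m × Fin m)) (φ '' outMM K m) (sizeMM K m) := by
    refine ((cost_MM_sizeMM K m).map φ).mono ?_ subset_rfl le_rfl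
    rintro _ ⟨_, ⟨v, rfl⟩ | ⟨c, rfl⟩, rfl⟩
    · rcases v with v | v
      · exact Or.inl ⟨(l, v), by simp [φ]⟩
      · exact Or.inl ⟨(l, v), by simp [φ]⟩
    · exact Or.inr ⟨c, by simp [φ]⟩
  have h2 : Cost (inputs K (Fin s × Fin m × Fin m) ∪ φ '' outMM K m)
      {∑ t : Fin m × Fin m, φ (entryMM K m t.1 t.2) * MvPolynomial.X (l, t.2, t.1)}
      (2 * Fintype.card (Fin m × Fin m)) := by
    have h0 : (0 : MvPolynomial (Fin s × Fin m × Fin m) K) ∈ inputs K (Fin s × Fin m × Fin m) :=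
      Or.inr ⟨0, by simp⟩
    refine Cost.sum_mul (Set.mem_union_left _ h0) _ _ ?_ ?_
    · intro t
      exact Or.inr ⟨_, ⟨t, rfl⟩, rfl⟩
    · intro t
      exact Or.inl (X_mem_inputs _)
  refine (h1.comp h2).mono subset_rfl ?_ ?_
  · rintro _ rfl
    right
    show homPoly K m (tri l) = _
    rw [tri_eq, Fintype.sum_prod_type]
    refine Finset.sum_congr rfl fun i _ => ?_
    rw [sum_comm]
    refine Finset.sum_congr rfl fun j _ => ?_
    unfold entryMM
    rw [map_sum, sum_mul]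
    refine Finset.sum_congr rfl fun k _ => ?_
    simp [φ]
  · rw [Fintype.card_prod, Fintype.card_fin]
    apply le_of_eq
    ring

variable [CharZero K]

theorem trank_le_two_sizeMM (m : ℕ) : trank K m m m ≤ 2 * sizeMM K m := by
  obtain ⟨B, h1, -⟩ := exists_hard K m
  have h2 := sizeKnown_le_sizeMM (B.map (fun z => ((z : ℤ) : K)))
  omega

theorem exists_circuit_tri {s : ℕ} (m : ℕ) (l : Fin s) :
    ∃ (C : Circuit K (Fin s × Fin m × Fin m)) (v : Fin C.nodes),
      C.poly v = homPoly K m (tri l) ∧ C.size ≤ sizeMM K m + 2 * m ^ 2 ∧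
        C.size ≤ 5 * sizeMM K m := by
  obtain ⟨C, h1, h2⟩ := exists_circuit_of_cost (Set.finite_singleton _) (cost_tri (K := K) m l)
  obtain ⟨v, hv⟩ := h2 _ rfl
  refine ⟨C, v, hv, h1, h1.trans ?_⟩
  have h3 := trank_le_two_sizeMM (K := K) m
  have h4 := sq_le_trank K m
  omega

/-! ### No such polynomial is free -/

theorem const_mem {s d m : ℕ} (c : K) :
    (MvPolynomial.C c : MvPolynomial (Fin s × Fin m × Fin m) K) ∈ ForestSpan K s d m := by
  have h1 : (MvPolynomial.C c : MvPolynomial (Fin s × Fin m × Fin m) K) =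
      c • homPoly K m (fun x : Fin 0 => (x.elim0 : Fin s × Fin 0 × Fin 0)) := by
    unfold homPoly
    simp [smul_eq_C_mul]
  rw [h1]
  refine Submodule.smul_mem _ _ (Submodule.subset_span ⟨0, 0, _, Nat.zero_le _, ?_, ?_, rfl⟩)
  · intro v
    exact v.elim0
  · exact SimpleGraph.IsAcyclic.of_subsingleton

theorem size_pos' {s d m : ℕ} {f : MvPolynomial (Fin s × Fin m × Fin m) K} (hf : PermInv f)
    (hd : f.totalDegree ≤ d) (hn : f ∉ ForestSpan K s d m)
    (C : Circuit K (Fin s × Fin m × Fin m)) (v : Fin C.nodes) (hv : C.poly v = f) :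
    1 ≤ C.size := by
  classical
  by_contra hcon
  have h0 : C.size = 0 := by omega
  unfold Circuit.size at h0
  rw [Nat.card_eq_zero] at h0
  have h1 : ¬ ((∃ i j, C.gate v = Gate.add i j) ∨ ∃ i j, C.gate v = Gate.mul i j) := by
    intro h
    rcases h0 with h0 | h0
    · exact h0.elim ⟨v, h⟩
    · exact not_finite_iff_infinite.2 h0 inferInstance
  apply hn
  rw [Circuit.poly] at hv
  cases hg : C.gate v with
  | const c =>
    rw [hg] at hv
    simp only at hv
    rw [← hv]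
    exact const_mem c
  | add i j => exact absurd (Or.inl ⟨i, j, hg⟩) h1
  | mul i j => exact absurd (Or.inr ⟨i, j, hg⟩) h1
  | var p =>
    rw [hg] at hv
    simp only at hv
    have hp : ∀ σ : Equiv.Perm (Fin m), (p.1, σ p.2.1, σ p.2.2) = p := by
      intro σ
      have h2 := hf σ
      rw [← hv, rename_X] at h2
      exact X_injective h2
    have hall : ∀ a, a = p.2.1 := by
      intro a
      have h2 := congrArg (fun t => t.2.1) (hp (Equiv.swap p.2.1 a))
      simp only [Equiv.swap_apply_left] at h2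
      exact h2
    have hd1 : 1 ≤ d := by
      rw [← hv, totalDegree_X] at hd
      exact hd
    refine Submodule.subset_span ⟨1, 1, fun _ => (p.1, 0, 0), hd1, ?_, ?_, ?_⟩
    · intro v'
      exact ⟨0, Or.inl (Subsingleton.elim _ _)⟩
    · exact SimpleGraph.IsAcyclic.of_subsingleton
    · rw [← hv]
      unfold homPoly
      rw [Finset.sum_eq_single (fun _ => p.2.1)]
      · rw [Fin.prod_univ_one]
        congr 1
        have : p.2.2 = p.2.1 := hall p.2.2
        ext <;> simp [this]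
      · intro φ _ hφ
        exact absurd (funext fun t => hall (φ t)) hφ
      · intro h
        exact absurd (mem_univ _) h

/-! ### The least size -/

/-- The least size of a circuit over `K` which computes some polynomial in the entries of `s`
generic `m × m` matrices of degree at most `d`, invariant under simultaneous permutations of the rows
and columns, which is not a linear combination of homomorphism polynomials of forests. -/
noncomputable def permSize (K : Type) [Field K] (s d m : ℕ) : ℕ :=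
  sInf {t | ∃ (f : MvPolynomial (Fin s × Fin m × Fin m) K) (C : Circuit K (Fin s × Fin m × Fin m))
    (v : Fin C.nodes), PermInv f ∧ f.totalDegree ≤ d ∧ f ∉ ForestSpan K s d m ∧ C.poly v = f ∧
      C.size = t}

section least

variable {s d : ℕ}

theorem permSize_le_of {m : ℕ} {f : MvPolynomial (Fin s × Fin m × Fin m) K}
    {C : Circuit K (Fin s × Fin m × Fin m)} {v : Fin C.nodes} (h1 : PermInv f)
    (h2 : f.totalDegree ≤ d) (h3 : f ∉ ForestSpan K s d m) (h4 : C.poly v = f) :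
    permSize K s d m ≤ C.size :=
  Nat.sInf_le (s := {t | ∃ (f : MvPolynomial (Fin s × Fin m × Fin m) K)
    (C : Circuit K (Fin s × Fin m × Fin m)) (v : Fin C.nodes), PermInv f ∧ f.totalDegree ≤ d ∧
      f ∉ ForestSpan K s d m ∧ C.poly v = f ∧ C.size = t}) ⟨f, C, v, h1, h2, h3, h4, rfl⟩

theorem permSize_le {m : ℕ} (hs : 1 ≤ s) (hd : 3 ≤ d) (hm : 18 ≤ m) :
    permSize K s d m ≤ sizeMM K m + 2 * m ^ 2 ∧ permSize K s d m ≤ 5 * sizeMM K m := by
  obtain ⟨C, v, h1, h2, h3⟩ := exists_circuit_tri (K := K) (s := s) m ⟨0, hs⟩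
  have h4 : permSize K s d m ≤ C.size := permSize_le_of (homPoly_permInv _)
    ((homPoly_degree _).trans hd) (homPoly_not_mem (tri_noIso _) (tri_not_forest _) hm) h1
  exact ⟨h4.trans h2, h4.trans h3⟩

theorem exists_permSize {m : ℕ} (hs : 1 ≤ s) (hd : 3 ≤ d) (hm : 18 ≤ m) :
    ∃ (f : MvPolynomial (Fin s × Fin m × Fin m) K) (C : Circuit K (Fin s × Fin m × Fin m))
      (v : Fin C.nodes), PermInv f ∧ f.totalDegree ≤ d ∧ f ∉ ForestSpan K s d m ∧
        C.poly v = f ∧ C.size = permSize K s d m := by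
  obtain ⟨C, v, h1, h2, h3⟩ := exists_circuit_tri (K := K) (s := s) m ⟨0, hs⟩
  exact Nat.sInf_mem (s := {t | ∃ (f : MvPolynomial (Fin s × Fin m × Fin m) K)
    (C : Circuit K (Fin s × Fin m × Fin m)) (v : Fin C.nodes), PermInv f ∧ f.totalDegree ≤ d ∧
      f ∉ ForestSpan K s d m ∧ C.poly v = f ∧ C.size = t})
    ⟨_, homPoly K m (tri ⟨0, hs⟩), C, v, homPoly_permInv _,
    (homPoly_degree _).trans hd, homPoly_not_mem (tri_noIso _) (tri_not_forest _) hm, h1, rfl⟩

theorem trank_zero'' : trank K 0 0 0 = 0 := by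
  have h0 : RankLE K 0 0 0 0 := ⟨fun l => l.elim0, fun l => l.elim0, fun l => l.elim0,
    fun i => i.elim0⟩
  exact Nat.le_zero.1 (Nat.sInf_le h0)

theorem trank_le_permSize (hs : 1 ≤ s) (hd : 3 ≤ d) (q : ℕ) :
    trank K q q q ≤ 6 * permSize K s d (12 * d * q) := by
  rcases Nat.eq_zero_or_pos q with hq | hq
  · subst hq
    rw [trank_zero'']
    exact Nat.zero_le _
  · have hm : 18 ≤ 12 * d * q := by nlinarith
    obtain ⟨f, C, v, h1, h2, h3, h4, h5⟩ := exists_permSize (K := K) hs hd hm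
    have h6 := perm_lower (n := q) h1 h2 h3 (by nlinarith) C v h4
    have h7 := (C.nonscalarCount_le_mulCount).trans C.mulCount_le_size
    omega

theorem permSize_zero : permSize K s d 0 = 0 := by
  have h : {t | ∃ (f : MvPolynomial (Fin s × Fin 0 × Fin 0) K)
      (C : Circuit K (Fin s × Fin 0 × Fin 0)) (v : Fin C.nodes), PermInv f ∧
      f.totalDegree ≤ d ∧ f ∉ ForestSpan K s d 0 ∧ C.poly v = f ∧ C.size = t} = ∅ := by
    apply Set.eq_empty_of_forall_notMem
    rintro t ⟨f, C, v, -, -, h3, -⟩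
    apply h3
    rw [MvPolynomial.eq_C_of_isEmpty f]
    exact const_mem _
  unfold permSize
  rw [h, Nat.sInf_empty]

theorem permSize_upper (hs : 1 ≤ s) (hd : 3 ≤ d) {τ : ℝ} (hτ : omegaMM K < τ) :
    ∃ D : ℝ, ∀ m : ℕ, (permSize K s d m : ℝ) ≤ D * (m : ℝ) ^ τ := by
  obtain ⟨D, hD⟩ := sizeMM_upper (K := K) hτ
  have hτ0 : 0 < τ := lt_of_le_of_lt omega_nonneg hτ
  have hD0 : 0 ≤ D := by
    have := hD 1
    simp only [Nat.cast_one, Real.one_rpow, mul_one] at this
    exact le_trans (Nat.cast_nonneg _) this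
  obtain ⟨B, hB⟩ : ∃ B : ℕ, ∀ m, m < 18 → permSize K s d m ≤ B :=
    ⟨∑ j ∈ range 18, permSize K s d j, fun m hm => Finset.single_le_sum
      (f := fun j => permSize K s d j) (fun _ _ => Nat.zero_le _) (Finset.mem_range.2 hm)⟩
  refine ⟨5 * D + B, fun m => ?_⟩
  rcases Nat.eq_zero_or_pos m with hm | hm
  · subst hm
    rw [permSize_zero]
    simp [Real.zero_rpow hτ0.ne']
  · have hm1 : (1 : ℝ) ≤ (m : ℝ) ^ τ :=
      Real.one_le_rpow (by exact_mod_cast hm) hτ0.le
    have hB0 : (0 : ℝ) ≤ B := Nat.cast_nonneg _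
    rcases Nat.lt_or_ge m 18 with h3 | h3
    · have h4 : (permSize K s d m : ℝ) ≤ B := by
        exact_mod_cast hB m h3
      calc (permSize K s d m : ℝ) ≤ B * 1 := by linarith
        _ ≤ (5 * D + B) * (m : ℝ) ^ τ := by
            apply mul_le_mul _ hm1 zero_le_one (by positivity)
            linarith
    · have h4 : (permSize K s d m : ℝ) ≤ 5 * (sizeMM K m : ℝ) := by
        exact_mod_cast (permSize_le hs hd h3).2
      have h5 := hD m
      have h6 : (0 : ℝ) ≤ B * (m : ℝ) ^ τ := by positivity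
      calc (permSize K s d m : ℝ) ≤ 5 * (D * (m : ℝ) ^ τ) := by linarith
        _ ≤ (5 * D + B) * (m : ℝ) ^ τ := by
            linarith [add_mul (5 * D) (B : ℝ) ((m : ℝ) ^ τ), mul_assoc (5 : ℝ) D ((m : ℝ) ^ τ)]

theorem growth_permSize (hs : 1 ≤ s) (hd : 3 ≤ d) : growth (permSize K s d) = omegaMM K := by
  have hlow : ∀ τ ∈ {τ : ℝ | ∃ D : ℝ, ∀ m : ℕ, (permSize K s d m : ℝ) ≤ D * (m : ℝ) ^ τ},
      omegaMM K ≤ τ := by
    rintro τ ⟨D, hD⟩
    refine omega_le_of_infinite (f := fun q => permSize K s d (12 * d * q)) (c := 6)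
      (trank_le_permSize hs hd) (τ := τ) (D := D * ((12 * d : ℕ) : ℝ) ^ τ) ?_
    have : {m : ℕ | (permSize K s d (12 * d * m) : ℝ) ≤
        D * ((12 * d : ℕ) : ℝ) ^ τ * (m : ℝ) ^ τ} = Set.univ := by
      apply Set.eq_univ_of_forall
      intro q
      have h1 := hD (12 * d * q)
      show (permSize K s d (12 * d * q) : ℝ) ≤ D * ((12 * d : ℕ) : ℝ) ^ τ * (q : ℝ) ^ τ
      rw [mul_assoc D, ← Real.mul_rpow (Nat.cast_nonneg _) (Nat.cast_nonneg _), ← Nat.cast_mul]
      exact h1
    rw [this]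
    exact Set.infinite_univ
  apply le_antisymm
  · refine le_of_forall_pos_le_add fun ε hε => ?_
    exact csInf_le ⟨omegaMM K, hlow⟩ (permSize_upper hs hd (by linarith))
  · refine le_csInf ?_ hlow
    exact ⟨_, permSize_upper hs hd (lt_add_one _)⟩

/-! ### Superlinear lower bounds -/

/-- a uniform superlinear lower bound for all permutation-invariant polynomials of degree at most
`d` beyond the combinations of homomorphism polynomials of forests -/
def PermSuperlinear (K : Type) [Field K] (s d : ℕ) : Prop :=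
  ∃ α : ℝ, 1 < α ∧ ∃ c : ℝ, 0 < c ∧ ∀ (m : ℕ) (f : MvPolynomial (Fin s × Fin m × Fin m) K),
    PermInv f → f.totalDegree ≤ d → f ∉ ForestSpan K s d m →
    ∀ (C : Circuit K (Fin s × Fin m × Fin m)) (v : Fin C.nodes), C.poly v = f →
      c * ((m : ℝ) ^ 2) ^ α ≤ C.size

theorem superlinear_mm' : Superlinear (sizeMM K) ↔ 2 < omegaMM K :=
  superlinear_iff (K := K) (f := sizeMM K) (c := 2) (by norm_num) trank_le_two_sizeMM
    fun _ hτ => sizeMM_upper hτ

theorem permSuperlinear_of_omega (hd : 3 ≤ d) (h : 2 < omegaMM K) : PermSuperlinear K s d := by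
  set w := omegaMM K with hw
  have hc : (0 : ℝ) < 1 / (6 * ((18 * d : ℕ) : ℝ) ^ w) := by
    have : (0 : ℝ) < ((18 * d : ℕ) : ℝ) := by
      exact_mod_cast (by omega : 0 < 18 * d)
    positivity
  refine ⟨w / 2, by linarith, 1 / (6 * ((18 * d : ℕ) : ℝ) ^ w), hc,
    fun m f hf hdeg hn C v hv => ?_⟩
  have hD0 : (0 : ℝ) < ((18 * d : ℕ) : ℝ) := by
    exact_mod_cast (by omega : 0 < 18 * d)
  have e1 : ((m : ℝ) ^ 2) ^ (w / 2) = (m : ℝ) ^ w := by
    rw [← Real.rpow_natCast (m : ℝ) 2, ← Real.rpow_mul (Nat.cast_nonneg _)]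
    congr 1
    push_cast
    ring
  rw [e1, div_mul_eq_mul_div, one_mul, div_le_iff₀ (by positivity)]
  have hw0 : 0 < w := by linarith
  have hs : (1 : ℝ) ≤ C.size := by exact_mod_cast size_pos' hf hdeg hn C v hv
  rcases Nat.lt_or_ge m (12 * d) with h6 | h6
  · have h1 : (m : ℝ) ^ w ≤ ((18 * d : ℕ) : ℝ) ^ w := by
      apply Real.rpow_le_rpow (Nat.cast_nonneg _) _ hw0.le
      have : m ≤ 18 * d := by omega
      exact_mod_cast this
    have h2 : ((18 * d : ℕ) : ℝ) ^ w ≤ C.size * (6 * ((18 * d : ℕ) : ℝ) ^ w) := by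
      have h3 : (0 : ℝ) < ((18 * d : ℕ) : ℝ) ^ w := by positivity
      nlinarith
    linarith
  · obtain ⟨q, hq⟩ : ∃ q, m / (6 * d) = q + 1 := by
      have : 1 ≤ m / (6 * d) := by
        rw [Nat.le_div_iff_mul_le (by omega)]
        omega
      exact ⟨m / (6 * d) - 1, by omega⟩
    have hq1 : 1 ≤ q := by
      have : 2 ≤ m / (6 * d) := by
        rw [Nat.le_div_iff_mul_le (by omega)]
        omega
      omega
    have h0 : 6 * d * (q + 1) ≤ m := by
      rw [← hq]
      exact Nat.mul_div_le m (6 * d)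
    have h1 : m ≤ 18 * d * q := by
      have h2 : m < 6 * d * (m / (6 * d) + 1) := Nat.lt_mul_div_succ m (by omega)
      rw [hq] at h2
      nlinarith
    have h2 := perm_lower hf hdeg hn h0 C v hv
    have h3 := (C.nonscalarCount_le_mulCount).trans C.mulCount_le_size
    have h4 := rpow_omega_le K q hq1
    have h5 : (trank K q q q : ℝ) ≤ 6 * C.size := by
      have : trank K q q q ≤ 6 * C.size := by omega
      exact_mod_cast this
    have h6' : (m : ℝ) ^ w ≤ (((18 * d : ℕ) : ℝ) * q) ^ w := by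
      apply Real.rpow_le_rpow (Nat.cast_nonneg _) _ hw0.le
      exact_mod_cast h1
    rw [Real.mul_rpow (Nat.cast_nonneg _) (Nat.cast_nonneg _)] at h6'
    have h7 : ((18 * d : ℕ) : ℝ) ^ w * (q : ℝ) ^ w ≤
        ((18 * d : ℕ) : ℝ) ^ w * (6 * C.size) :=
      mul_le_mul_of_nonneg_left (h4.trans h5) (by positivity)
    calc (m : ℝ) ^ w ≤ ((18 * d : ℕ) : ℝ) ^ w * (q : ℝ) ^ w := h6'
      _ ≤ ((18 * d : ℕ) : ℝ) ^ w * (6 * C.size) := h7
      _ = C.size * (6 * ((18 * d : ℕ) : ℝ) ^ w) := by ring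

theorem omega_of_permSuperlinear (hs : 1 ≤ s) (hd : 3 ≤ d) (h : PermSuperlinear K s d) :
    2 < omegaMM K := by
  obtain ⟨α, hα, c, hc, h⟩ := h
  have hf : ∀ m, trank K m m m ≤ 1 * (5 * sizeMM K m) := by
    intro m
    have := trank_le_two_sizeMM (K := K) m
    omega
  have hup : ∀ τ, omegaMM K < τ →
      ∃ D : ℝ, ∀ m : ℕ, ((5 * sizeMM K m : ℕ) : ℝ) ≤ D * (m : ℝ) ^ τ := by
    intro τ hτ
    obtain ⟨D, hD⟩ := sizeMM_upper (K := K) hτ
    refine ⟨5 * D, fun m => ?_⟩
    push_cast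
    linarith [hD m, mul_assoc (5 : ℝ) D ((m : ℝ) ^ τ)]
  rw [← superlinear_iff (K := K) (f := fun m => 5 * sizeMM K m) (c := 1) one_pos hf hup]
  refine ⟨α, hα, min c (1 / (324 : ℝ) ^ α), by positivity, fun m => ?_⟩
  have hm0 : (0 : ℝ) ≤ ((m : ℝ) ^ 2) ^ α := by positivity
  rcases Nat.lt_or_ge m 18 with h3 | h3
  · rcases Nat.eq_zero_or_pos m with hm | hm
    · subst hm
      rw [Nat.cast_zero, zero_pow two_ne_zero, Real.zero_rpow (by linarith), mul_zero]
      exact Nat.cast_nonneg _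
    · have h1 : ((m : ℝ) ^ 2) ^ α ≤ (324 : ℝ) ^ α := by
        apply Real.rpow_le_rpow (by positivity) _ (by linarith)
        have : m ^ 2 ≤ 324 := by nlinarith
        exact_mod_cast this
      have h2 : min c (1 / (324 : ℝ) ^ α) * ((m : ℝ) ^ 2) ^ α ≤
          1 / (324 : ℝ) ^ α * (324 : ℝ) ^ α :=
        mul_le_mul (min_le_right _ _) h1 hm0 (by positivity)
      have h4 : 1 / (324 : ℝ) ^ α * (324 : ℝ) ^ α = 1 := by
        field_simp
      rw [h4] at h2
      have h5 : 1 ≤ 5 * sizeMM K m := by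
        have h6 := trank_le_two_sizeMM (K := K) m
        have h7 := sq_le_trank K m
        have h8 : 1 ≤ m ^ 2 := Nat.one_le_pow _ _ hm
        omega
      have h6 : (1 : ℝ) ≤ ((5 * sizeMM K m : ℕ) : ℝ) := by exact_mod_cast h5
      exact h2.trans h6
  · obtain ⟨C, v, h1, -, h2⟩ := exists_circuit_tri (K := K) (s := s) m ⟨0, hs⟩
    have h4 := h m (homPoly K m (tri ⟨0, hs⟩)) (homPoly_permInv _)
      ((homPoly_degree _).trans hd) (homPoly_not_mem (tri_noIso _) (tri_not_forest _) h3) C v h1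
    have h5 : (C.size : ℝ) ≤ ((5 * sizeMM K m : ℕ) : ℝ) := by exact_mod_cast h2
    have h6 : min c (1 / (324 : ℝ) ^ α) * ((m : ℝ) ^ 2) ^ α ≤ c * ((m : ℝ) ^ 2) ^ α :=
      mul_le_mul_of_nonneg_right (min_le_left _ _) hm0
    exact (h6.trans h4).trans h5

theorem superlinear_perm (hs : 1 ≤ s) (hd : 3 ≤ d) :
    Superlinear (sizeMM K) ↔ PermSuperlinear K s d :=
  ⟨fun h => permSuperlinear_of_omega hd (superlinear_mm'.1 h),
    fun h => superlinear_mm'.2 (omega_of_permSuperlinear hs hd h)⟩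

end least

end Run7.h128.PI
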