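import Pool.Agent.Run7.h128.PI.Main2
import Pool.Agent.Run7.h128.PI.Grad

set_option autoImplicit false
set_option linter.unusedSectionVars false

/-!
# Equivariant polynomial maps
-/

namespace Run7.h128.PI

open Finset MvPolynomial Filter Run7.h128.SI Pool.Agent.H522R2 Pool.Agent.H522R2.Circuit
  Pool.Agent.W956.KF Pool.Agent.H826R3.SM Pool.Agent.H88R3.MM

/-! ### Derivatives at all nodes -/

section jets

variable {K V : Type} [Field K] [Fintype V] [DecidableEq V]

theorem jets (C : Circuit K V) (x₀ : V → K) :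
    ∃ (P Q : Fin C.nodes → (V → K) → K) (κ : Fin C.nodes → Fin C.nodes → K)
      (R : Fin C.nodes → Fin C.nodes → (V → K) → K),
      (∀ k a b, eval x₀ (dd a (dd b (C.poly k))) = ∑ h ∈ NS C,
        κ k h * (P h a * Q h b + P h b * Q h a)) ∧
      (∀ k a b c, eval x₀ (dd a (dd b (dd c (C.poly k)))) = ∑ h ∈ NS C,
        ((P h b * Q h c + P h c * Q h b) * R k h a + (P h a * Q h c + P h c * Q h a) * R k h b +
          (P h a * Q h b + P h b * Q h a) * R k h c)) := by
  classical
  choose κ ℓ hℓ hκ using decomp C x₀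
  have h2 : ∀ k a b, eval x₀ (dd a (dd b (C.poly k))) = ∑ h ∈ NS C, κ k h *
      (l1 x₀ (pin C h) a * l1 x₀ (qin C h) b + l1 x₀ (pin C h) b * l1 x₀ (qin C h) a) :=
    fun k a b => second C x₀ k (κ k) (ℓ k) (hℓ k) (hκ k) a b
  refine ⟨fun h => l1 x₀ (pin C h), fun h => l1 x₀ (qin C h), κ,
    fun k h a => ∑ g ∈ NS C, κ k g * (κ (opd C g true) h * l1 x₀ (pin C g) a +
      κ (opd C g false) h * l1 x₀ (qin C g) a), h2, fun k a b c => ?_⟩
  rw [third C x₀ k (κ k) (ℓ k) (hℓ k) (hκ k) a b c]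
  have hq : ∀ g a b, eval x₀ (dd a (dd b (qin C g))) = ∑ h ∈ NS C, κ (opd C g true) h *
      (l1 x₀ (pin C h) a * l1 x₀ (qin C h) b + l1 x₀ (pin C h) b * l1 x₀ (qin C h) a) :=
    fun g a b => h2 (opd C g true) a b
  have hp : ∀ g a b, eval x₀ (dd a (dd b (pin C g))) = ∑ h ∈ NS C, κ (opd C g false) h *
      (l1 x₀ (pin C h) a * l1 x₀ (qin C h) b + l1 x₀ (pin C h) b * l1 x₀ (qin C h) a) :=
    fun g a b => h2 (opd C g false) a b
  simp only [hq, hp]
  simp only [mul_sum, ← sum_add_distrib]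
  rw [sum_comm]
  refine sum_congr rfl fun h _ => sum_congr rfl fun g _ => ?_
  ring

/-- the rank from an identity -/
theorem trank_le_of_identity {X : Type} {N n : ℕ} (H : Finset (Fin N)) (P Q R : Fin N → X → K)
    (A B D : Fin n → Fin n → X) (r : K) (hr : r ≠ 0)
    (h : ∀ i i' j j' k k', ∑ h ∈ H, ((P h (B j' k) * Q h (A i j) + P h (A i j) * Q h (B j' k)) *
      R h (D k' i') + (P h (D k' i') * Q h (A i j) + P h (A i j) * Q h (D k' i')) * R h (B j' k) +
      (P h (D k' i') * Q h (B j' k) + P h (B j' k) * Q h (D k' i')) * R h (A i j)) =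
      r * if i = i' ∧ j = j' ∧ k = k' then 1 else 0) :
    trank K n n n ≤ 6 * H.card := by
  have h2 := SI.rankLE_of_fintype (K := K) (ι := {h // h ∈ H} × Fin 6)
    (fun t => Matrix.of fun i j => (![Q t.1 (A i j), P t.1 (A i j), Q t.1 (A i j),
      P t.1 (A i j), R t.1 (A i j), R t.1 (A i j)] t.2))
    (fun t => Matrix.of fun j k => (![P t.1 (B j k), Q t.1 (B j k), R t.1 (B j k),
      R t.1 (B j k), Q t.1 (B j k), P t.1 (B j k)] t.2) * r⁻¹)
    (fun t => Matrix.of fun i k => (![R t.1 (D k i), R t.1 (D k i), P t.1 (D k i),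
      Q t.1 (D k i), P t.1 (D k i), Q t.1 (D k i)] t.2)) ?_
  · have h3 : RankLE K n n n (6 * H.card) := by
      refine h2.mono ?_
      rw [Fintype.card_prod, Fintype.card_coe, Fintype.card_fin]
      omega
    exact Nat.sInf_le h3
  · intro i i' j j' k k'
    have e : (if i = i' ∧ j = j' ∧ k = k' then (1 : K) else 0) =
        r⁻¹ * (r * if i = i' ∧ j = j' ∧ k = k' then 1 else 0) := by
      rw [← mul_assoc, inv_mul_cancel₀ hr, one_mul]
    rw [e, ← h, Fintype.sum_prod_type, ← Finset.sum_coe_sort H, mul_sum]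
    refine Fintype.sum_congr _ _ fun g => ?_
    rw [Fin.sum_univ_six]
    simp only [Fin.isValue, Matrix.of_apply, Matrix.cons_val_zero, Matrix.cons_val_one,
      Matrix.cons_val]
    ring

end jets

/-! ### The polynomial of a map -/

section contraction

variable {K : Type} [Field K] {s m : ℕ}

/-- the first `s` matrices among `s + 1` matrices -/
def up1 (p : Fin s × Fin m × Fin m) : Fin (s + 1) × Fin m × Fin m := (p.1.castSucc, p.2)

/-- The polynomial `∑ y_{ij} F_{ij}`, where `y` is one more matrix of variables. -/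
noncomputable def contr (F : Fin m → Fin m → MvPolynomial (Fin s × Fin m × Fin m) K) :
    MvPolynomial (Fin (s + 1) × Fin m × Fin m) K :=
  ∑ i, ∑ j, X (Fin.last s, i, j) * rename up1 (F i j)

/-- Equivariance: if the rows and the columns of all the matrices are permuted by `σ`, then so are
the rows and the columns of the values. -/
def Equivariant (F : Fin m → Fin m → MvPolynomial (Fin s × Fin m × Fin m) K) : Prop :=
  ∀ (σ : Equiv.Perm (Fin m)) (i j : Fin m),
    rename (fun p : Fin s × Fin m × Fin m => (p.1, σ p.2.1, σ p.2.2)) (F i j) = F (σ i) (σ j)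

theorem contr_permInv {F : Fin m → Fin m → MvPolynomial (Fin s × Fin m × Fin m) K}
    (hF : Equivariant F) : PermInv (contr F) := by
  intro σ
  unfold contr
  rw [map_sum]
  refine Fintype.sum_equiv σ _ _ fun i => ?_
  rw [map_sum]
  refine Fintype.sum_equiv σ _ _ fun j => ?_
  rw [map_mul, rename_X, ← hF σ i j, rename_rename, rename_rename]
  rfl

theorem contr_degree {F : Fin m → Fin m → MvPolynomial (Fin s × Fin m × Fin m) K} {d : ℕ}
    (hF : ∀ i j, (F i j).totalDegree ≤ d) : (contr F).totalDegree ≤ d + 1 := by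
  unfold contr
  refine totalDegree_finsetSum_le fun i _ => totalDegree_finsetSum_le fun j _ => ?_
  refine (totalDegree_mul _ _).trans ?_
  rw [totalDegree_X]
  have h1 := (totalDegree_rename_le (up1 (s := s) (m := m)) (F i j)).trans (hF i j)
  omega

theorem dd_rename {W W' : Type} [Fintype W] [DecidableEq W] [Fintype W'] [DecidableEq W']
    (ρ : W → W') (a : W' → K) (g : MvPolynomial W K) :
    dd a (rename ρ g) = rename ρ (dd (a ∘ ρ) g) := by
  induction g using MvPolynomial.induction_on with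
  | C c => rw [rename_C, dd_C, dd_C, map_zero]
  | add p q hp hq => rw [map_add, map_add, map_add, map_add, hp, hq]
  | mul_X p w hp =>
    have e : rename ρ (p * X w) = rename ρ p * X (ρ w) := by rw [map_mul, rename_X]
    have e2 : rename ρ (dd (a ∘ ρ) (p * X w)) =
        rename ρ (dd (a ∘ ρ) p) * X (ρ w) + rename ρ p * MvPolynomial.C ((a ∘ ρ) w) := by
      rw [dd_mul, dd_X, map_add, map_mul, map_mul, rename_X, rename_C]
    rw [e, e2, dd_mul, dd_X, hp]
    rfl

/-- third derivatives of the polynomial of a map -/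
theorem third_contr (F : Fin m → Fin m → MvPolynomial (Fin s × Fin m × Fin m) K)
    (p a b c : Fin (s + 1) × Fin m × Fin m → K) :
    eval p (dd a (dd b (dd c (contr F)))) = ∑ i, ∑ j,
      (c (Fin.last s, i, j) * eval (p ∘ up1) (dd (a ∘ up1) (dd (b ∘ up1) (F i j))) +
        b (Fin.last s, i, j) * eval (p ∘ up1) (dd (a ∘ up1) (dd (c ∘ up1) (F i j))) +
        a (Fin.last s, i, j) * eval (p ∘ up1) (dd (b ∘ up1) (dd (c ∘ up1) (F i j))) +
        p (Fin.last s, i, j) *
          eval (p ∘ up1) (dd (a ∘ up1) (dd (b ∘ up1) (dd (c ∘ up1) (F i j))))) := by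
  unfold contr
  rw [map_sum, map_sum, map_sum, map_sum]
  refine sum_congr rfl fun i _ => ?_
  rw [map_sum, map_sum, map_sum, map_sum]
  refine sum_congr rfl fun j _ => ?_
  simp only [dd_mul, dd_X, map_add, dd_C, zero_mul, zero_add, dd_rename]
  simp only [map_mul, eval_C, eval_X, eval_rename]
  ring

/-- **The lower bound for equivariant maps.** -/
theorem map_lower [CharZero K] {d n : ℕ}
    {F : Fin m → Fin m → MvPolynomial (Fin s × Fin m × Fin m) K} (hF : Equivariant F)
    (hd : ∀ i j, (F i j).totalDegree ≤ d) (hn : contr F ∉ ForestSpan K (s + 1) (d + 1) m)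
    (hm : 6 * (d + 1) * (n + 1) ≤ m) (C : Circuit K (Fin s × Fin m × Fin m))
    (hC : ∀ i j, ∃ v : Fin C.nodes, C.poly v = F i j) :
    trank K n n n ≤ 6 * C.nonscalarCount := by
  obtain ⟨p, A, B, D, r, hr, h⟩ := span_third ((contr_permInv hF).mem_span (contr_degree hd)) hn hm
  choose v hv using hC
  obtain ⟨P, Q, κ, R, h2, h3⟩ := jets C (p ∘ up1)
  rw [← card_NS]
  refine trank_le_of_identity (NS C) (fun h a => P h (a ∘ up1)) (fun h a => Q h (a ∘ up1))
    (fun h a => ∑ i, ∑ j, (a (Fin.last s, i, j) * κ (v i j) h +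
      p (Fin.last s, i, j) * R (v i j) h (a ∘ up1))) A B D r hr ?_
  intro i i' j j' k k'
  rw [← h, third_contr]
  set a := D k' i'
  set b := B j' k
  set c := A i j
  have e : ∀ i j, c (Fin.last s, i, j) * eval (p ∘ up1) (dd (a ∘ up1) (dd (b ∘ up1) (F i j))) +
        b (Fin.last s, i, j) * eval (p ∘ up1) (dd (a ∘ up1) (dd (c ∘ up1) (F i j))) +
        a (Fin.last s, i, j) * eval (p ∘ up1) (dd (b ∘ up1) (dd (c ∘ up1) (F i j))) +
        p (Fin.last s, i, j) *
          eval (p ∘ up1) (dd (a ∘ up1) (dd (b ∘ up1) (dd (c ∘ up1) (F i j)))) =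
      ∑ h ∈ NS C, ((P h (b ∘ up1) * Q h (c ∘ up1) + P h (c ∘ up1) * Q h (b ∘ up1)) *
          (a (Fin.last s, i, j) * κ (v i j) h + p (Fin.last s, i, j) * R (v i j) h (a ∘ up1)) +
        (P h (a ∘ up1) * Q h (c ∘ up1) + P h (c ∘ up1) * Q h (a ∘ up1)) *
          (b (Fin.last s, i, j) * κ (v i j) h + p (Fin.last s, i, j) * R (v i j) h (b ∘ up1)) +
        (P h (a ∘ up1) * Q h (b ∘ up1) + P h (b ∘ up1) * Q h (a ∘ up1)) *
          (c (Fin.last s, i, j) * κ (v i j) h +
            p (Fin.last s, i, j) * R (v i j) h (c ∘ up1))) := by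
    intro i j
    rw [← hv i j, h2, h2, h2, h3, mul_sum, mul_sum, mul_sum, mul_sum, ← sum_add_distrib,
      ← sum_add_distrib, ← sum_add_distrib]
    refine sum_congr rfl fun g _ => ?_
    ring
  simp only [e]
  have e2 : ∀ (G : Fin m → Fin m → Fin C.nodes → K), ∑ i, ∑ j, ∑ h ∈ NS C, G i j h =
      ∑ h ∈ NS C, ∑ i, ∑ j, G i j h := by
    intro G
    rw [sum_congr rfl fun i _ => sum_comm, sum_comm]
  rw [e2]
  refine sum_congr rfl fun g _ => ?_
  simp only [mul_sum, ← sum_add_distrib]

end contraction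

end Run7.h128.PI
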