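import Pool.Agent.Run7.h128.PI.Maps

set_option autoImplicit false
set_option linter.unusedSectionVars false

/-!
# Sizes of circuits for equivariant polynomial maps
-/

namespace Run7.h128.PI

open Finset MvPolynomial Filter Run7.h128.SI Pool.Agent.H522R2 Pool.Agent.H522R2.Circuit
  Pool.Agent.W956.KF Pool.Agent.H826R3.SM Pool.Agent.H88R3.MM

variable {K : Type} [Field K] {s d m : ℕ}

/-! ### Polynomials of degree at most two -/

theorem forest_of_few {k e : ℕ} (E : Fin e → Fin s × Fin k × Fin k) (he : e ≤ 2) :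
    IsForest E := by
  by_contra hcon
  obtain ⟨x, y, z, -, -, hy, hz, -⟩ := exists_cycle hcon
  have h1 := (mem_erase.1 hy).1
  have h2 := (mem_erase.1 hz).1
  have h3 := (mem_erase.1 (mem_erase.1 hz).2).1
  have h1' : (y : ℕ) ≠ x := fun h => h1 (Fin.ext h)
  have h2' : (z : ℕ) ≠ y := fun h => h2 (Fin.ext h)
  have h3' : (z : ℕ) ≠ x := fun h => h3 (Fin.ext h)
  have := x.2
  have := y.2
  have := z.2
  omega

theorem mem_forest_of_degree [CharZero K] {f : MvPolynomial (Fin s × Fin m × Fin m) K}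
    (hf : PermInv f) (h2 : f.totalDegree ≤ 2) (hd : f.totalDegree ≤ d) :
    f ∈ ForestSpan K s d m := by
  have h1 := hf.mem_span le_rfl
  refine (Submodule.span_le.2 ?_ : GraphSpan K s f.totalDegree m ≤ ForestSpan K s d m) h1
  rintro p ⟨k, e, E, he, hno, hp⟩
  exact Submodule.subset_span ⟨k, e, E, he.trans hd, hno, forest_of_few E (he.trans h2), hp⟩

theorem degree_of_size_zero {V : Type} (C : Circuit K V) (h0 : C.size = 0) (v : Fin C.nodes) :
    (C.poly v).totalDegree ≤ 1 := by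
  unfold Circuit.size at h0
  rw [Nat.card_eq_zero] at h0
  have h1 : ¬ ((∃ i j, C.gate v = Gate.add i j) ∨ ∃ i j, C.gate v = Gate.mul i j) := by
    intro h
    rcases h0 with h0 | h0
    · exact h0.elim ⟨v, h⟩
    · exact not_finite_iff_infinite.2 h0 inferInstance
  rw [Circuit.poly]
  cases hg : C.gate v with
  | const c =>
    simp only
    rw [totalDegree_C]
    exact Nat.zero_le _
  | add i j => exact absurd (Or.inl ⟨i, j, hg⟩) h1
  | mul i j => exact absurd (Or.inr ⟨i, j, hg⟩) h1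
  | var p =>
    simp only
    rw [totalDegree_X]

theorem map_size_pos [CharZero K]
    {F : Fin m → Fin m → MvPolynomial (Fin s × Fin m × Fin m) K} (hF : Equivariant F)
    (hd : ∀ i j, (F i j).totalDegree ≤ d) (hn : contr F ∉ ForestSpan K (s + 1) (d + 1) m)
    (C : Circuit K (Fin s × Fin m × Fin m)) (hC : ∀ i j, ∃ v : Fin C.nodes, C.poly v = F i j) :
    1 ≤ C.size := by
  by_contra hcon
  have h0 : C.size = 0 := by omega
  apply hn
  refine mem_forest_of_degree (contr_permInv hF) (contr_degree (d := 1) fun i j => ?_)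
    (contr_degree hd)
  obtain ⟨v, hv⟩ := hC i j
  rw [← hv]
  exact degree_of_size_zero C h0 v

/-! ### The upper bound for maps -/

/-- substitution of `0` for the last matrix -/
noncomputable def sub0 (K : Type) [Field K] (s m : ℕ) :
    MvPolynomial (Fin (s + 1) × Fin m × Fin m) K →ₐ[K] MvPolynomial (Fin s × Fin m × Fin m) K :=
  aeval fun p => if h : (p.1 : ℕ) < s then X (⟨p.1, h⟩, p.2) else 0

theorem sub0_last (i j : Fin m) : sub0 K s m (X (Fin.last s, i, j)) = 0 := by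
  unfold sub0
  rw [aeval_X]
  exact dif_neg (by simp)

theorem sub0_rename (g : MvPolynomial (Fin s × Fin m × Fin m) K) :
    sub0 K s m (rename up1 g) = g := by
  unfold sub0
  rw [aeval_rename]
  have h : ((fun p : Fin (s + 1) × Fin m × Fin m => if h : (p.1 : ℕ) < s then
      (X (⟨p.1, h⟩, p.2) : MvPolynomial (Fin s × Fin m × Fin m) K) else 0) ∘ up1) = X := by
    funext p
    have hp : ((up1 p).1 : ℕ) < s := p.1.2
    exact (dif_pos hp).trans rfl
  rw [h, aeval_X_left, AlgHom.id_apply]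

theorem sub0_pderiv (F : Fin m → Fin m → MvPolynomial (Fin s × Fin m × Fin m) K) (i j : Fin m) :
    sub0 K s m (pderiv (Fin.last s, i, j) (contr F)) = F i j := by
  unfold contr
  have h : ∀ a b, sub0 K s m (pderiv (Fin.last s, i, j)
      (X (Fin.last s, a, b) * rename up1 (F a b))) = if a = i ∧ b = j then F a b else 0 := by
    intro a b
    rw [Derivation.leibniz, smul_eq_mul, smul_eq_mul, map_add, map_mul, map_mul, sub0_last,
      zero_mul, zero_add, sub0_rename]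
    by_cases hc : a = i ∧ b = j
    · obtain ⟨rfl, rfl⟩ := hc
      rw [pderiv_X_self, map_one, mul_one, if_pos ⟨rfl, rfl⟩]
    · rw [if_neg hc, pderiv_X_of_ne, map_zero, mul_zero]
      intro he
      simp only [Prod.mk.injEq, true_and] at he
      exact hc ⟨he.1, he.2⟩
  simp only [map_sum, h]
  rw [Finset.sum_eq_single i]
  · rw [Finset.sum_eq_single j]
    · rw [if_pos ⟨rfl, rfl⟩]
    · intro b _ hb
      rw [if_neg (fun h => hb h.2)]
    · intro h
      exact absurd (mem_univ _) h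
  · intro a _ ha
    exact sum_eq_zero fun b _ => if_neg (fun h => ha h.1)
  · intro h
    exact absurd (mem_univ _) h

theorem exists_circuit_of_cost_range {V I : Type} [Finite I] {G : I → MvPolynomial V K} {n : ℕ}
    (h : Cost (inputs K V) (Set.range G) n) :
    ∃ C : Circuit K V, (∀ i, ∃ v, C.poly v = G i) ∧ C.size ≤ n := by
  obtain ⟨C, h1, h2⟩ := exists_circuit_of_cost (Set.finite_range _) h
  exact ⟨C, fun i => h2 _ ⟨i, rfl⟩, h1⟩

theorem map_upper (s d : ℕ) : ∃ c : ℕ, ∀ (m : ℕ)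
    (F : Fin m → Fin m → MvPolynomial (Fin s × Fin m × Fin m) K),
    contr F ∈ ForestSpan K (s + 1) (d + 1) m → ∃ C : Circuit K (Fin s × Fin m × Fin m),
      (∀ i j, ∃ v : Fin C.nodes, C.poly v = F i j) ∧ C.size ≤ c * m ^ 2 := by
  obtain ⟨c, hc⟩ := forest_upper (K := K) (s + 1) (d + 1)
  refine ⟨5 * c, fun m F hF => ?_⟩
  obtain ⟨C, v, h1, h2⟩ := hc m _ hF
  have h3 := (cost_pderiv C v).map (sub0 K s m : MvPolynomial (Fin (s + 1) × Fin m × Fin m) K →+*
    MvPolynomial (Fin s × Fin m × Fin m) K)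
  have h4 : Cost (inputs K (Fin s × Fin m × Fin m))
      (Set.range fun t : Fin m × Fin m => F t.1 t.2) (5 * c * m ^ 2) := by
    refine h3.mono ?_ ?_ (by rw [mul_assoc]; exact Nat.mul_le_mul_left _ h2)
    · rintro _ ⟨_, ⟨p, rfl⟩ | ⟨a, rfl⟩, rfl⟩
      · by_cases hp : (p.1 : ℕ) < s
        · refine Or.inl ⟨(⟨p.1, hp⟩, p.2), ?_⟩
          show _ = sub0 K s m (X p)
          unfold sub0
          rw [aeval_X, dif_pos hp]
        · refine Or.inr ⟨0, ?_⟩
          show _ = sub0 K s m (X p)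
          unfold sub0
          rw [aeval_X, dif_neg hp, map_zero]
      · refine Or.inr ⟨a, ?_⟩
        show _ = sub0 K s m (MvPolynomial.C a)
        unfold sub0
        rw [aeval_C]
        rfl
    · rintro _ ⟨t, rfl⟩
      refine ⟨_, ⟨(Fin.last s, t.1, t.2), rfl⟩, ?_⟩
      show sub0 K s m (pderiv (Fin.last s, t.1, t.2) (C.poly v)) = _
      rw [h1]
      exact sub0_pderiv F t.1 t.2
  obtain ⟨C', h5, h6⟩ := exists_circuit_of_cost_range h4
  exact ⟨C', fun i j => h5 (i, j), h6⟩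

/-! ### The square of a matrix -/

/-- the entries of the square of the matrix number `l` -/
noncomputable def sqm (K : Type) [Field K] {s : ℕ} (m : ℕ) (l : Fin s) (i j : Fin m) :
    MvPolynomial (Fin s × Fin m × Fin m) K := ∑ k, X (l, i, k) * X (l, k, j)

theorem sqm_equivariant (l : Fin s) : Equivariant (sqm K m l) := by
  intro σ i j
  unfold sqm
  rw [map_sum]
  refine Fintype.sum_equiv σ _ _ fun k => ?_
  rw [map_mul, rename_X, rename_X]

theorem sqm_degree (l : Fin s) (i j : Fin m) : (sqm K m l i j).totalDegree ≤ 2 := by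
  unfold sqm
  refine totalDegree_finsetSum_le fun k _ => ?_
  refine (totalDegree_mul _ _).trans ?_
  rw [totalDegree_X, totalDegree_X]

/-- the triangle of the square -/
def tri' {s : ℕ} (l : Fin s) : Fin 3 → Fin (s + 1) × Fin 3 × Fin 3 :=
  ![(Fin.last s, 0, 1), (l.castSucc, 0, 2), (l.castSucc, 2, 1)]

theorem tri'_noIso (l : Fin s) : NoIso (tri' l) := by
  intro v
  fin_cases v
  · exact ⟨0, Or.inl rfl⟩
  · exact ⟨0, Or.inr rfl⟩
  · exact ⟨2, Or.inl rfl⟩

theorem tri'_not_forest (l : Fin s) : ¬ IsForest (tri' l) := by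
  intro h
  unfold IsForest at h
  refine h.cliqueFree le_rfl {0, 1, 2} ?_
  rw [SimpleGraph.is3Clique_triple_iff]
  unfold und
  refine ⟨?_, ?_, ?_⟩
  · rw [SimpleGraph.fromRel_adj]
    exact ⟨by decide, Or.inl ⟨0, rfl⟩⟩
  · rw [SimpleGraph.fromRel_adj]
    exact ⟨by decide, Or.inl ⟨1, rfl⟩⟩
  · rw [SimpleGraph.fromRel_adj]
    exact ⟨by decide, Or.inr ⟨2, rfl⟩⟩

theorem contr_sqm (l : Fin s) : contr (sqm K m l) = homPoly K m (tri' l) := by
  unfold homPoly
  rw [← Equiv.sum_comp (fun3 m).symm, Fintype.sum_prod_type]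
  unfold contr sqm
  refine sum_congr rfl fun a _ => ?_
  rw [Fintype.sum_prod_type]
  refine sum_congr rfl fun b _ => ?_
  rw [map_sum, mul_sum]
  refine sum_congr rfl fun c _ => ?_
  rw [Fin.prod_univ_three, map_mul, rename_X, rename_X, ← mul_assoc]
  rfl

theorem sqm_not_forest [CharZero K] (l : Fin s) (hm : 18 ≤ m) :
    contr (sqm K m l) ∉ ForestSpan K (s + 1) (d + 1) m := by
  rw [contr_sqm]
  exact homPoly_not_mem (tri'_noIso l) (tri'_not_forest l) hm

theorem cost_sqm (m : ℕ) (l : Fin s) : Cost (inputs K (Fin s × Fin m × Fin m))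
    (Set.range fun t : Fin m × Fin m => sqm K m l t.1 t.2) (sizeMM K m) := by
  let φ : MvPolynomial (Vars m) K →+* MvPolynomial (Fin s × Fin m × Fin m) K :=
    MvPolynomial.eval₂Hom MvPolynomial.C (Sum.elim (fun v => MvPolynomial.X (l, v))
      (fun v => MvPolynomial.X (l, v)))
  refine ((cost_MM_sizeMM K m).map φ).mono ?_ ?_ le_rfl
  · rintro _ ⟨_, ⟨v, rfl⟩ | ⟨c, rfl⟩, rfl⟩
    · rcases v with v | v
      · exact Or.inl ⟨(l, v), by simp [φ]⟩
      · exact Or.inl ⟨(l, v), by simp [φ]⟩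
    · exact Or.inr ⟨c, by simp [φ]⟩
  · rintro _ ⟨t, rfl⟩
    refine ⟨entryMM K m t.1 t.2, ⟨t, rfl⟩, ?_⟩
    unfold entryMM sqm
    simp [φ]

/-! ### The least size -/

/-- The least size of a circuit over `K` which computes all entries of some equivariant map, of
degree at most `d`, from `s` matrices to matrices, which is not of forest type. -/
noncomputable def mapSize (K : Type) [Field K] (s d m : ℕ) : ℕ :=
  sInf {t | ∃ (F : Fin m → Fin m → MvPolynomial (Fin s × Fin m × Fin m) K)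
    (C : Circuit K (Fin s × Fin m × Fin m)), Equivariant F ∧ (∀ i j, (F i j).totalDegree ≤ d) ∧
      contr F ∉ ForestSpan K (s + 1) (d + 1) m ∧
      (∀ i j, ∃ v : Fin C.nodes, C.poly v = F i j) ∧ C.size = t}

theorem mapSize_le_of {F : Fin m → Fin m → MvPolynomial (Fin s × Fin m × Fin m) K}
    {C : Circuit K (Fin s × Fin m × Fin m)} (h1 : Equivariant F)
    (h2 : ∀ i j, (F i j).totalDegree ≤ d) (h3 : contr F ∉ ForestSpan K (s + 1) (d + 1) m)
    (h4 : ∀ i j, ∃ v : Fin C.nodes, C.poly v = F i j) : mapSize K s d m ≤ C.size :=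
  Nat.sInf_le (s := {t | ∃ (F : Fin m → Fin m → MvPolynomial (Fin s × Fin m × Fin m) K)
    (C : Circuit K (Fin s × Fin m × Fin m)), Equivariant F ∧ (∀ i j, (F i j).totalDegree ≤ d) ∧
      contr F ∉ ForestSpan K (s + 1) (d + 1) m ∧
      (∀ i j, ∃ v : Fin C.nodes, C.poly v = F i j) ∧ C.size = t}) ⟨F, C, h1, h2, h3, h4, rfl⟩

variable [CharZero K]

theorem exists_circuit_sqm (m : ℕ) (l : Fin s) : ∃ C : Circuit K (Fin s × Fin m × Fin m),
    (∀ i j, ∃ v : Fin C.nodes, C.poly v = sqm K m l i j) ∧ C.size ≤ sizeMM K m := by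
  obtain ⟨C, h1, h2⟩ := exists_circuit_of_cost_range (cost_sqm (K := K) m l)
  exact ⟨C, fun i j => h1 (i, j), h2⟩

theorem mapSize_le (hs : 1 ≤ s) (hd : 2 ≤ d) (hm : 18 ≤ m) : mapSize K s d m ≤ sizeMM K m := by
  obtain ⟨C, h1, h2⟩ := exists_circuit_sqm (K := K) (s := s) m ⟨0, hs⟩
  exact (mapSize_le_of (sqm_equivariant _) (fun i j => (sqm_degree _ i j).trans hd)
    (sqm_not_forest _ hm) h1).trans h2

theorem exists_mapSize (hs : 1 ≤ s) (hd : 2 ≤ d) (hm : 18 ≤ m) :
    ∃ (F : Fin m → Fin m → MvPolynomial (Fin s × Fin m × Fin m) K)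
      (C : Circuit K (Fin s × Fin m × Fin m)), Equivariant F ∧
        (∀ i j, (F i j).totalDegree ≤ d) ∧ contr F ∉ ForestSpan K (s + 1) (d + 1) m ∧
        (∀ i j, ∃ v : Fin C.nodes, C.poly v = F i j) ∧ C.size = mapSize K s d m := by
  obtain ⟨C, h1, h2⟩ := exists_circuit_sqm (K := K) (s := s) m ⟨0, hs⟩
  exact Nat.sInf_mem (s := {t | ∃ (F : Fin m → Fin m → MvPolynomial (Fin s × Fin m × Fin m) K)
    (C : Circuit K (Fin s × Fin m × Fin m)), Equivariant F ∧ (∀ i j, (F i j).totalDegree ≤ d) ∧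
      contr F ∉ ForestSpan K (s + 1) (d + 1) m ∧
      (∀ i j, ∃ v : Fin C.nodes, C.poly v = F i j) ∧ C.size = t})
    ⟨_, sqm K m ⟨0, hs⟩, C, sqm_equivariant _, fun i j => (sqm_degree _ i j).trans hd,
      sqm_not_forest _ hm, h1, rfl⟩

theorem trank_le_mapSize (hs : 1 ≤ s) (hd : 2 ≤ d) (q : ℕ) :
    trank K q q q ≤ 6 * mapSize K s d (12 * (d + 1) * q) := by
  rcases Nat.eq_zero_or_pos q with hq | hq
  · subst hq
    rw [trank_zero'']
    exact Nat.zero_le _
  · have hm : 18 ≤ 12 * (d + 1) * q := by nlinarith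
    obtain ⟨F, C, h1, h2, h3, h4, h5⟩ := exists_mapSize (K := K) hs hd hm
    have h6 := map_lower (n := q) h1 h2 h3 (by nlinarith) C h4
    have h7 := (C.nonscalarCount_le_mulCount).trans C.mulCount_le_size
    omega

theorem mapSize_zero : mapSize K s d 0 = 0 := by
  have h : {t | ∃ (F : Fin 0 → Fin 0 → MvPolynomial (Fin s × Fin 0 × Fin 0) K)
      (C : Circuit K (Fin s × Fin 0 × Fin 0)), Equivariant F ∧
      (∀ i j, (F i j).totalDegree ≤ d) ∧ contr F ∉ ForestSpan K (s + 1) (d + 1) 0 ∧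
      (∀ i j, ∃ v : Fin C.nodes, C.poly v = F i j) ∧ C.size = t} = ∅ := by
    apply Set.eq_empty_of_forall_notMem
    rintro t ⟨F, C, -, -, h3, -⟩
    apply h3
    unfold contr
    rw [Finset.univ_eq_empty, sum_empty]
    exact Submodule.zero_mem _
  unfold mapSize
  rw [h, Nat.sInf_empty]

theorem mapSize_upper (hs : 1 ≤ s) (hd : 2 ≤ d) {τ : ℝ} (hτ : omegaMM K < τ) :
    ∃ D : ℝ, ∀ m : ℕ, (mapSize K s d m : ℝ) ≤ D * (m : ℝ) ^ τ := by
  obtain ⟨D, hD⟩ := sizeMM_upper (K := K) hτ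
  have hτ0 : 0 < τ := lt_of_le_of_lt omega_nonneg hτ
  have hD0 : 0 ≤ D := by
    have := hD 1
    simp only [Nat.cast_one, Real.one_rpow, mul_one] at this
    exact le_trans (Nat.cast_nonneg _) this
  obtain ⟨B, hB⟩ : ∃ B : ℕ, ∀ m, m < 18 → mapSize K s d m ≤ B :=
    ⟨∑ j ∈ range 18, mapSize K s d j, fun m hm => Finset.single_le_sum
      (f := fun j => mapSize K s d j) (fun _ _ => Nat.zero_le _) (Finset.mem_range.2 hm)⟩
  refine ⟨D + B, fun m => ?_⟩
  rcases Nat.eq_zero_or_pos m with hm | hm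
  · subst hm
    rw [mapSize_zero]
    simp [Real.zero_rpow hτ0.ne']
  · have hm1 : (1 : ℝ) ≤ (m : ℝ) ^ τ :=
      Real.one_le_rpow (by exact_mod_cast hm) hτ0.le
    have hB0 : (0 : ℝ) ≤ B := Nat.cast_nonneg _
    rcases Nat.lt_or_ge m 18 with h3 | h3
    · have h4 : (mapSize K s d m : ℝ) ≤ B := by exact_mod_cast hB m h3
      calc (mapSize K s d m : ℝ) ≤ B * 1 := by linarith
        _ ≤ (D + B) * (m : ℝ) ^ τ := by
            apply mul_le_mul _ hm1 zero_le_one (by positivity)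
            linarith
    · have h4 : (mapSize K s d m : ℝ) ≤ (sizeMM K m : ℝ) := by
        exact_mod_cast mapSize_le hs hd h3
      have h5 := hD m
      have h6 : (0 : ℝ) ≤ B * (m : ℝ) ^ τ := by positivity
      calc (mapSize K s d m : ℝ) ≤ D * (m : ℝ) ^ τ := by linarith
        _ ≤ (D + B) * (m : ℝ) ^ τ := by
            linarith [add_mul D (B : ℝ) ((m : ℝ) ^ τ)]

theorem growth_mapSize (hs : 1 ≤ s) (hd : 2 ≤ d) : growth (mapSize K s d) = omegaMM K := by
  have hlow : ∀ τ ∈ {τ : ℝ | ∃ D : ℝ, ∀ m : ℕ, (mapSize K s d m : ℝ) ≤ D * (m : ℝ) ^ τ},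
      omegaMM K ≤ τ := by
    rintro τ ⟨D, hD⟩
    refine omega_le_of_infinite (f := fun q => mapSize K s d (12 * (d + 1) * q)) (c := 6)
      (trank_le_mapSize hs hd) (τ := τ) (D := D * ((12 * (d + 1) : ℕ) : ℝ) ^ τ) ?_
    have : {m : ℕ | (mapSize K s d (12 * (d + 1) * m) : ℝ) ≤
        D * ((12 * (d + 1) : ℕ) : ℝ) ^ τ * (m : ℝ) ^ τ} = Set.univ := by
      apply Set.eq_univ_of_forall
      intro q
      have h1 := hD (12 * (d + 1) * q)
      show (mapSize K s d (12 * (d + 1) * q) : ℝ) ≤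
        D * ((12 * (d + 1) : ℕ) : ℝ) ^ τ * (q : ℝ) ^ τ
      rw [mul_assoc D, ← Real.mul_rpow (Nat.cast_nonneg _) (Nat.cast_nonneg _), ← Nat.cast_mul]
      exact h1
    rw [this]
    exact Set.infinite_univ
  apply le_antisymm
  · refine le_of_forall_pos_le_add fun ε hε => ?_
    exact csInf_le ⟨omegaMM K, hlow⟩ (mapSize_upper hs hd (by linarith))
  · refine le_csInf ?_ hlow
    exact ⟨_, mapSize_upper hs hd (lt_add_one _)⟩

/-! ### Superlinear lower bounds -/

/-- a uniform superlinear lower bound for all equivariant maps of degree at most `d` which are not of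
forest type -/
def MapSuperlinear (K : Type) [Field K] (s d : ℕ) : Prop :=
  ∃ α : ℝ, 1 < α ∧ ∃ c : ℝ, 0 < c ∧ ∀ (m : ℕ)
    (F : Fin m → Fin m → MvPolynomial (Fin s × Fin m × Fin m) K), Equivariant F →
    (∀ i j, (F i j).totalDegree ≤ d) → contr F ∉ ForestSpan K (s + 1) (d + 1) m →
    ∀ C : Circuit K (Fin s × Fin m × Fin m), (∀ i j, ∃ v : Fin C.nodes, C.poly v = F i j) →
      c * ((m : ℝ) ^ 2) ^ α ≤ C.size

/-- from the rank to the size -/
theorem rpow_le_of_trank {w : ℝ} (hw : w = omegaMM K) (hw0 : 0 < w) {d m N : ℕ} (hd : 1 ≤ d)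
    (hN : 1 ≤ N) (h : ∀ q, 1 ≤ q → 6 * d * (q + 1) ≤ m → trank K q q q ≤ 6 * N) :
    (m : ℝ) ^ w ≤ N * (6 * ((18 * d : ℕ) : ℝ) ^ w) := by
  have hD0 : (0 : ℝ) < ((18 * d : ℕ) : ℝ) := by
    exact_mod_cast (by omega : 0 < 18 * d)
  have hs : (1 : ℝ) ≤ N := by exact_mod_cast hN
  rcases Nat.lt_or_ge m (12 * d) with h6 | h6
  · have h1 : (m : ℝ) ^ w ≤ ((18 * d : ℕ) : ℝ) ^ w := by
      apply Real.rpow_le_rpow (Nat.cast_nonneg _) _ hw0.le
      have : m ≤ 18 * d := by omega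
      exact_mod_cast this
    have h2 : ((18 * d : ℕ) : ℝ) ^ w ≤ N * (6 * ((18 * d : ℕ) : ℝ) ^ w) := by
      have h3 : (0 : ℝ) < ((18 * d : ℕ) : ℝ) ^ w := by positivity
      nlinarith
    linarith
  · obtain ⟨q, hq⟩ : ∃ q, m / (6 * d) = q + 1 := by
      have : 1 ≤ m / (6 * d) := by
        rw [Nat.le_div_iff_mul_le (by omega)]
        omega
      exact ⟨m / (6 * d) - 1, by omega⟩
    have hq1 : 1 ≤ q := by
      have : 2 ≤ m / (6 * d) := by
        rw [Nat.le_div_iff_mul_le (by omega)]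
        omega
      omega
    have h0 : 6 * d * (q + 1) ≤ m := by
      rw [← hq]
      exact Nat.mul_div_le m (6 * d)
    have h1 : m ≤ 18 * d * q := by
      have h2 : m < 6 * d * (m / (6 * d) + 1) := Nat.lt_mul_div_succ m (by omega)
      rw [hq] at h2
      nlinarith
    have h4 := rpow_omega_le K q hq1
    rw [← hw] at h4
    have h5 : (trank K q q q : ℝ) ≤ 6 * N := by
      exact_mod_cast h q hq1 h0
    have h6' : (m : ℝ) ^ w ≤ (((18 * d : ℕ) : ℝ) * q) ^ w := by
      apply Real.rpow_le_rpow (Nat.cast_nonneg _) _ hw0.le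
      exact_mod_cast h1
    rw [Real.mul_rpow (Nat.cast_nonneg _) (Nat.cast_nonneg _)] at h6'
    have h7 : ((18 * d : ℕ) : ℝ) ^ w * (q : ℝ) ^ w ≤
        ((18 * d : ℕ) : ℝ) ^ w * (6 * N) :=
      mul_le_mul_of_nonneg_left (h4.trans h5) (by positivity)
    calc (m : ℝ) ^ w ≤ ((18 * d : ℕ) : ℝ) ^ w * (q : ℝ) ^ w := h6'
      _ ≤ ((18 * d : ℕ) : ℝ) ^ w * (6 * N) := h7
      _ = N * (6 * ((18 * d : ℕ) : ℝ) ^ w) := by ring

theorem mapSuperlinear_of_omega (h : 2 < omegaMM K) : MapSuperlinear K s d := by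
  set w := omegaMM K with hw
  have hD0 : (0 : ℝ) < ((18 * (d + 1) : ℕ) : ℝ) := by
    exact_mod_cast (by omega : 0 < 18 * (d + 1))
  refine ⟨w / 2, by linarith, 1 / (6 * ((18 * (d + 1) : ℕ) : ℝ) ^ w), by positivity,
    fun m F hF hdeg hn C hC => ?_⟩
  have e1 : ((m : ℝ) ^ 2) ^ (w / 2) = (m : ℝ) ^ w := by
    rw [← Real.rpow_natCast (m : ℝ) 2, ← Real.rpow_mul (Nat.cast_nonneg _)]
    congr 1
    push_cast
    ring
  rw [e1, div_mul_eq_mul_div, one_mul, div_le_iff₀ (by positivity)]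
  refine rpow_le_of_trank hw (by linarith) (by omega) (map_size_pos hF hdeg hn C hC) ?_
  intro q _ h0
  have h2 := map_lower hF hdeg hn h0 C hC
  have h3 := (C.nonscalarCount_le_mulCount).trans C.mulCount_le_size
  omega

theorem omega_of_mapSuperlinear (hs : 1 ≤ s) (hd : 2 ≤ d) (h : MapSuperlinear K s d) :
    2 < omegaMM K := by
  obtain ⟨α, hα, c, hc, h⟩ := h
  rw [← superlinear_mm']
  refine ⟨α, hα, min c (1 / (2 * (324 : ℝ) ^ α)), by positivity, fun m => ?_⟩
  have hm0 : (0 : ℝ) ≤ ((m : ℝ) ^ 2) ^ α := by positivity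
  rcases Nat.lt_or_ge m 18 with h3 | h3
  · rcases Nat.eq_zero_or_pos m with hm | hm
    · subst hm
      rw [Nat.cast_zero, zero_pow two_ne_zero, Real.zero_rpow (by linarith), mul_zero]
      exact Nat.cast_nonneg _
    · have h1 : ((m : ℝ) ^ 2) ^ α ≤ (324 : ℝ) ^ α := by
        apply Real.rpow_le_rpow (by positivity) _ (by linarith)
        have : m ^ 2 ≤ 324 := by nlinarith
        exact_mod_cast this
      have h2 : min c (1 / (2 * (324 : ℝ) ^ α)) * ((m : ℝ) ^ 2) ^ α ≤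
          1 / (2 * (324 : ℝ) ^ α) * (324 : ℝ) ^ α :=
        mul_le_mul (min_le_right _ _) h1 hm0 (by positivity)
      have h4 : 1 / (2 * (324 : ℝ) ^ α) * (324 : ℝ) ^ α = 1 / 2 := by
        have : (324 : ℝ) ^ α ≠ 0 := by positivity
        field_simp
      rw [h4] at h2
      have h5 : 1 ≤ sizeMM K m := by
        have h6 := trank_le_two_sizeMM (K := K) m
        have h7 := sq_le_trank K m
        have h8 : 1 ≤ m ^ 2 := Nat.one_le_pow _ _ hm
        omega
      have h6 : (1 : ℝ) ≤ (sizeMM K m : ℝ) := by exact_mod_cast h5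
      linarith
  · obtain ⟨C, h1, h2⟩ := exists_circuit_sqm (K := K) (s := s) m ⟨0, hs⟩
    have h4 := h m (sqm K m ⟨0, hs⟩) (sqm_equivariant _)
      (fun i j => (sqm_degree _ i j).trans hd) (sqm_not_forest _ h3) C h1
    have h5 : (C.size : ℝ) ≤ (sizeMM K m : ℝ) := by exact_mod_cast h2
    have h6 : min c (1 / (2 * (324 : ℝ) ^ α)) * ((m : ℝ) ^ 2) ^ α ≤ c * ((m : ℝ) ^ 2) ^ α :=
      mul_le_mul_of_nonneg_right (min_le_left _ _) hm0
    exact (h6.trans h4).trans h5

theorem superlinear_map (hs : 1 ≤ s) (hd : 2 ≤ d) :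
    Superlinear (sizeMM K) ↔ MapSuperlinear K s d :=
  ⟨fun h => mapSuperlinear_of_omega (superlinear_mm'.1 h),
    fun h => superlinear_mm'.2 (omega_of_mapSuperlinear hs hd h)⟩

end Run7.h128.PI
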