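import Pool.Agent.Run7.h128.PI.Coef
import Pool.Agent.Run7.h128.SI.Assemble

set_option autoImplicit false
set_option linter.unusedSectionVars false

/-!
# Circuits for permutation-invariant polynomials and the rank of matrix multiplication
-/

namespace Run7.h128.PI

open Finset MvPolynomial Run7.h128.SI Pool.Agent.H522R2 Pool.Agent.H522R2.Circuit
  Pool.Agent.W956.KF

/-! ### Restriction to fewer indices -/

section restriction

variable {K : Type} [Field K] {W W' : Type} [Fintype W] [DecidableEq W] [Fintype W']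
  [DecidableEq W']

/-- extension by zero -/
noncomputable def ext (θ : W' → W) (x : W' → K) : W → K := Function.extend θ x 0

theorem ext_apply {θ : W' → W} (hθ : Function.Injective θ) (x : W' → K) (w : W') :
    ext θ x (θ w) = x w := hθ.extend_apply _ _ _

theorem ext_apply' {θ : W' → W} (x : W' → K) (w : W) (h : ¬ ∃ w', θ w' = w) :
    ext θ x w = 0 := Function.extend_apply' _ _ _ h

theorem kill_X {θ : W' → W} (hθ : Function.Injective θ) (w : W') :
    killCompl hθ (X (θ w) : MvPolynomial W K) = X w := by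
  have h := killCompl_rename_app (R := K) hθ (X w)
  rw [rename_X] at h
  exact h

theorem kill_X' {θ : W' → W} (hθ : Function.Injective θ) (w : W) (h : ¬ ∃ w', θ w' = w) :
    killCompl hθ (X w : MvPolynomial W K) = 0 := by
  unfold killCompl
  rw [aeval_X]
  exact dif_neg h

theorem eval_ext {θ : W' → W} (hθ : Function.Injective θ) (x : W' → K) (p : MvPolynomial W K) :
    eval (ext θ x) p = eval x (killCompl hθ p) := by
  induction p using MvPolynomial.induction_on with
  | C c => rw [killCompl_C, eval_C, eval_C]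
  | add p q hp hq => rw [map_add, map_add, map_add, hp, hq]
  | mul_X p w hp =>
    rw [map_mul, map_mul, map_mul, hp]
    congr 1
    by_cases h : ∃ w', θ w' = w
    · obtain ⟨w', rfl⟩ := h
      rw [kill_X, eval_X, eval_X, ext_apply hθ]
    · rw [kill_X' hθ w h, eval_X, ext_apply' x w h, map_zero]

theorem kill_dd {θ : W' → W} (hθ : Function.Injective θ) (a : W' → K) (p : MvPolynomial W K) :
    killCompl hθ (dd (ext θ a) p) = dd a (killCompl hθ p) := by
  induction p using MvPolynomial.induction_on with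
  | C c => rw [dd_C, map_zero, killCompl_C, dd_C]
  | add p q hp hq => rw [map_add, map_add, map_add, map_add, hp, hq]
  | mul_X p w hp =>
    have e : killCompl hθ (p * X w) = killCompl hθ p * killCompl hθ (X w) := map_mul _ _ _
    rw [e, dd_mul, dd_mul, map_add, map_mul, map_mul, hp]
    congr 2
    rw [dd_X, killCompl_C]
    by_cases h : ∃ w', θ w' = w
    · obtain ⟨w', rfl⟩ := h
      rw [kill_X, dd_X, ext_apply hθ]
    · rw [kill_X' hθ w h, ext_apply' a w h, map_zero, map_zero]

end restriction

section hom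

variable {K : Type} [Field K] {s m k e : ℕ} {N : Type} [Fintype N] [DecidableEq N]

/-- the map of the variables -/
def th (s : ℕ) (η : N → Fin m) (p : Fin s × N × N) : Fin s × Fin m × Fin m :=
  (p.1, η p.2.1, η p.2.2)

theorem th_inj {η : N → Fin m} (hη : Function.Injective η) : Function.Injective (th s η) := by
  rintro ⟨a, b, c⟩ ⟨a', b', c'⟩ h
  unfold th at h
  simp only [Prod.mk.injEq] at h ⊢
  exact ⟨h.1, hη h.2.1, hη h.2.2⟩

theorem kill_homPoly {η : N → Fin m} (hη : Function.Injective η)
    {E : Fin e → Fin s × Fin k × Fin k} (hE : NoIso E) :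
    killCompl (th_inj (s := s) hη) (homPoly K m E) = homG K E := by
  unfold homPoly homG
  rw [map_sum]
  symm
  refine Fintype.sum_of_injective (fun ψ : Fin k → N => η ∘ ψ)
    (fun a b h => funext fun v => hη (congrFun h v)) _ _ ?_ ?_
  · intro φ hφ
    have h1 : ∃ v, ¬ ∃ a, η a = φ v := by
      by_contra hcon
      push Not at hcon
      choose ψ hψ using hcon
      exact hφ ⟨ψ, funext hψ⟩
    obtain ⟨v, hv⟩ := h1
    obtain ⟨x, hx⟩ := hE v
    rw [map_prod]
    refine prod_eq_zero (mem_univ x) ?_
    apply kill_X'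
    rintro ⟨w, hw⟩
    unfold th at hw
    simp only [Prod.mk.injEq] at hw
    rcases hx with hx | hx
    · exact hv ⟨w.2.1, by rw [hw.2.1, hx]⟩
    · exact hv ⟨w.2.2, by rw [hw.2.2, hx]⟩
  · intro ψ
    rw [map_prod]
    refine prod_congr rfl fun x _ => ?_
    exact (kill_X (th_inj (s := s) hη) ((E x).1, ψ (E x).2.1, ψ (E x).2.2)).symm

end hom

/-! ### Rank -/

section rank

variable {K : Type} [Field K] {W : Type} [Fintype W] [DecidableEq W]

theorem exists_terms3 (C : Circuit K W) (v : Fin C.nodes) (x₀ : W → K) {n : ℕ}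
    (A B D : Fin n → Fin n → W → K) :
    ∃ (U V T : {h // h ∈ NS C} × Fin 6 → Fin n → Fin n → K), ∀ i i' j j' k k',
      eval x₀ (dd (D k' i') (dd (B j' k) (dd (A i j) (C.poly v)))) =
        ∑ t, U t i j * V t j' k * T t i' k' := by
  obtain ⟨P, Q, R, h⟩ := third_rank C x₀ v
  refine ⟨fun t i j => (![Q t.1, P t.1, Q t.1, P t.1, R t.1, R t.1] t.2) (A i j),
    fun t j k => (![P t.1, Q t.1, R t.1, R t.1, Q t.1, P t.1] t.2) (B j k),
    fun t i k => (![R t.1, R t.1, P t.1, Q t.1, P t.1, Q t.1] t.2) (D k i),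
    fun i i' j j' k k' => ?_⟩
  rw [h, Fintype.sum_prod_type, ← Finset.sum_coe_sort (NS C)]
  refine Fintype.sum_congr _ _ fun g => ?_
  rw [Fin.sum_univ_six]
  simp only [Fin.isValue, Matrix.cons_val_zero, Matrix.cons_val_one, Matrix.cons_val]
  ring

theorem trank_le_of_third (C : Circuit K W) (v : Fin C.nodes) (x₀ : W → K) {n : ℕ}
    (A B D : Fin n → Fin n → W → K) (r : K) (hr : r ≠ 0)
    (h : ∀ i i' j j' k k', eval x₀ (dd (D k' i') (dd (B j' k) (dd (A i j) (C.poly v)))) =
      r * if i = i' ∧ j = j' ∧ k = k' then 1 else 0) :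
    trank K n n n ≤ 6 * C.nonscalarCount := by
  obtain ⟨U, V, T, h1⟩ := exists_terms3 C v x₀ A B D
  have h2 := SI.rankLE_of_fintype (K := K) (fun t => Matrix.of (U t))
    (fun s => Matrix.of fun j k => V s j k * r⁻¹) (fun t => Matrix.of (T t)) ?_
  · have h3 : RankLE K n n n (6 * C.nonscalarCount) := by
      refine h2.mono ?_
      rw [Fintype.card_prod, Fintype.card_coe, card_NS, Fintype.card_fin]
      omega
    exact Nat.sInf_le h3
  · intro i i' j j' k k'
    simp only [Matrix.of_apply]
    have e : ∑ s, U s i j * (V s j' k * r⁻¹) * T s i' k' =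
        r⁻¹ * ∑ s, U s i j * V s j' k * T s i' k' := by
      rw [mul_sum]
      exact sum_congr rfl fun s _ => by ring
    rw [e, ← h1, h, ← mul_assoc, inv_mul_cancel₀ hr, one_mul]

end rank

end Run7.h128.PI
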