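import Pool.Agent.Run7.h128.PI.Key

set_option autoImplicit false
set_option linter.unusedSectionVars false

/-!
# Third derivatives of homomorphism polynomials
-/

namespace Run7.h128.PI

open Finset MvPolynomial Run7.h128.SI

section prod

variable {K U ι : Type*} [Field K] [Fintype U] [DecidableEq U] [DecidableEq ι]

theorem dd_prod (a : U → K) (S : Finset ι) (p : ι → U) :
    dd a (∏ x ∈ S, (X (p x) : MvPolynomial U K)) =
      ∑ x ∈ S, C (a (p x)) * ∏ w ∈ S.erase x, X (p w) := by
  induction S using Finset.induction_on with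
  | empty =>
    rw [prod_empty, sum_empty]
    exact (dd a).map_one_eq_zero
  | insert y S hy ih =>
    rw [prod_insert hy, dd_mul, dd_X, ih, sum_insert hy, erase_insert hy, mul_sum]
    congr 1
    refine sum_congr rfl fun x hx => ?_
    have hxy : y ≠ x := fun h => hy (h ▸ hx)
    rw [erase_insert_of_ne hxy, prod_insert (fun h => hy (mem_of_mem_erase h))]
    ring

theorem ddd_prod (x₀ a b c : U → K) (S : Finset ι) (p : ι → U) :
    eval x₀ (dd c (dd b (dd a (∏ x ∈ S, (X (p x) : MvPolynomial U K))))) =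
      ∑ x ∈ S, ∑ y ∈ S.erase x, ∑ z ∈ (S.erase x).erase y,
        a (p x) * b (p y) * c (p z) * ∏ w ∈ ((S.erase x).erase y).erase z, x₀ (p w) := by
  rw [dd_prod, map_sum, map_sum, map_sum]
  refine sum_congr rfl fun x _ => ?_
  rw [dd_C_mul, dd_C_mul, map_mul, eval_C, dd_prod, map_sum, map_sum, mul_sum]
  refine sum_congr rfl fun y _ => ?_
  rw [dd_C_mul, map_mul, eval_C, dd_prod, map_sum, mul_sum, mul_sum]
  refine sum_congr rfl fun z _ => ?_
  rw [map_mul, eval_C, map_prod]
  simp only [eval_X]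
  ring

end prod

section block

variable {K V ι : Type} [Field K] [CharZero K] [Fintype V] [DecidableEq V] [Fintype ι]
  [DecidableEq ι] {s q n : ℕ}

/-- the colour of an arc -/
def col (E : ι → Fin s × V × V) (χ : V → Fin q) (w : ι) : Fin s × Fin q × Fin q :=
  ((E w).1, χ (E w).2.1, χ (E w).2.2)

/-- the base point -/
noncomputable def base (n : ℕ) (c d : Fin s × Fin q × Fin q → K)
    (p : Fin s × (Fin q × (Fin 3 × Fin (n + 1))) × (Fin q × (Fin 3 × Fin (n + 1)))) : K :=
  (if p.2.1.2 = p.2.2.2 then c (p.1, p.2.1.1, p.2.2.1) else 0) + d (p.1, p.2.1.1, p.2.2.1)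

/-- a direction -/
noncomputable def dir (κ : Fin s × Fin q × Fin q) (o : Bool) (g h : Fin 3 × Fin (n + 1) → K)
    (p : Fin s × (Fin q × (Fin 3 × Fin (n + 1))) × (Fin q × (Fin 3 × Fin (n + 1)))) : K :=
  if (p.1, p.2.1.1, p.2.2.1) = κ then
    (if o then g p.2.2.2 * h p.2.1.2 else g p.2.1.2 * h p.2.2.2) else 0

/-- the ends of an arc, in the order given by `o` -/
def fstEnd (E : ι → Fin s × V × V) (o : Bool) (w : ι) : V := if o then (E w).2.2 else (E w).2.1

/-- the ends of an arc, in the order given by `o` -/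
def sndEnd (E : ι → Fin s × V × V) (o : Bool) (w : ι) : V := if o then (E w).2.1 else (E w).2.2

/-- the six ends -/
def ends (E : ι → Fin s × V × V) (o : Fin 3 → Bool) (x y z : ι) : Fin 6 → V :=
  ![fstEnd E (o 0) x, sndEnd E (o 0) x, fstEnd E (o 1) y, sndEnd E (o 1) y, fstEnd E (o 2) z,
    sndEnd E (o 2) z]

/-- the relation given by the arcs in `S` -/
def rel (E : ι → Fin s × V × V) (S : Finset ι) (v v' : V) : Prop := ∃ w ∈ S, (E w).2 = (v, v')

open Classical in
/-- the classes -/
noncomputable instance (E : ι → Fin s × V × V) (S : Finset ι) : Fintype (Quot (rel E S)) :=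
  Fintype.ofFinite _

/-- the classes of the six ends -/
def pos (E : ι → Fin s × V × V) (o : Fin 3 → Bool) (x y z : ι) (S : Finset ι) (t : Fin 6) :
    Quot (rel E S) := Quot.mk _ (ends E o x y z t)

open Classical in
/-- the factor of the third derivative -/
noncomputable def kap {A : Type*} [CommRing A] (n : ℕ) (E : ι → Fin s × V × V)
    (κ : Fin 3 → Fin s × Fin q × Fin q) (o : Fin 3 → Bool) (c d : Fin s × Fin q × Fin q → A) : A :=
  ∑ χ : V → Fin q, ∑ x, ∑ y ∈ univ.erase x, ∑ z ∈ (univ.erase x).erase y,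
    ∑ S ∈ (((univ.erase x).erase y).erase z).powerset,
      if col E χ x = κ 0 ∧ col E χ y = κ 1 ∧ col E χ z = κ 2 then
        (wgt n (pos E o x y z S) : A) * ((∏ w ∈ S, c (col E χ w)) *
          ∏ w ∈ (((univ.erase x).erase y).erase z) \ S, d (col E χ w))
      else 0

theorem dir_col (E : ι → Fin s × V × V) (χ : V → Fin q) (l : V → Fin 3 × Fin (n + 1)) (w : ι)
    (κ : Fin s × Fin q × Fin q) (o : Bool) (g h : Fin 3 × Fin (n + 1) → K)
    (hw : col E χ w = κ) : dir κ o g h
      ((E w).1, (χ (E w).2.1, l (E w).2.1), (χ (E w).2.2, l (E w).2.2)) =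
      g (l (fstEnd E o w)) * h (l (sndEnd E o w)) := by
  have h1 : dir κ o g h ((E w).1, (χ (E w).2.1, l (E w).2.1), (χ (E w).2.2, l (E w).2.2)) =
      if col E χ w = κ then (if o then g (l (E w).2.2) * h (l (E w).2.1) else
        g (l (E w).2.1) * h (l (E w).2.2)) else 0 := rfl
  rw [h1, if_pos hw]
  unfold fstEnd sndEnd
  cases o <;> simp

theorem prod_ite_all {S : Finset ι} {p : ι → Prop} [DecidablePred p] {P : Prop} [Decidable P]
    (hP : P ↔ ∀ w ∈ S, p w) (f : ι → K) :
    (∏ w ∈ S, if p w then f w else 0) = if P then ∏ w ∈ S, f w else 0 := by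
  by_cases h : ∀ w ∈ S, p w
  · rw [if_pos (hP.2 h)]
    exact prod_congr rfl fun w hw => if_pos (h w hw)
  · rw [if_neg (fun h' => h (hP.1 h'))]
    push Not at h
    obtain ⟨w, hw, hpw⟩ := h
    exact prod_eq_zero hw (if_neg hpw)

/-- **The third derivative of a homomorphism polynomial.** -/
theorem third_hom (E : ι → Fin s × V × V) (κ : Fin 3 → Fin s × Fin q × Fin q) (o : Fin 3 → Bool)
    (c d : Fin s × Fin q × Fin q → K) (i i' j j' k k' : Fin n) :
    eval (base n c d) (dd (dir (κ 2) (o 2) (gg i i' j j' k k' 4) (gg i i' j j' k k' 5))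
      (dd (dir (κ 1) (o 1) (gg i i' j j' k k' 2) (gg i i' j j' k k' 3))
        (dd (dir (κ 0) (o 0) (gg i i' j j' k k' 0) (gg i i' j j' k k' 1))
          (homG K E : MvPolynomial (Fin s × (Fin q × (Fin 3 × Fin (n + 1))) ×
            (Fin q × (Fin 3 × Fin (n + 1)))) K)))) =
      kap n E κ o c d * if i = i' ∧ j = j' ∧ k = k' then 1 else 0 := by
  classical
  unfold homG kap
  rw [map_sum, map_sum, map_sum, map_sum]
  simp only [ddd_prod]
  rw [← Equiv.sum_comp (Equiv.arrowProdEquivProdArrow V (fun _ => Fin q)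
    (fun _ => Fin 3 × Fin (n + 1))).symm, Fintype.sum_prod_type, sum_mul]
  refine sum_congr rfl fun χ _ => ?_
  simp only [sum_mul]
  -- exchange the order of summation
  rw [sum_comm]
  refine sum_congr rfl fun x _ => ?_
  rw [sum_comm]
  refine sum_congr rfl fun y _ => ?_
  rw [sum_comm]
  refine sum_congr rfl fun z _ => ?_
  set T := ((univ.erase x).erase y).erase z with hT
  by_cases hcol : col E χ x = κ 0 ∧ col E χ y = κ 1 ∧ col E χ z = κ 2
  · have h1 : ∀ l : V → Fin 3 × Fin (n + 1),
        dir (κ 0) (o 0) (gg i i' j j' k k' 0) (gg i i' j j' k k' 1)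
          ((E x).1, (χ (E x).2.1, l (E x).2.1), (χ (E x).2.2, l (E x).2.2)) *
        dir (κ 1) (o 1) (gg i i' j j' k k' 2) (gg i i' j j' k k' 3)
          ((E y).1, (χ (E y).2.1, l (E y).2.1), (χ (E y).2.2, l (E y).2.2)) *
        dir (κ 2) (o 2) (gg i i' j j' k k' 4) (gg i i' j j' k k' 5)
          ((E z).1, (χ (E z).2.1, l (E z).2.1), (χ (E z).2.2, l (E z).2.2)) *
        ∏ w ∈ T, base n c d
          ((E w).1, (χ (E w).2.1, l (E w).2.1), (χ (E w).2.2, l (E w).2.2)) =
        ∑ S ∈ T.powerset, ((∏ w ∈ S, c (col E χ w)) * ∏ w ∈ T \ S, d (col E χ w)) *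
          (if ∀ v v', rel E S v v' → l v = l v' then
            ∏ t, (gg i i' j j' k k' t (l (ends E o x y z t)) : K) else 0) := by
      intro l
      have e1 : dir (κ 0) (o 0) (gg i i' j j' k k' 0) (gg i i' j j' k k' 1)
          ((E x).1, (χ (E x).2.1, l (E x).2.1), (χ (E x).2.2, l (E x).2.2)) =
          (gg i i' j j' k k' 0 (l (ends E o x y z 0)) : K) *
            gg i i' j j' k k' 1 (l (ends E o x y z 1)) := by
        exact dir_col E χ l x _ _ _ _ hcol.1
      have e2 : dir (κ 1) (o 1) (gg i i' j j' k k' 2) (gg i i' j j' k k' 3)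
          ((E y).1, (χ (E y).2.1, l (E y).2.1), (χ (E y).2.2, l (E y).2.2)) =
          (gg i i' j j' k k' 2 (l (ends E o x y z 2)) : K) *
            gg i i' j j' k k' 3 (l (ends E o x y z 3)) := by
        exact dir_col E χ l y _ _ _ _ hcol.2.1
      have e3 : dir (κ 2) (o 2) (gg i i' j j' k k' 4) (gg i i' j j' k k' 5)
          ((E z).1, (χ (E z).2.1, l (E z).2.1), (χ (E z).2.2, l (E z).2.2)) =
          (gg i i' j j' k k' 4 (l (ends E o x y z 4)) : K) *
            gg i i' j j' k k' 5 (l (ends E o x y z 5)) := by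
        exact dir_col E χ l z _ _ _ _ hcol.2.2
      have e4 : ∏ w ∈ T, base n c d
          ((E w).1, (χ (E w).2.1, l (E w).2.1), (χ (E w).2.2, l (E w).2.2)) =
          ∑ S ∈ T.powerset, (if ∀ v v', rel E S v v' → l v = l v' then
            (∏ w ∈ S, c (col E χ w)) else 0) * ∏ w ∈ T \ S, d (col E χ w) := by
        unfold base
        simp only
        rw [Finset.prod_add]
        refine sum_congr rfl fun S _ => ?_
        congr 1
        refine prod_ite_all ?_ _
        constructor
        · intro h w hw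
          exact h _ _ ⟨w, hw, rfl⟩
        · rintro h v v' ⟨w, hw, hvv⟩
          have := h w hw
          rw [hvv] at this
          exact this
      rw [e1, e2, e3, e4, mul_sum]
      refine sum_congr rfl fun S _ => ?_
      rw [Fin.prod_univ_six]
      split_ifs
      · ring
      · ring
    have h2 : ∀ l : V → Fin 3 × Fin (n + 1), ∀ w : ι,
        (((E w).1, ((Equiv.arrowProdEquivProdArrow V (fun _ => Fin q)
          (fun _ => Fin 3 × Fin (n + 1))).symm (χ, l)) (E w).2.1,
          ((Equiv.arrowProdEquivProdArrow V (fun _ => Fin q)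
          (fun _ => Fin 3 × Fin (n + 1))).symm (χ, l)) (E w).2.2) : Fin s × (Fin q ×
            (Fin 3 × Fin (n + 1))) × (Fin q × (Fin 3 × Fin (n + 1)))) =
        ((E w).1, (χ (E w).2.1, l (E w).2.1), (χ (E w).2.2, l (E w).2.2)) := fun l w => rfl
    simp only [h2, h1]
    rw [sum_comm]
    refine sum_congr rfl fun S _ => ?_
    rw [if_pos hcol, ← mul_sum]
    have h3 := sum_respect (rel E S) (fun l : V → Fin 3 × Fin (n + 1) =>
      ∏ t, (gg i i' j j' k k' t (l (ends E o x y z t)) : K))
    rw [h3]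
    have h4 := value (K := K) i i' j j' k k' (pos E o x y z S)
    have h5 : ∑ ψ : Quot (rel E S) → Fin 3 × Fin (n + 1), ∏ t, (gg i i' j j' k k' t
        (ψ (Quot.mk (rel E S) (ends E o x y z t))) : K) =
        (wgt n (pos E o x y z S) : K) * if i = i' ∧ j = j' ∧ k = k' then 1 else 0 := h4
    rw [h5]
    ring
  · have h1 : ∀ l : V → Fin q × (Fin 3 × Fin (n + 1)), (∀ v, (l v).1 = χ v) →
        dir (κ 0) (o 0) (gg i i' j j' k k' 0) (gg i i' j j' k k' 1)
          ((E x).1, l (E x).2.1, l (E x).2.2) *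
        dir (κ 1) (o 1) (gg i i' j j' k k' 2) (gg i i' j j' k k' 3)
          ((E y).1, l (E y).2.1, l (E y).2.2) *
        dir (κ 2) (o 2) (gg i i' j j' k k' 4) (gg i i' j j' k k' 5)
          ((E z).1, l (E z).2.1, l (E z).2.2) = (0 : K) := by
      intro l hl
      have hc : ∀ w, ((E w).1, (l (E w).2.1).1, (l (E w).2.2).1) = col E χ w := by
        intro w
        rw [hl, hl]
        rfl
      unfold dir
      simp only [hc]
      by_cases h0 : col E χ x = κ 0
      · by_cases h1 : col E χ y = κ 1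
        · have h2 : ¬ col E χ z = κ 2 := fun h2 => hcol ⟨h0, h1, h2⟩
          rw [if_neg h2, mul_zero]
        · rw [if_neg h1, mul_zero, zero_mul]
      · rw [if_neg h0, zero_mul, zero_mul]
    rw [Finset.sum_eq_zero, Finset.sum_eq_zero]
    · intro S _
      rw [if_neg hcol, zero_mul]
    · intro l _
      rw [h1 _ (fun v => rfl), zero_mul]

end block

end Run7.h128.PI
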